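import Pool.Agent.Work.MP_6237c7_co.LU37

set_option autoImplicit false

namespace H79KMW.LU37

/-- The properties of the cone and of the two paths used for existence. -/
structure Full (N : ℝ) (M : ℝ → ℝ → ℝ → Prop) (z f : ℝ → ℝ → ℝ) : Prop extends Base N M where
  closed : IsClosed {p : ℝ × ℝ × ℝ | M p.1 p.2.1 p.2.2}
  add : ∀ {σ x y σ' x' y'}, M σ x y → M σ' x' y' → M (σ + σ') (x + x') (y + y')
  bd : ∀ {σ x y}, M σ x y → σ ≤ x ∧ x ≤ (2 * N - 1) * σ ∧ σ ≤ y ∧ y ≤ (2 * N - 1) * σ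
  zM : ∀ {σ y}, 0 < σ → σ ≤ y → y ≤ (2 * N - 1) * σ → M σ (z σ y) y
  fM : ∀ {σ x}, 0 < σ → σ ≤ x → x ≤ (2 * N - 1) * σ → M σ x (f σ x)
  zc : ∀ {σ}, 0 < σ → ContinuousOn (z σ) (Set.Icc σ ((2 * N - 1) * σ))
  fc : ∀ {σ}, 0 < σ → ContinuousOn (f σ) (Set.Icc σ ((2 * N - 1) * σ))
  z0 : z 0 0 = 0
  f0 : f 0 0 = 0
  bottom : ∀ {σ x}, M σ x σ → z σ σ ≤ x
  top : ∀ {σ x}, M σ x ((2 * N - 1) * σ) → x ≤ z σ ((2 * N - 1) * σ)
  lefte : ∀ {σ y}, M σ σ y → y ≤ f σ σ
  righte : ∀ {σ y}, M σ ((2 * N - 1) * σ) y → f σ ((2 * N - 1) * σ) ≤ y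

variable {N : ℝ} {M : ℝ → ℝ → ℝ → Prop} {z f : ℝ → ℝ → ℝ}

lemma slicex (h : Full N M z f) {σ x x' u y : ℝ} (h1 : M σ x y) (h2 : M σ x' y) (hu : x ≤ u)
    (hu' : u ≤ x') : M σ u y := by
  rcases (hu.trans hu').eq_or_lt with he | he
  · have : u = x := le_antisymm (by rw [he]; exact hu') hu
    rw [this]; exact h1
  · have h3 := h.conv h1 h2 (c := (u - x) / (x' - x)) (div_nonneg (by linarith) (by linarith))
      ((div_le_one (by linarith)).2 (by linarith))
    have h4 : x + (u - x) / (x' - x) * (x' - x) = u := by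
      rw [div_mul_cancel₀ _ (by linarith)]; ring
    rw [h4, sub_self, mul_zero, add_zero] at h3
    exact h3

lemma slicey (h : Full N M z f) {σ x y y' u : ℝ} (h1 : M σ x y) (h2 : M σ x y') (hu : y ≤ u)
    (hu' : u ≤ y') : M σ x u := by
  rcases (hu.trans hu').eq_or_lt with he | he
  · have : u = y := le_antisymm (by rw [he]; exact hu') hu
    rw [this]; exact h1
  · have h3 := h.conv h1 h2 (c := (u - y) / (y' - y)) (div_nonneg (by linarith) (by linarith))
      ((div_le_one (by linarith)).2 (by linarith))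
    have h4 : y + (u - y) / (y' - y) * (y' - y) = u := by
      rw [div_mul_cancel₀ _ (by linarith)]; ring
    rw [h4, sub_self, mul_zero, add_zero] at h3
    exact h3

/-- A small `c` for two strict inequalities. -/
lemma small_two {p q p' q' : ℝ} (hp : p < 0) (hp' : p' < 0) :
    ∃ c : ℝ, 0 < c ∧ c ≤ 1 ∧ p + c * q < 0 ∧ p' + c * q' < 0 := by
  obtain ⟨c, hc0, hc1, hc⟩ := small_step (q := q) hp
  obtain ⟨d, hd0, hd1, hd⟩ := small_step (q := q') hp'
  refine ⟨min c d, lt_min hc0 hd0, (min_le_left _ _).trans hc1, ?_, ?_⟩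
  · rcases le_or_gt q 0 with hq | hq
    · have : min c d * q ≤ 0 := mul_nonpos_of_nonneg_of_nonpos (lt_min hc0 hd0).le hq
      linarith
    · have : min c d * q ≤ c * q := mul_le_mul_of_nonneg_right (min_le_left _ _) hq.le
      linarith
  · rcases le_or_gt q' 0 with hq | hq
    · have : min c d * q' ≤ 0 := mul_nonpos_of_nonneg_of_nonpos (lt_min hc0 hd0).le hq
      linarith
    · have : min c d * q' ≤ d * q' := mul_le_mul_of_nonneg_right (min_le_right _ _) hq.le
      linarith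

/-- Points nearby with a prescribed upper bound for a continuous function, above. -/
lemma near_above {g : ℝ → ℝ} {a b y c : ℝ} (hg : ContinuousOn g (Set.Icc a b)) (hy : a ≤ y)
    (hy' : y < b) (hc : g y < c) : ∃ y', y < y' ∧ y' ≤ b ∧ g y' < c := by
  have h1 : ContinuousWithinAt g (Set.Icc a b) y := hg y ⟨hy, hy'.le⟩
  have h2 : ∀ᶠ u in nhdsWithin y (Set.Icc a b), g u < c := h1 (Iio_mem_nhds hc)
  rw [eventually_nhdsWithin_iff, Metric.eventually_nhds_iff] at h2
  obtain ⟨ε, hε, h3⟩ := h2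
  refine ⟨min b (y + ε / 2), lt_min hy' (by linarith), min_le_left _ _, h3 ?_ ⟨?_, min_le_left _ _⟩⟩
  · rw [Real.dist_eq, abs_lt]
    constructor
    · have : y < min b (y + ε / 2) := lt_min hy' (by linarith)
      linarith
    · have : min b (y + ε / 2) ≤ y + ε / 2 := min_le_right _ _
      linarith
  · exact hy.trans (lt_min hy' (by linarith)).le

lemma near_below {g : ℝ → ℝ} {a b y c : ℝ} (hg : ContinuousOn g (Set.Icc a b)) (hy : a < y)
    (hy' : y ≤ b) (hc : g y < c) : ∃ y', a ≤ y' ∧ y' < y ∧ g y' < c := by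
  have h1 : ContinuousWithinAt g (Set.Icc a b) y := hg y ⟨hy.le, hy'⟩
  have h2 : ∀ᶠ u in nhdsWithin y (Set.Icc a b), g u < c := h1 (Iio_mem_nhds hc)
  rw [eventually_nhdsWithin_iff, Metric.eventually_nhds_iff] at h2
  obtain ⟨ε, hε, h3⟩ := h2
  have h4 : max a (y - ε / 2) < y := max_lt hy (by linarith)
  refine ⟨max a (y - ε / 2), le_max_left _ _, h4, h3 ?_ ⟨le_max_left _ _, h4.le.trans hy'⟩⟩
  rw [Real.dist_eq, abs_lt]
  constructor
  · have : y - ε / 2 ≤ max a (y - ε / 2) := le_max_right _ _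
    linarith
  · linarith

lemma near_above' {g : ℝ → ℝ} {a b y c : ℝ} (hg : ContinuousOn g (Set.Icc a b)) (hy : a ≤ y)
    (hy' : y < b) (hc : c < g y) : ∃ y', y < y' ∧ y' ≤ b ∧ c < g y' := by
  obtain ⟨u, h1, h2, h3⟩ := near_above (g := fun v => - g v) (c := -c) hg.neg hy hy' (by linarith)
  exact ⟨u, h1, h2, by linarith⟩

lemma near_below' {g : ℝ → ℝ} {a b y c : ℝ} (hg : ContinuousOn g (Set.Icc a b)) (hy : a < y)
    (hy' : y ≤ b) (hc : c < g y) : ∃ y', a ≤ y' ∧ y' < y ∧ c < g y' := by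
  obtain ⟨u, h1, h2, h3⟩ := near_below (g := fun v => - g v) (c := -c) hg.neg hy hy' (by linarith)
  exact ⟨u, h1, h2, by linarith⟩

/-- Feasible points for `w = (s, t, X, Y)`. -/
def Fs (N : ℝ) (M : ℝ → ℝ → ℝ → Prop) (s t X Y σ x y : ℝ) : Prop :=
  M σ x y ∧ 2 * σ ≤ s ∧ 2 * σ ≤ t ∧ x ≤ X ∧ X - x ≤ N * (s - 2 * σ) ∧ y ≤ Y ∧
    Y - y ≤ N * (t - 2 * σ)

/-- A feasible point of maximal level. -/
lemma exists_max (h : Full N M z f) {s t X Y : ℝ} (hX : 0 ≤ X) (hX' : X ≤ N * s) (hY : 0 ≤ Y)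
    (hY' : Y ≤ N * t) : ∃ σ x y, Fs N M s t X Y σ x y ∧
      ∀ σ' x' y', Fs N M s t X Y σ' x' y' → σ' ≤ σ := by
  have hN := h.N0
  have hs : 0 ≤ s := by
    by_contra hc
    nlinarith
  have ht : 0 ≤ t := by
    by_contra hc
    nlinarith
  let K : Set (ℝ × ℝ × ℝ) := {p | Fs N M s t X Y p.1 p.2.1 p.2.2}
  have hcl : IsClosed K := by
    have e : K = {p : ℝ × ℝ × ℝ | M p.1 p.2.1 p.2.2} ∩ ({p | 2 * p.1 ≤ s} ∩ ({p | 2 * p.1 ≤ t} ∩
        ({p | p.2.1 ≤ X} ∩ ({p | X - p.2.1 ≤ N * (s - 2 * p.1)} ∩ ({p | p.2.2 ≤ Y} ∩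
          {p | Y - p.2.2 ≤ N * (t - 2 * p.1)}))))) := by
      ext p; rfl
    rw [e]
    refine h.closed.inter ((isClosed_le (by fun_prop) (by fun_prop)).inter
      ((isClosed_le (by fun_prop) (by fun_prop)).inter ((isClosed_le (by fun_prop) (by fun_prop)).inter
      ((isClosed_le (by fun_prop) (by fun_prop)).inter ((isClosed_le (by fun_prop) (by fun_prop)).inter
      (isClosed_le (by fun_prop) (by fun_prop)))))))
  have hsub : K ⊆ Set.Icc 0 s ×ˢ (Set.Icc 0 X ×ˢ Set.Icc 0 Y) := by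
    rintro ⟨σ, x, y⟩ ⟨hm, h1, h2, h3, h4, h5, h6⟩
    have hσ := h.nn hm
    have hb := h.bd hm
    exact ⟨⟨hσ, by show σ ≤ s; linarith⟩, ⟨hσ.trans hb.1, h3⟩, ⟨hσ.trans hb.2.2.1, h5⟩⟩
  have hK : IsCompact K :=
    (isCompact_Icc.prod (isCompact_Icc.prod isCompact_Icc)).of_isClosed_subset hcl hsub
  have hne : K.Nonempty := by
    obtain ⟨u, v, _, _, huv, _, _⟩ := h.twox one_pos
    have h0 := h.scale huv (c := 0) le_rfl
    simp only [zero_mul] at h0
    exact ⟨(0, 0, 0), h0, by simpa using hs, by simpa using ht, hX, by simpa using hX', hY,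
      by simpa using hY'⟩
  obtain ⟨⟨σ, x, y⟩, hp, hmax⟩ := hK.exists_isMaxOn hne (f := fun p : ℝ × ℝ × ℝ => p.1)
    (by fun_prop)
  exact ⟨σ, x, y, hp, fun σ' x' y' hp' => hmax (show ((σ', x', y') : ℝ × ℝ × ℝ) ∈ K from hp')⟩

/-- Strict points are not maximal. -/
lemma not_strict (h : Full N M z f) {s t X Y σ x y : ℝ}
    (hmax : ∀ σ' x' y', Fs N M s t X Y σ' x' y' → σ' ≤ σ) (hm : M σ x y)
    (h1 : x < X) (h2 : X - x < N * (s - 2 * σ)) (h3 : y < Y)
    (h4 : Y - y < N * (t - 2 * σ)) : False := by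
  have hN := h.N0
  obtain ⟨u, v, _, _, huv, _, _⟩ := h.twox one_pos
  obtain ⟨hu1, hu2, hv1, hv2⟩ := h.box huv one_pos
  obtain ⟨c, hc0, _, hc1, hc2⟩ := small_two (p := x - X) (q := u) (p' := y - Y) (q' := v)
    (by linarith) (by linarith)
  obtain ⟨d, hd0, _, hd1, hd2⟩ := small_two (p := X - x - N * (s - 2 * σ)) (q := 2 * N - u)
    (p' := Y - y - N * (t - 2 * σ)) (q' := 2 * N - v) (by linarith) (by linarith)
  set e := min c d with he
  have he0 : 0 < e := lt_min hc0 hd0
  have hec : e ≤ c := min_le_left _ _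
  have hed : e ≤ d := min_le_right _ _
  have h5 := h.add hm (h.scale huv he0.le)
  rw [mul_one] at h5
  have k1 : e * u ≤ c * u := mul_le_mul_of_nonneg_right hec hu1.le
  have k2 : e * v ≤ c * v := mul_le_mul_of_nonneg_right hec hv1.le
  have k3 : e * (2 * N - u) ≤ d * (2 * N - u) := mul_le_mul_of_nonneg_right hed (by linarith)
  have k4 : e * (2 * N - v) ≤ d * (2 * N - v) := mul_le_mul_of_nonneg_right hed (by linarith)
  have g1 : X - (x + e * u) ≤ N * (s - 2 * (σ + e)) := by nlinarith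
  have g2 : Y - (y + e * v) ≤ N * (t - 2 * (σ + e)) := by nlinarith
  have g3 : x + e * u ≤ X := by linarith
  have g4 : y + e * v ≤ Y := by linarith
  have g5 : 0 ≤ s - 2 * (σ + e) := by
    by_contra hcon
    rw [not_le] at hcon
    have : N * (s - 2 * (σ + e)) < 0 := mul_neg_of_pos_of_neg hN hcon
    linarith
  have g6 : 0 ≤ t - 2 * (σ + e) := by
    by_contra hcon
    rw [not_le] at hcon
    have : N * (t - 2 * (σ + e)) < 0 := mul_neg_of_pos_of_neg hN hcon
    linarith
  have := hmax _ _ _ ⟨h5, by linarith, by linarith, g3, g1, g4, g2⟩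
  linarith

lemma max_sw (h : Full N M z f) {s t X Y σ x y : ℝ} (hF : Fs N M s t X Y σ x y)
    (hmax : ∀ σ' x' y', Fs N M s t X Y σ' x' y' → σ' ≤ σ)
    (h0 : X - x < N * (s - 2 * σ)) (h2 : Y - y < N * (t - 2 * σ)) : SW M σ x y := by
  intro x' y' hm' hx
  by_contra hy
  rw [not_le] at hy
  obtain ⟨c, hc0, hc1, k1, k2⟩ := small_two (p := X - x - N * (s - 2 * σ)) (q := x - x')
    (p' := Y - y - N * (t - 2 * σ)) (q' := y - y') (by linarith) (by linarith)
  have h5 := h.conv hF.1 hm' hc0.le hc1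
  have m1 : 0 < c * (x - x') := mul_pos hc0 (by linarith)
  have m2 : 0 < c * (y - y') := mul_pos hc0 (by linarith)
  have := hF.2.2.2.1
  have := hF.2.2.2.2.2.1
  exact not_strict h hmax h5 (by linarith) (by linarith) (by linarith) (by linarith)

lemma max_se (h : Full N M z f) {s t X Y σ x y : ℝ} (hF : Fs N M s t X Y σ x y)
    (hmax : ∀ σ' x' y', Fs N M s t X Y σ' x' y' → σ' ≤ σ)
    (h0 : x < X) (h2 : Y - y < N * (t - 2 * σ)) : SE M σ x y := by
  intro x' y' hm' hx
  by_contra hy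
  rw [not_le] at hy
  obtain ⟨c, hc0, hc1, k1, k2⟩ := small_two (p := x - X) (q := x' - x)
    (p' := Y - y - N * (t - 2 * σ)) (q' := y - y') (by linarith) (by linarith)
  have h5 := h.conv hF.1 hm' hc0.le hc1
  have m1 : 0 < c * (x' - x) := mul_pos hc0 (by linarith)
  have m2 : 0 < c * (y - y') := mul_pos hc0 (by linarith)
  have := hF.2.2.2.2.1
  have := hF.2.2.2.2.2.1
  exact not_strict h hmax h5 (by linarith) (by linarith) (by linarith) (by linarith)

lemma max_nw (h : Full N M z f) {s t X Y σ x y : ℝ} (hF : Fs N M s t X Y σ x y)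
    (hmax : ∀ σ' x' y', Fs N M s t X Y σ' x' y' → σ' ≤ σ)
    (h0 : X - x < N * (s - 2 * σ)) (h2 : y < Y) : NW M σ x y := by
  intro x' y' hm' hx
  by_contra hy
  rw [not_le] at hy
  obtain ⟨c, hc0, hc1, k1, k2⟩ := small_two (p := X - x - N * (s - 2 * σ)) (q := x - x')
    (p' := y - Y) (q' := y' - y) (by linarith) (by linarith)
  have h5 := h.conv hF.1 hm' hc0.le hc1
  have m1 : 0 < c * (x - x') := mul_pos hc0 (by linarith)
  have m2 : 0 < c * (y' - y) := mul_pos hc0 (by linarith)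
  have := hF.2.2.2.1
  have := hF.2.2.2.2.2.2
  exact not_strict h hmax h5 (by linarith) (by linarith) (by linarith) (by linarith)

lemma max_ne (h : Full N M z f) {s t X Y σ x y : ℝ} (hF : Fs N M s t X Y σ x y)
    (hmax : ∀ σ' x' y', Fs N M s t X Y σ' x' y' → σ' ≤ σ)
    (h0 : x < X) (h2 : y < Y) : NE M σ x y := by
  intro x' y' hm' hx
  by_contra hy
  rw [not_le] at hy
  obtain ⟨c, hc0, hc1, k1, k2⟩ := small_two (p := x - X) (q := x' - x)
    (p' := y - Y) (q' := y' - y) (by linarith) (by linarith)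
  have h5 := h.conv hF.1 hm' hc0.le hc1
  have m1 : 0 < c * (x' - x) := mul_pos hc0 (by linarith)
  have m2 : 0 < c * (y' - y) := mul_pos hc0 (by linarith)
  have := hF.2.2.2.2.1
  have := hF.2.2.2.2.2.2
  exact not_strict h hmax h5 (by linarith) (by linarith) (by linarith) (by linarith)

/-- The conclusion for one point. -/
def Rep (N : ℝ) (M : ℝ → ℝ → ℝ → Prop) (z f : ℝ → ℝ → ℝ) (s t X Y : ℝ) : Prop :=
  ∃ a₀ a₁ a₂ a₃ σ x y, Cond M z f a₀ a₁ a₂ a₃ σ x y ∧ a₀ + a₁ + 2 * σ = s ∧
    a₂ + a₃ + 2 * σ = t ∧ N * a₁ + x = X ∧ N * a₃ + y = Y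

/-- Assembling a representation: the coefficients are `(N (s - 2 σ) - (X - x)) / N` etc. -/
lemma rep_mk (hN : 0 < N) {s t X Y σ x y : ℝ} (hF : Fs N M s t X Y σ x y)
    (l : X - x < N * (s - 2 * σ) → x ≤ z σ y)
    (r : x < X → z σ y ≤ x)
    (b : Y - y < N * (t - 2 * σ) → y ≤ f σ x)
    (t' : y < Y → f σ x ≤ y)
    (sw : X - x < N * (s - 2 * σ) → Y - y < N * (t - 2 * σ) → SW M σ x y)
    (se : x < X → Y - y < N * (t - 2 * σ) → SE M σ x y)
    (nw : X - x < N * (s - 2 * σ) → y < Y → NW M σ x y)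
    (ne : x < X → y < Y → NE M σ x y)
    (na : ¬ (X - x < N * (s - 2 * σ) ∧ x < X ∧ Y - y < N * (t - 2 * σ) ∧ y < Y)) :
    Rep N M z f s t X Y := by
  obtain ⟨hm, _, _, h3, h4, h5, h6⟩ := hF
  have i₀ : ∀ {p : ℝ}, 0 < (N * (s - 2 * σ) - p) / N → p < N * (s - 2 * σ) := by
    intro p hp
    have := (div_pos_iff_of_pos_right hN).1 hp
    linarith
  have i₂ : ∀ {p : ℝ}, 0 < (N * (t - 2 * σ) - p) / N → p < N * (t - 2 * σ) := by
    intro p hp
    have := (div_pos_iff_of_pos_right hN).1 hp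
    linarith
  have i₁ : ∀ {p q : ℝ}, 0 < (p - q) / N → q < p := by
    intro p q hp
    have := (div_pos_iff_of_pos_right hN).1 hp
    linarith
  refine ⟨(N * (s - 2 * σ) - (X - x)) / N, (X - x) / N, (N * (t - 2 * σ) - (Y - y)) / N,
    (Y - y) / N, σ, x, y, ⟨div_nonneg (by linarith) hN.le, div_nonneg (by linarith) hN.le,
      div_nonneg (by linarith) hN.le, div_nonneg (by linarith) hN.le, hm, fun h => l (i₀ h),
      fun h => r (i₁ h), fun h => b (i₂ h), fun h => t' (i₁ h), fun h h' => sw (i₀ h) (i₂ h'),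
      fun h h' => se (i₁ h) (i₂ h'), fun h h' => nw (i₀ h) (i₁ h'), fun h h' => ne (i₁ h) (i₁ h'),
      fun h => na ⟨i₀ h.1, i₁ h.2.1, i₂ h.2.2.1, i₁ h.2.2.2⟩⟩, ?_, ?_, ?_, ?_⟩
  · field_simp
    ring
  · field_simp
    ring
  · field_simp
    ring
  · field_simp
    ring

/-- EXISTENCE. -/
theorem exists_rep (h : Full N M z f) {s t X Y : ℝ} (hX : 0 ≤ X) (hX' : X ≤ N * s) (hY : 0 ≤ Y)
    (hY' : Y ≤ N * t) : Rep N M z f s t X Y := by
  have hN := h.N0
  obtain ⟨σ, x, y, hF, hmax⟩ := exists_max h hX hX' hY hY'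
  obtain ⟨hm, h1, h2, h3, h4, h5, h6⟩ := hF
  have hF : Fs N M s t X Y σ x y := ⟨hm, h1, h2, h3, h4, h5, h6⟩
  have hna : ¬ (X - x < N * (s - 2 * σ) ∧ x < X ∧ Y - y < N * (t - 2 * σ) ∧ y < Y) :=
    fun hc => not_strict h hmax hm hc.2.1 hc.1 hc.2.2.2 hc.2.2.1
  have hσ0 := h.nn hm
  rcases hσ0.eq_or_lt with hz | hσ
  · -- level zero
    subst hz
    obtain ⟨rfl, rfl⟩ := h.zero hm
    have hv : ∀ x' y', M 0 x' y' → x' = 0 ∧ y' = 0 := fun x' y' hm' => h.zero hm'
    refine rep_mk hN hF (fun _ => h.z0.ge) (fun _ => h.z0.le) (fun _ => h.f0.ge)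
      (fun _ => h.f0.le) ?_ ?_ ?_ ?_ hna
    · intro _ _ x' y' hm' _; exact (hv _ _ hm').2.ge
    · intro _ _ x' y' hm' _; exact (hv _ _ hm').2.ge
    · intro _ _ x' y' hm' _; exact (hv _ _ hm').2.le
    · intro _ _ x' y' hm' _; exact (hv _ _ hm').2.le
  obtain ⟨bx1, bx2, by1, by2⟩ := h.bd hm
  have hzM := h.zM hσ by1 by2
  have hfM := h.fM hσ bx1 bx2
  rcases h2.eq_or_lt with ht | ht
  · -- `2 σ = t`: move `x` towards the path
    have hy : y = Y := by
      rw [← ht, sub_self, mul_zero] at h6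
      linarith
    set lo := X - N * (s - 2 * σ) with hlo
    have hlox : lo ≤ x := by rw [hlo]; linarith
    set u := max lo (min X (z σ y)) with hu
    have hu1 : lo ≤ u := le_max_left _ _
    have hu2 : u ≤ X := max_le (hlox.trans h3) (min_le_left _ _)
    have hMu : M σ u y := by
      rcases le_total (z σ y) x with hzx | hzx
      · refine slicex h hzM hm ?_ ?_
        · rw [hu]
          refine le_max_of_le_right (le_min (hzx.trans h3) le_rfl)
        · rw [hu]
          exact max_le hlox ((min_le_right _ _).trans hzx)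
      · refine slicex h hm hzM ?_ ?_
        · rw [hu]
          exact le_max_of_le_right (le_min h3 hzx)
        · rw [hu]
          exact max_le (hlox.trans hzx) (min_le_right _ _)
    have hY0 : ¬ (y < Y) := by rw [hy]; exact lt_irrefl _
    have hY1 : ¬ (Y - y < N * (t - 2 * σ)) := by
      rw [← ht, sub_self, mul_zero, hy, sub_self]; exact lt_irrefl _
    refine rep_mk hN ⟨hMu, h1, h2, hu2, by rw [hlo] at hu1; linarith, h5, h6⟩ ?_ ?_ (fun hc => absurd hc hY1)
      (fun hc => absurd hc hY0) (fun _ hc => absurd hc hY1) (fun _ hc => absurd hc hY1)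
      (fun _ hc => absurd hc hY0) (fun _ hc => absurd hc hY0) (fun hc => hY0 hc.2.2.2)
    · intro hc
      have h7 : lo < u := by rw [hlo]; linarith
      have h8 : u = min X (z σ y) := by
        rw [hu] at h7 ⊢
        rcases max_choice lo (min X (z σ y)) with h9 | h9
        · rw [h9] at h7; exact absurd h7 (lt_irrefl _)
        · exact h9
      rw [h8]; exact min_le_right _ _
    · intro hc
      have h7 : min X (z σ y) ≤ u := le_max_right _ _
      have h8 : min X (z σ y) = z σ y := by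
        rcases min_choice X (z σ y) with h9 | h9
        · rw [h9] at h7; linarith
        · exact h9
      rw [← h8]; exact h7
  rcases h1.eq_or_lt with hs | hs
  · -- `2 σ = s`: move `y` towards the path
    have hx : x = X := by
      rw [← hs, sub_self, mul_zero] at h4
      linarith
    set lo := Y - N * (t - 2 * σ) with hlo
    have hloy : lo ≤ y := by rw [hlo]; linarith
    set u := max lo (min Y (f σ x)) with hu
    have hu1 : lo ≤ u := le_max_left _ _
    have hu2 : u ≤ Y := max_le (hloy.trans h5) (min_le_left _ _)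
    have hMu : M σ x u := by
      rcases le_total (f σ x) y with hzx | hzx
      · refine slicey h hfM hm ?_ ?_
        · rw [hu]
          refine le_max_of_le_right (le_min (hzx.trans h5) le_rfl)
        · rw [hu]
          exact max_le hloy ((min_le_right _ _).trans hzx)
      · refine slicey h hm hfM ?_ ?_
        · rw [hu]
          exact le_max_of_le_right (le_min h5 hzx)
        · rw [hu]
          exact max_le (hloy.trans hzx) (min_le_right _ _)
    have hX0 : ¬ (x < X) := by rw [hx]; exact lt_irrefl _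
    have hX1 : ¬ (X - x < N * (s - 2 * σ)) := by
      rw [← hs, sub_self, mul_zero, hx, sub_self]; exact lt_irrefl _
    refine rep_mk hN ⟨hMu, h1, h2, h3, h4, hu2, by rw [hlo] at hu1; linarith⟩
      (fun hc => absurd hc hX1)
      (fun hc => absurd hc hX0) ?_ ?_ (fun hc => absurd hc hX1) (fun hc => absurd hc hX0)
      (fun hc => absurd hc hX1) (fun hc => absurd hc hX0) (fun hc => hX0 hc.2.1)
    · intro hc
      have h7 : lo < u := by rw [hlo]; linarith
      have h8 : u = min Y (f σ x) := by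
        rw [hu] at h7 ⊢
        rcases max_choice lo (min Y (f σ x)) with h9 | h9
        · rw [h9] at h7; exact absurd h7 (lt_irrefl _)
        · exact h9
      rw [h8]; exact min_le_right _ _
    · intro hc
      have h7 : min Y (f σ x) ≤ u := le_max_right _ _
      have h8 : min Y (f σ x) = f σ x := by
        rcases min_choice Y (f σ x) with h9 | h9
        · rw [h9] at h7; linarith
        · exact h9
      rw [← h8]; exact h7
  -- the main case
  have hsw := max_sw h hF hmax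
  have hse := max_se h hF hmax
  have hnw := max_nw h hF hmax
  have hne := max_ne h hF hmax
  have hsN : 0 < N * (s - 2 * σ) := mul_pos hN (by linarith)
  have htN : 0 < N * (t - 2 * σ) := mul_pos hN (by linarith)
  have hcz := h.zc hσ
  have hcf := h.fc hσ
  by_cases vl : X - x < N * (s - 2 * σ) ∧ z σ y < x
  · -- bottom edge
    obtain ⟨va, vz⟩ := vl
    have hY0 : ¬ y < Y := by
      intro hc
      rcases by2.lt_or_eq with h7 | h7
      · obtain ⟨y', g1, g2, g3⟩ := near_above hcz by1 h7 vz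
        have := hnw va hc _ _ (h.zM hσ (by1.trans g1.le) g2) g3
        linarith
      · rw [h7] at hm vz
        have := h.top hm
        linarith
    have hYy : y = Y := le_antisymm h5 (not_lt.1 hY0)
    have hb : Y - y < N * (t - 2 * σ) := by rw [hYy, sub_self]; exact htN
    have hyσ : y = σ := by
      by_contra hc
      have h7 : σ < y := lt_of_le_of_ne by1 (Ne.symm hc)
      obtain ⟨y', g1, g2, g3⟩ := near_below hcz h7 by2 vz
      have := hsw va hb _ _ (h.zM hσ g1 (g2.le.trans by2)) g3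
      linarith
    rw [hyσ] at hm vz hzM hb hYy hY0
    set lo := X - N * (s - 2 * σ) with hlo
    set u := max (z σ σ) lo with hu
    have hux : u ≤ x := max_le vz.le (by rw [hlo]; linarith)
    have hMu : M σ u σ := slicex h hzM hm (le_max_left _ _) hux
    have hlou : lo ≤ u := le_max_right _ _
    obtain ⟨_, _, _, _⟩ := h.bd hMu
    obtain ⟨_, _, w3, w4⟩ := h.bd (h.fM hσ (by assumption) (by assumption) : M σ u (f σ u))
    refine rep_mk hN ⟨hMu, h1, h2, hux.trans h3, by rw [hlo] at hlou; linarith, hYy.le,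
      hb.le⟩ ?_ ?_ (fun _ => w3) (fun hc => absurd hc hY0) ?_ ?_ (fun _ hc => absurd hc hY0)
      (fun _ hc => absurd hc hY0) (fun hc => hY0 hc.2.2.2)
    · intro hc
      have h7 : lo < u := by rw [hlo]; linarith
      rcases max_choice (z σ σ) lo with h9 | h9
      · rw [hu, h9]
      · rw [hu, h9] at h7; exact absurd h7 (lt_irrefl _)
    · intro _; exact le_max_left _ _
    · intro _ _ x' y' hm' _; exact (h.bd hm').2.2.1
    · intro _ _ x' y' hm' _; exact (h.bd hm').2.2.1
  by_cases vr : x < X ∧ x < z σ y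
  · -- top edge
    obtain ⟨va, vz⟩ := vr
    have hY0 : ¬ (Y - y < N * (t - 2 * σ)) := by
      intro hc
      rcases by1.lt_or_eq with h7 | h7
      · obtain ⟨y', g1, g2, g3⟩ := near_below' hcz h7 by2 vz
        have := hse va hc _ _ (h.zM hσ g1 (g2.le.trans by2)) g3
        linarith
      · rw [← h7] at hm vz
        have := h.bottom hm
        linarith
    have hYy : Y - y = N * (t - 2 * σ) := le_antisymm h6 (not_lt.1 hY0)
    have hb : y < Y := by linarith
    have hyσ : y = (2 * N - 1) * σ := by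
      by_contra hc
      have h7 : y < (2 * N - 1) * σ := lt_of_le_of_ne by2 hc
      obtain ⟨y', g1, g2, g3⟩ := near_above' hcz by1 h7 vz
      have := hne va hb _ _ (h.zM hσ (by1.trans g1.le) g2) g3
      linarith
    rw [hyσ] at hm vz hzM hb hYy hY0
    set σt := (2 * N - 1) * σ with hσt
    set u := min (z σ σt) X with hu
    have hux : x ≤ u := le_min vz.le h3
    have hMu : M σ u σt := slicex h hm hzM hux (min_le_left _ _)
    have huX : u ≤ X := min_le_right _ _
    obtain ⟨_, _, _, _⟩ := h.bd hMu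
    obtain ⟨_, _, w3, w4⟩ := h.bd (h.fM hσ (by assumption) (by assumption) : M σ u (f σ u))
    refine rep_mk hN ⟨hMu, h1, h2, huX, by linarith, hb.le,
      hYy.le⟩ ?_ ?_ (fun hc => absurd hc hY0) (fun _ => w4) (fun _ hc => absurd hc hY0)
      (fun _ hc => absurd hc hY0) ?_ ?_ (fun hc => hY0 hc.2.2.1)
    · intro _; exact min_le_left _ _
    · intro hc
      rcases min_choice (z σ σt) X with h9 | h9
      · rw [hu, h9]
      · rw [hu, h9] at hc; exact absurd hc (lt_irrefl _)
    · intro _ _ x' y' hm' _; exact (h.bd hm').2.2.2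
    · intro _ _ x' y' hm' _; exact (h.bd hm').2.2.2
  by_cases vb : Y - y < N * (t - 2 * σ) ∧ f σ x < y
  · -- right edge
    obtain ⟨va, vz⟩ := vb
    have hX0 : ¬ (X - x < N * (s - 2 * σ)) := by
      intro hc
      rcases bx1.lt_or_eq with h7 | h7
      · obtain ⟨x', g1, g2, g3⟩ := near_below hcf h7 bx2 vz
        have := hsw hc va _ _ (h.fM hσ g1 (g2.le.trans bx2)) g2
        linarith
      · rw [← h7] at hm vz
        have := h.lefte hm
        linarith
    have hXx : X - x = N * (s - 2 * σ) := le_antisymm h4 (not_lt.1 hX0)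
    have hb : x < X := by linarith
    have hxσ : x = (2 * N - 1) * σ := by
      by_contra hc
      have h7 : x < (2 * N - 1) * σ := lt_of_le_of_ne bx2 hc
      obtain ⟨x', g1, g2, g3⟩ := near_above hcf bx1 h7 vz
      have := hse hb va _ _ (h.fM hσ (bx1.trans g1.le) g2) g1
      linarith
    rw [hxσ] at hm vz hfM hb hXx hX0
    set σt := (2 * N - 1) * σ with hσt
    set lo := Y - N * (t - 2 * σ) with hlo
    set u := max (f σ σt) lo with hu
    have huy : u ≤ y := max_le vz.le (by rw [hlo]; linarith)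
    have hMu : M σ σt u := slicey h hfM hm (le_max_left _ _) huy
    have hlou : lo ≤ u := le_max_right _ _
    obtain ⟨_, _, _, _⟩ := h.bd hMu
    obtain ⟨w1, w2, _, _⟩ := h.bd (h.zM hσ (by assumption) (by assumption) : M σ (z σ u) u)
    refine rep_mk hN ⟨hMu, h1, h2, hb.le, hXx.le, huy.trans h5, by rw [hlo] at hlou; linarith⟩
      (fun hc => absurd hc hX0) (fun _ => w2) ?_ ?_ (fun hc => absurd hc hX0) ?_
      (fun hc => absurd hc hX0) ?_ (fun hc => hX0 hc.1)
    · intro hc
      have h7 : lo < u := by rw [hlo]; linarith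
      rcases max_choice (f σ σt) lo with h9 | h9
      · rw [hu, h9]
      · rw [hu, h9] at h7; exact absurd h7 (lt_irrefl _)
    · intro _; exact le_max_left _ _
    · intro _ _ x' y' hm' hx'
      have := (h.bd hm').2.1
      linarith
    · intro _ _ x' y' hm' hx'
      have := (h.bd hm').2.1
      linarith
  by_cases vt : y < Y ∧ y < f σ x
  · -- left edge
    obtain ⟨va, vz⟩ := vt
    have hX0 : ¬ (x < X) := by
      intro hc
      rcases bx2.lt_or_eq with h7 | h7
      · obtain ⟨x', g1, g2, g3⟩ := near_above' hcf bx1 h7 vz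
        have := hne hc va _ _ (h.fM hσ (bx1.trans g1.le) g2) g1
        linarith
      · rw [h7] at hm vz
        have := h.righte hm
        linarith
    have hXx : x = X := le_antisymm h3 (not_lt.1 hX0)
    have hb : X - x < N * (s - 2 * σ) := by rw [hXx, sub_self]; exact hsN
    have hxσ : x = σ := by
      by_contra hc
      have h7 : σ < x := lt_of_le_of_ne bx1 (Ne.symm hc)
      obtain ⟨x', g1, g2, g3⟩ := near_below' hcf h7 bx2 vz
      have := hnw hb va _ _ (h.fM hσ g1 (g2.le.trans bx2)) g2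
      linarith
    rw [hxσ] at hm vz hfM hb hXx hX0
    set u := min (f σ σ) Y with hu
    have huy : y ≤ u := le_min vz.le h5
    have hMu : M σ σ u := slicey h hm hfM huy (min_le_left _ _)
    have huY : u ≤ Y := min_le_right _ _
    obtain ⟨_, _, _, _⟩ := h.bd hMu
    obtain ⟨w1, w2, _, _⟩ := h.bd (h.zM hσ (by assumption) (by assumption) : M σ (z σ u) u)
    refine rep_mk hN ⟨hMu, h1, h2, hXx.le, hb.le, huY, by linarith⟩
      (fun _ => w1) (fun hc => absurd hc hX0) ?_ ?_ ?_ (fun hc => absurd hc hX0)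
      ?_ (fun hc => absurd hc hX0) (fun hc => hX0 hc.2.1)
    · intro _; exact min_le_left _ _
    · intro hc
      rcases min_choice (f σ σ) Y with h9 | h9
      · rw [hu, h9]
      · rw [hu, h9] at hc; exact absurd hc (lt_irrefl _)
    · intro _ _ x' y' hm' hx'
      have := (h.bd hm').1
      linarith
    · intro _ _ x' y' hm' hx'
      have := (h.bd hm').1
      linarith
  -- no violation
  exact rep_mk hN hF (fun hc => not_lt.1 fun hc' => vl ⟨hc, hc'⟩)
    (fun hc => not_lt.1 fun hc' => vr ⟨hc, hc'⟩) (fun hc => not_lt.1 fun hc' => vb ⟨hc, hc'⟩)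
    (fun hc => not_lt.1 fun hc' => vt ⟨hc, hc'⟩) hsw hse hnw hne hna

end H79KMW.LU37
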