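import Pool.Agent.Work.MP_6237c7_co.Star

set_option autoImplicit false

namespace H79KMW

open Finsupp

/-- A (generalised) bistellar flip of a fan: the faces containing `P` are replaced. -/
def flip {n : ℕ} (K : Set (Finset (Fin n → ℤ))) (P Q : Finset (Fin n → ℤ)) :
    Set (Finset (Fin n → ℤ)) :=
  {s | s ∈ K ∧ ¬ P ⊆ s} ∪ {s | ∃ t ∈ K, P ⊆ t ∧ ∃ x ∈ P, s ⊆ t.erase x ∪ Q}

/-- The condition on the link. -/
def FL {n : ℕ} (K : Set (Finset (Fin n → ℤ))) (P Q : Finset (Fin n → ℤ)) : Prop :=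
  ∀ s ∈ K, P ⊆ s → ∀ y ∈ Q, y ∉ s → s ∪ Q.erase y ∈ K

/-- The ratio `min_{x ∈ supp c} a x / c x`. -/
lemma exists_tau {n : ℕ} {c : (Fin n → ℤ) →₀ ℝ} (hc0 : ∀ x, 0 ≤ c x) (hcne : c ≠ 0)
    {a : (Fin n → ℤ) →₀ ℝ} (ha : ∀ x, 0 ≤ a x) :
    ∃ τ : ℝ, 0 ≤ τ ∧ (∀ x, τ * c x ≤ a x) ∧ ∃ x ∈ c.support, a x = τ * c x := by
  have hne : c.support.Nonempty := by
    rw [Finsupp.support_nonempty_iff]; exact hcne
  have hpos : ∀ x ∈ c.support, 0 < c x := fun x hx =>
    lt_of_le_of_ne (hc0 x) (Ne.symm (Finsupp.mem_support_iff.1 hx))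
  obtain ⟨x0, hx0, hmin⟩ := Finset.exists_min_image c.support (fun x => a x / c x) hne
  refine ⟨a x0 / c x0, div_nonneg (ha _) (hc0 _), fun x => ?_, x0, hx0, ?_⟩
  · by_cases hx : x ∈ c.support
    · have := hmin x hx
      rw [le_div_iff₀ (hpos x hx)] at this
      exact this
    · rw [Finsupp.notMem_support_iff] at hx
      rw [hx, mul_zero]; exact ha x
  · rw [div_mul_cancel₀ _ (hpos x0 hx0).ne']

section
variable {n : ℕ} {K : Set (Finset (Fin n → ℤ))} {c d : (Fin n → ℤ) →₀ ℝ}

lemma flip_void {P Q : Finset (Fin n → ℤ)} (hP : P ∉ K)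
    (hdown : ∀ s ∈ K, ∀ t : Finset (Fin n → ℤ), t ⊆ s → t ∈ K) : flip K P Q = K := by
  ext s
  constructor
  · rintro (⟨h, _⟩ | ⟨t, ht, hPt, _⟩)
    · exact h
    · exact absurd (hdown t ht _ hPt) hP
  · intro h
    exact Or.inl ⟨h, fun hs => hP (hdown s h _ hs)⟩

/-- Every weight of the flipped family vanishes somewhere on `supp c`. -/
lemma flip_zero (hdisj : Disjoint c.support d.support) {a : (Fin n → ℤ) →₀ ℝ}
    (ha : a.support ∈ flip K c.support d.support) : ∃ x ∈ c.support, a x = 0 := by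
  classical
  rcases ha with ⟨_, h⟩ | ⟨t, _, _, x, hx, hs⟩
  · rw [Finset.not_subset] at h
    obtain ⟨x, hx, hxa⟩ := h
    exact ⟨x, hx, Finsupp.notMem_support_iff.1 hxa⟩
  · refine ⟨x, hx, ?_⟩
    by_contra hne
    have h1 := hs (Finsupp.mem_support_iff.2 hne)
    rw [Finset.mem_union, Finset.mem_erase] at h1
    rcases h1 with h1 | h1
    · exact h1.1 rfl
    · exact (Finset.disjoint_left.1 hdisj hx) h1

/-- The comparison map of a flip. -/
lemma flip_back (hK : IsCx id K) (hc0 : ∀ x, 0 ≤ c x) (hd0 : ∀ x, 0 ≤ d x)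
    (hdisj : Disjoint c.support d.support) (hcne : c ≠ 0) (hcd : lc id c = lc id d)
    (hFL : FL K c.support d.support) (hP : c.support ∈ K) {a : (Fin n → ℤ) →₀ ℝ}
    (ha : a ∈ body (flip K c.support d.support)) :
    ∃ τ : ℝ, 0 ≤ τ ∧ a - τ • d + τ • c ∈ body K := by
  classical
  have hQ : d.support ∉ K := by
    intro hQ
    have h1 : c = d := hK.inj ⟨hc0, hP⟩ ⟨hd0, hQ⟩ hcd
    rw [h1, disjoint_self] at hdisj
    exact hcne (by rw [h1]; exact Finsupp.support_eq_empty.1 hdisj)
  have hdne : d ≠ 0 := by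
    intro h0
    apply hQ
    rw [h0, Finsupp.support_zero]
    exact hK.down _ hP _ (Finset.empty_subset _)
  obtain ⟨τ, hτ0, hτle, y, hy, hτy⟩ := exists_tau hd0 hdne ha.1
  have hcz : ∀ z ∈ d.support, c z = 0 := fun z hz => by
    by_contra hne
    exact (Finset.disjoint_left.1 hdisj (Finsupp.mem_support_iff.2 hne)) hz
  have happ : ∀ z, (a - τ • d + τ • c) z = a z - τ * d z + τ * c z := fun z => by
    rw [Finsupp.add_apply, Finsupp.sub_apply, Finsupp.smul_apply, Finsupp.smul_apply, smul_eq_mul,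
      smul_eq_mul]
  refine ⟨τ, hτ0, fun z => ?_, ?_⟩
  · rw [happ]
    have h1 := hτle z
    have h2 := mul_nonneg hτ0 (hc0 z)
    linarith
  · rcases ha.2 with ⟨hs, _⟩ | ⟨t, ht, hPt, x, hx, hs⟩
    · have hτ : τ = 0 := by
        have h1 : ¬ d.support ⊆ a.support := fun h => hQ (hK.down _ hs _ h)
        rw [Finset.not_subset] at h1
        obtain ⟨z, hz, hza⟩ := h1
        have h2 := hτle z
        rw [Finsupp.notMem_support_iff.1 hza] at h2
        have h3 : 0 < d z := lt_of_le_of_ne (hd0 z) (Ne.symm (Finsupp.mem_support_iff.1 hz))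
        by_contra hne
        have h4 : 0 < τ := lt_of_le_of_ne hτ0 (Ne.symm hne)
        have := mul_pos h4 h3
        linarith
      rw [hτ, zero_smul, zero_smul, sub_zero, add_zero]
      exact hs
    · have hyc : y ∉ c.support := fun h => (Finset.disjoint_left.1 hdisj h) hy
      have h1 : t.erase y ∪ d.support.erase y ∈ K := by
        refine hFL _ (hK.down t ht _ (Finset.erase_subset _ _)) ?_ y hy (Finset.notMem_erase _ _)
        intro z hz
        exact Finset.mem_erase.2 ⟨fun h => hyc (h ▸ hz), hPt hz⟩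
      refine hK.down _ h1 _ fun z hz => ?_
      have hzy : z ≠ y := by
        rintro rfl
        rw [Finsupp.mem_support_iff, happ, hτy, hcz z hy] at hz
        exact hz (by ring)
      have hzm : z ∈ t ∪ d.support := by
        by_contra hcon
        rw [Finset.mem_union, not_or] at hcon
        rw [Finsupp.mem_support_iff, happ] at hz
        have h2 : a z = 0 := by
          by_contra hne
          have h3 := hs (Finsupp.mem_support_iff.2 hne)
          rw [Finset.mem_union, Finset.mem_erase] at h3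
          rcases h3 with h3 | h3
          · exact hcon.1 h3.2
          · exact hcon.2 h3
        have h3 : d z = 0 := Finsupp.notMem_support_iff.1 hcon.2
        have h4 : c z = 0 := by
          by_contra hne
          exact hcon.1 (hPt (Finsupp.mem_support_iff.2 hne))
        rw [h2, h3, h4] at hz
        exact hz (by ring)
      rw [Finset.mem_union] at hzm ⊢
      rcases hzm with h | h
      · exact Or.inl (Finset.mem_erase.2 ⟨hzy, h⟩)
      · exact Or.inr (Finset.mem_erase.2 ⟨hzy, h⟩)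

lemma lc_move (hcd : lc id c = lc id d) (a : (Fin n → ℤ) →₀ ℝ) (τ : ℝ) :
    lc id (a - τ • d + τ • c) = lc id a := by
  rw [map_add, map_sub, map_smul, map_smul, hcd]
  abel

lemma flip_isCx (hK : IsCx id K) (hc0 : ∀ x, 0 ≤ c x) (hd0 : ∀ x, 0 ≤ d x)
    (hdisj : Disjoint c.support d.support) (hcne : c ≠ 0) (hcd : lc id c = lc id d)
    (hFL : FL K c.support d.support) : IsCx id (flip K c.support d.support) := by
  classical
  by_cases hP : c.support ∈ K
  swap
  · rw [flip_void hP hK.down]; exact hK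
  refine ⟨?_, ?_, ?_⟩
  · refine (hK.fin.union (hK.fin.biUnion (t := fun t =>
      (((t ∪ d.support).powerset : Finset (Finset (Fin n → ℤ))) : Set (Finset (Fin n → ℤ))))
      fun t _ => Finset.finite_toSet _)).subset ?_
    rintro s (⟨h, _⟩ | ⟨t, ht, _, x, _, hs⟩)
    · exact Or.inl h
    · refine Or.inr (Set.mem_biUnion ht ?_)
      rw [Finset.mem_coe, Finset.mem_powerset]
      exact hs.trans (Finset.union_subset_union (Finset.erase_subset _ _) (Finset.Subset.refl _))
  · rintro s (⟨h, h'⟩ | ⟨t, ht, hPt, x, hx, hs⟩) s' hs'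
    · exact Or.inl ⟨hK.down s h _ hs', fun hh => h' (hh.trans hs')⟩
    · exact Or.inr ⟨t, ht, hPt, x, hx, hs'.trans hs⟩
  · have key : ∀ a a' : (Fin n → ℤ) →₀ ℝ, (∀ z, 0 ≤ a' z) →
        a.support ∈ flip K c.support d.support → ∀ τ τ' : ℝ,
        a - τ • d + τ • c = a' - τ' • d + τ' • c → τ' ≤ τ := by
      intro a a' ha' ha τ τ' h
      by_contra hlt
      push Not at hlt
      obtain ⟨x, hx, hax⟩ := flip_zero hdisj ha
      have h1 := DFunLike.congr_fun h x
      rw [Finsupp.add_apply, Finsupp.sub_apply, Finsupp.smul_apply, Finsupp.smul_apply,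
        Finsupp.add_apply, Finsupp.sub_apply, Finsupp.smul_apply, Finsupp.smul_apply,
        smul_eq_mul, smul_eq_mul, smul_eq_mul, smul_eq_mul] at h1
      have h2 : d x = 0 := by
        by_contra hne
        exact (Finset.disjoint_left.1 hdisj hx) (Finsupp.mem_support_iff.2 hne)
      have h3 : 0 < c x := lt_of_le_of_ne (hc0 x) (Ne.symm (Finsupp.mem_support_iff.1 hx))
      rw [h2, hax] at h1
      have h4 := mul_pos (sub_pos.2 hlt) h3
      have h5 := ha' x
      nlinarith
    intro a ha a' ha' haa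
    obtain ⟨τ, _, hb⟩ := flip_back hK hc0 hd0 hdisj hcne hcd hFL hP ha
    obtain ⟨τ', _, hb'⟩ := flip_back hK hc0 hd0 hdisj hcne hcd hFL hP ha'
    have h1 : a - τ • d + τ • c = a' - τ' • d + τ' • c := by
      refine hK.inj hb hb' ?_
      rw [lc_move hcd, lc_move hcd]; exact haa
    have h2 : τ = τ' := le_antisymm (key a' a ha.1 ha'.2 τ' τ h1.symm) (key a a' ha'.1 ha.2 τ τ' h1)
    rw [h2] at h1
    have h3 := add_right_cancel h1
    exact sub_left_injective h3

lemma flip_supp (hK : IsCx id K) (hc0 : ∀ x, 0 ≤ c x) (hd0 : ∀ x, 0 ≤ d x)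
    (hdisj : Disjoint c.support d.support) (hcne : c ≠ 0) (hcd : lc id c = lc id d)
    (hFL : FL K c.support d.support) : supp id (flip K c.support d.support) = supp id K := by
  classical
  by_cases hP : c.support ∈ K
  swap
  · rw [flip_void hP hK.down]
  ext y
  constructor
  · rintro ⟨a, ha, rfl⟩
    obtain ⟨τ, _, hb⟩ := flip_back hK hc0 hd0 hdisj hcne hcd hFL hP ha
    exact ⟨_, hb, lc_move hcd a τ⟩
  · rintro ⟨b, hb, rfl⟩
    by_cases hPb : c.support ⊆ b.support
    swap
    · exact ⟨b, ⟨hb.1, Or.inl ⟨hb.2, hPb⟩⟩, rfl⟩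
    obtain ⟨τ, hτ0, hτle, x, hx, hτx⟩ := exists_tau hc0 hcne hb.1
    have happ : ∀ z, (b - τ • c + τ • d) z = b z - τ * c z + τ * d z := fun z => by
      rw [Finsupp.add_apply, Finsupp.sub_apply, Finsupp.smul_apply, Finsupp.smul_apply, smul_eq_mul,
        smul_eq_mul]
    refine ⟨b - τ • c + τ • d, ⟨fun z => ?_, Or.inr ⟨b.support, hb.2, hPb, x, hx, ?_⟩⟩,
      lc_move hcd.symm b τ⟩
    · rw [happ]
      have h1 := hτle z
      have h2 := mul_nonneg hτ0 (hd0 z)
      linarith
    · intro z hz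
      rw [Finset.mem_union, Finset.mem_erase]
      by_cases hzd : z ∈ d.support
      · exact Or.inr hzd
      · left
        have h3 : d z = 0 := Finsupp.notMem_support_iff.1 hzd
        rw [Finsupp.mem_support_iff, happ, h3, mul_zero, add_zero] at hz
        refine ⟨?_, ?_⟩
        · rintro rfl
          exact hz (by rw [hτx]; ring)
        · by_contra hzb
          have h4 : b z = 0 := Finsupp.notMem_support_iff.1 hzb
          have h5 : c z = 0 := by
            by_contra hne
            exact hzb (hPb (Finsupp.mem_support_iff.2 hne))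
          rw [h4, h5] at hz
          exact hz (by ring)

end

end H79KMW
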