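import Pool.Agent.Work.MP_6237c7_co.Round

set_option autoImplicit false

namespace H79KMW

open Finsupp

/-- Vertices of the weighted simplex. -/
def wv (d L : ℕ) (j : Fin (d + 1)) : Fin (d + 1) → ℤ :=
  fun k => if k = 0 then 1 else if k = j then ((L / ((j : ℕ) + 1) : ℕ) : ℤ) else 0

/-- The weighted sum away from the first coordinate. -/
def ws {d : ℕ} (y : Fin (d + 1) → ℝ) : ℝ :=
  ∑ k : Fin (d + 1), if k = 0 then 0 else (((k : ℕ) : ℝ) + 1) * y k

/-- The weighted cone. -/
def wcone (d : ℕ) (J : ℝ) : Set (Fin (d + 1) → ℝ) :=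
  {y | (∀ k, k ≠ 0 → 0 ≤ y k) ∧ ws y ≤ J * y 0}

lemma asc_wcone (d : ℕ) (J J' : ℝ) : asc J (wcone d J') = wcone d (J' * J) := by
  ext y
  have hws : ws (fun k : Fin (d + 1) => if k = 0 then J * y 0 else y k) = ws y := by
    unfold ws
    refine Finset.sum_congr rfl fun k _ => ?_
    by_cases hk : k = 0
    · simp [hk]
    · simp [hk]
  constructor
  · rintro ⟨h1, h2⟩
    rw [hws] at h2
    refine ⟨fun k hk => ?_, ?_⟩
    · have := h1 k hk
      simpa [hk] using this
    · simp only [if_true] at h2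
      rw [mul_assoc]; exact h2
  · rintro ⟨h1, h2⟩
    refine ⟨fun k hk => ?_, ?_⟩
    · simpa [hk] using h1 k hk
    · rw [hws]
      simp only [if_true]
      rw [← mul_assoc]; exact h2

section start
variable {d L : ℕ}

lemma lc_wv_ne (w : Fin (d + 1) →₀ ℝ) {k : Fin (d + 1)} (hk : k ≠ 0) :
    lc (wv d L) w k = w k * ((L / ((k : ℕ) + 1) : ℕ) : ℝ) := by
  rw [lc_apply_of_subset w Finset.univ (Finset.subset_univ _), Finset.sum_eq_single k]
  · simp only [wv, if_neg hk, if_true, Int.cast_natCast]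
  · intro j _ hj
    simp only [wv, if_neg hk, if_neg (Ne.symm hj)]
    simp
  · intro hcon; exact absurd (Finset.mem_univ _) hcon

lemma lc_wv_zero (w : Fin (d + 1) →₀ ℝ) : lc (wv d L) w 0 = ∑ j, w j := by
  rw [lc_apply_of_subset w Finset.univ (Finset.subset_univ _)]
  exact Finset.sum_congr rfl fun j _ => by simp [wv]

lemma div_mul_R (hL : ∀ j : Fin (d + 1), ((j : ℕ) + 1) ∣ L) (k : Fin (d + 1)) :
    (((k : ℕ) : ℝ) + 1) * ((L / ((k : ℕ) + 1) : ℕ) : ℝ) = L := by
  have h1 : ((k : ℕ) + 1) * (L / ((k : ℕ) + 1)) = L := Nat.mul_div_cancel' (hL k)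
  have h2 : ((((k : ℕ) + 1) * (L / ((k : ℕ) + 1)) : ℕ) : ℝ) = (L : ℝ) := by rw [h1]
  push_cast at h2
  exact h2

lemma start_isCx (hL0 : 0 < L) (hL : ∀ j : Fin (d + 1), ((j : ℕ) + 1) ∣ L) :
    IsCx (wv d L) (Set.univ : Set (Finset (Fin (d + 1)))) := by
  refine ⟨Set.finite_univ, fun _ _ _ _ => Set.mem_univ _, ?_⟩
  intro w _ w' _ hww
  have hL0R : (0:ℝ) < L := by exact_mod_cast hL0
  have h1 : ∀ k, k ≠ 0 → w k = w' k := by
    intro k hk
    have h2 := congrFun hww k
    rw [lc_wv_ne w hk, lc_wv_ne w' hk] at h2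
    refine mul_right_cancel₀ ?_ h2
    intro h0
    have h3 := div_mul_R hL k
    rw [h0, mul_zero] at h3
    linarith
  ext k
  by_cases hk : k = 0
  · subst hk
    have h2 := congrFun hww 0
    rw [lc_wv_zero, lc_wv_zero, ← Finset.add_sum_erase _ _ (Finset.mem_univ (0 : Fin (d + 1))),
      ← Finset.add_sum_erase _ (fun j => w' j) (Finset.mem_univ (0 : Fin (d + 1)))] at h2
    have h3 : ∑ x ∈ Finset.univ.erase (0 : Fin (d + 1)), w x =
        ∑ x ∈ Finset.univ.erase (0 : Fin (d + 1)), w' x :=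
      Finset.sum_congr rfl fun x hx => h1 x (Finset.ne_of_mem_erase hx)
    rw [h3] at h2
    exact add_right_cancel h2
  · exact h1 k hk

lemma start_supp (hL0 : 0 < L) (hL : ∀ j : Fin (d + 1), ((j : ℕ) + 1) ∣ L) :
    supp (wv d L) (Set.univ : Set (Finset (Fin (d + 1)))) = wcone d L := by
  classical
  have hL0R : (0:ℝ) < L := by exact_mod_cast hL0
  ext y
  constructor
  · rintro ⟨w, hw, rfl⟩
    refine ⟨fun k hk => ?_, ?_⟩
    · rw [lc_wv_ne w hk]
      exact mul_nonneg (hw.1 k) (Nat.cast_nonneg _)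
    · rw [lc_wv_zero, Finset.mul_sum]
      unfold ws
      refine Finset.sum_le_sum fun k _ => ?_
      by_cases hk : k = 0
      · rw [if_pos hk]
        exact mul_nonneg hL0R.le (hw.1 k)
      · rw [if_neg hk, lc_wv_ne w hk]
        have := div_mul_R hL k
        have h2 : (((k : ℕ) : ℝ) + 1) * (w k * ((L / ((k : ℕ) + 1) : ℕ) : ℝ)) = L * w k := by
          rw [← this]; ring
        rw [h2]
  · rintro ⟨h1, h2⟩
    let w : Fin (d + 1) →₀ ℝ := Finsupp.equivFunOnFinite.symm fun k =>
      if k = 0 then y 0 - ws y / L else (((k : ℕ) : ℝ) + 1) * y k / L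
    have hw : ∀ k, w k = if k = 0 then y 0 - ws y / L else (((k : ℕ) : ℝ) + 1) * y k / L :=
      fun k => rfl
    refine ⟨w, ⟨fun k => ?_, Set.mem_univ _⟩, ?_⟩
    · rw [hw]
      by_cases hk : k = 0
      · rw [if_pos hk, sub_nonneg, div_le_iff₀ hL0R]
        linarith
      · rw [if_neg hk]
        have := h1 k hk
        positivity
    · funext k
      by_cases hk : k = 0
      · subst hk
        rw [lc_wv_zero, ← Finset.add_sum_erase _ _ (Finset.mem_univ (0 : Fin (d + 1))), hw,
          if_pos rfl]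
        have h3 : ∑ x ∈ Finset.univ.erase (0 : Fin (d + 1)), w x = ws y / L := by
          unfold ws
          rw [Finset.sum_div, ← Finset.add_sum_erase Finset.univ
            (fun k : Fin (d + 1) => (if k = 0 then 0 else (((k : ℕ) : ℝ) + 1) * y k) / L)
            (Finset.mem_univ (0 : Fin (d + 1)))]
          simp only [if_true, zero_div, zero_add]
          refine Finset.sum_congr rfl fun x hx => ?_
          rw [hw, if_neg (Finset.ne_of_mem_erase hx), if_neg (Finset.ne_of_mem_erase hx)]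
        rw [h3]; ring
      · rw [lc_wv_ne w hk, hw, if_neg hk]
        have h3 := div_mul_R hL k
        rw [div_mul_eq_mul_div, div_eq_iff hL0R.ne']
        have h4 : (((k : ℕ) : ℝ) + 1) * y k * ((L / ((k : ℕ) + 1) : ℕ) : ℝ) =
            y k * ((((k : ℕ) : ℝ) + 1) * ((L / ((k : ℕ) + 1) : ℕ) : ℝ)) := by ring
        rw [h4, h3]

end start

section phi

/-- Change of coordinates. -/
def phl {d : ℕ} (J : ℕ) (x : Fin (d + 1) → ℤ) : Fin (d + 1) → ℤ :=
  fun k => if k = 0 then J * x 0 - ∑ i : Fin (d + 1), (if i = 0 then 0 else (((i : ℕ) : ℤ) + 1) * x i)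
    else x k

variable {d J : ℕ}

lemma lc_phl_ne (w : (Fin (d + 1) → ℤ) →₀ ℝ) {k : Fin (d + 1)} (hk : k ≠ 0) :
    lc (phl J) w k = lc id w k := by
  rw [lc_apply, lc_apply, Finsupp.sum, Finsupp.sum]
  exact Finset.sum_congr rfl fun x _ => by simp [phl, hk]

lemma lc_phl_zero (w : (Fin (d + 1) → ℤ) →₀ ℝ) :
    lc (phl J) w 0 = J * lc id w 0 - ws (lc id w) := by
  have h1 : ws (lc id w) = ∑ x ∈ w.support, w x *
      ∑ i : Fin (d + 1), (if i = 0 then 0 else (((i : ℕ) : ℝ) + 1) * (x i : ℝ)) := by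
    unfold ws
    simp_rw [Finset.mul_sum]
    rw [Finset.sum_comm]
    refine Finset.sum_congr rfl fun i _ => ?_
    by_cases hi : i = 0
    · simp [hi]
    · simp only [if_neg hi]
      rw [lc_apply, Finsupp.sum, Finset.mul_sum]
      refine Finset.sum_congr rfl fun x _ => ?_
      simp only [id]
      ring
  rw [h1, lc_apply, lc_apply, Finsupp.sum, Finsupp.sum, Finset.mul_sum, ← Finset.sum_sub_distrib]
  refine Finset.sum_congr rfl fun x _ => ?_
  simp only [phl, if_true, id]
  push_cast
  ring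

lemma phl_isCx (hJ : 0 < J) {K : Set (Finset (Fin (d + 1) → ℤ))} (hK : IsCx id K) :
    IsCx (phl J) K := by
  refine ⟨hK.fin, hK.down, ?_⟩
  intro w hw w' hw' hww
  refine hK.inj hw hw' ?_
  have h1 : ∀ k, k ≠ 0 → lc id w k = lc id w' k := by
    intro k hk
    rw [← lc_phl_ne (J := J) w hk, ← lc_phl_ne (J := J) w' hk, hww]
  have hws : ws (lc id w) = ws (lc id w') := by
    unfold ws
    refine Finset.sum_congr rfl fun k _ => ?_
    by_cases hk : k = 0
    · simp [hk]
    · simp only [if_neg hk, h1 k hk]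
  funext k
  by_cases hk : k = 0
  · subst hk
    have h2 := congrFun hww 0
    rw [lc_phl_zero, lc_phl_zero, hws] at h2
    have hJR : (J : ℝ) ≠ 0 := by exact_mod_cast hJ.ne'
    exact mul_left_cancel₀ hJR (by linarith)
  · exact h1 k hk

lemma wcone_convex (d : ℕ) (J : ℝ) : Convex ℝ (wcone d J) := by
  intro x hx y hy a b ha hb _
  refine ⟨fun k hk => ?_, ?_⟩
  · have h1 := hx.1 k hk
    have h2 := hy.1 k hk
    show 0 ≤ a * x k + b * y k
    positivity
  · have h1 := hx.2
    have h2 := hy.2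
    have h3 : ws (a • x + b • y) = a * ws x + b * ws y := by
      unfold ws
      rw [Finset.mul_sum, Finset.mul_sum, ← Finset.sum_add_distrib]
      refine Finset.sum_congr rfl fun k _ => ?_
      by_cases hk : k = 0
      · simp [hk]
      · simp only [if_neg hk, Pi.add_apply, Pi.smul_apply, smul_eq_mul]
        ring
    rw [h3]
    show a * ws x + b * ws y ≤ J * (a * x 0 + b * y 0)
    nlinarith

lemma wcone_interior (d : ℕ) {J : ℝ} (hJ : 0 < J) : (interior (wcone d J)).Nonempty := by
  have hopen : IsOpen {y : Fin (d + 1) → ℝ | (∀ k, k ≠ 0 → 0 < y k) ∧ ws y < J * y 0} := by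
    have h1 : IsOpen {y : Fin (d + 1) → ℝ | ∀ k, k ≠ 0 → 0 < y k} := by
      have : {y : Fin (d + 1) → ℝ | ∀ k, k ≠ 0 → 0 < y k} =
          ⋂ k : Fin (d + 1), ⋂ _ : k ≠ 0, {y | 0 < y k} := by
        ext y; simp
      rw [this]
      exact isOpen_iInter_of_finite fun k => isOpen_iInter_of_finite fun _ =>
        isOpen_lt continuous_const (continuous_apply k)
    have h2 : IsOpen {y : Fin (d + 1) → ℝ | ws y < J * y 0} := by
      have hc2 : Continuous fun y : Fin (d + 1) → ℝ => J * y 0 := by fun_prop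
      refine isOpen_lt ?_ hc2
      unfold ws
      refine continuous_finsetSum _ fun k _ => ?_
      by_cases hk : k = 0
      · simp only [if_pos hk]; exact continuous_const
      · simp only [if_neg hk]
        exact (continuous_apply k).const_mul _
    exact h1.inter h2
  let y0 : Fin (d + 1) → ℝ := fun k => if k = 0 then (ws (d := d) (fun _ => 1) + 1) / J else 1
  have hws : ws y0 = ws (d := d) (fun _ => 1) := by
    unfold ws
    refine Finset.sum_congr rfl fun k _ => ?_
    by_cases hk : k = 0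
    · simp [hk]
    · simp [y0, hk]
  refine ⟨y0, mem_interior.2 ⟨_, ?_, hopen, ?_, ?_⟩⟩
  · intro y hy
    exact ⟨fun k hk => (hy.1 k hk).le, hy.2.le⟩
  · intro k hk
    simp [y0, hk]
  · rw [hws]
    simp only [y0, if_true]
    rw [mul_div_cancel₀ _ hJ.ne']
    linarith

/-- A full unimodular face spans the lattice. -/
lemma int_span {n : ℕ} {K : Set (Finset (Fin n → ℤ))} (hK : IsCx id K) (hMB : MB K 1)
    {F : Finset (Fin n → ℤ)} (hF : F ∈ K) (hcard : F.card = n) (x : Fin n → ℤ) :
    ∃ (f : Fin n → Fin n → ℤ) (c : Fin n → ℤ), (∀ k, f k ∈ F) ∧ ∀ j, x j = ∑ k, c k * f k j := by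
  classical
  let e : F ≃ Fin n := F.equivFinOfCardEq hcard
  let f : Fin n → Fin n → ℤ := fun k => (e.symm k : Fin n → ℤ)
  have hf : ∀ k, f k ∈ F := fun k => (e.symm k).2
  have hli : LinearIndependent ℝ (fun k => rv (f k)) :=
    (hK.linInd hF).comp e.symm e.symm.injective
  have hunit : IsUnit ((Matrix.of f).map (Int.castRingHom ℝ)) := by
    rw [← Matrix.linearIndependent_rows_iff_isUnit]
    exact hli
  have hdet0 : dt f ≠ 0 := by
    intro h0
    rw [Matrix.isUnit_iff_isUnit_det, isUnit_iff_ne_zero] at hunit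
    apply hunit
    have h1 := RingHom.map_det (Int.castRingHom ℝ) (Matrix.of f)
    rw [RingHom.mapMatrix_apply] at h1
    rw [← h1]
    show ((dt f : ℤ) : ℝ) = 0
    rw [h0, Int.cast_zero]
  have hdet1 : |dt f| ≤ 1 := by
    have h1 := hMB F hF f hf
    rw [← Int.cast_abs] at h1
    exact_mod_cast h1
  have hsq : dt f * dt f = 1 := by
    have h2 := abs_le.1 hdet1
    have h3 : dt f = 1 ∨ dt f = -1 := by omega
    rcases h3 with h3 | h3 <;> rw [h3] <;> norm_num
  let c : Fin n → ℤ := (dt f) • Matrix.vecMul x (Matrix.adjugate (Matrix.of f))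
  have hc : Matrix.vecMul c (Matrix.of f) = x := by
    show Matrix.vecMul ((dt f) • Matrix.vecMul x (Matrix.adjugate (Matrix.of f))) (Matrix.of f) = x
    rw [Matrix.smul_vecMul, Matrix.vecMul_vecMul, Matrix.adjugate_mul]
    rw [Matrix.vecMul_smul, Matrix.vecMul_one, smul_smul]
    show (dt f * dt f) • x = x
    rw [hsq, one_smul]
  refine ⟨f, c, hf, fun j => ?_⟩
  have h4 := congrFun hc j
  rw [Matrix.vecMul, dotProduct] at h4
  exact h4.symm

/-- Base data from the round property. -/
lemma base_step {J0 : ℕ} (hR : RoundProp d J0) :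
    ∃ (J : ℕ) (T : Set (Finset (Fin (d + 1) → ℤ))), 0 < J ∧ Base J T := by
  classical
  let L : ℕ := Nat.factorial (d + 1)
  have hL0 : 0 < L := Nat.factorial_pos _
  have hL : ∀ j : Fin (d + 1), ((j : ℕ) + 1) ∣ L := fun j =>
    Nat.dvd_factorial (Nat.succ_pos _) (by have := j.2; omega)
  have hS := start_isCx hL0 hL
  have hK0 := push_isCx hS
  have hlv0 : Lv (push (wv d L) Set.univ) := by
    rintro s ⟨F, _, hs⟩ x hx
    have : x ∈ (s : Set (Fin (d + 1) → ℤ)) := Finset.mem_coe.2 hx
    rw [hs] at this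
    obtain ⟨j, _, rfl⟩ := this
    simp [wv]
  obtain ⟨V, _, hMB0⟩ := exists_MB hK0
  obtain ⟨R, hRV⟩ := exists_pow_le d V
  obtain ⟨K, hK, hlv, hMB, hsupp⟩ := iter_round hR hK0 hlv0 hMB0 R
  rw [max_eq_left hRV] at hMB
  rw [supp_push hS, start_supp hL0 hL, asc_wcone] at hsupp
  let J : ℕ := L * J0 ^ R
  have hJ : 0 < J := Nat.mul_pos hL0 (pow_pos hR.1 R)
  have hsupp' : supp id K = wcone d (J : ℝ) := by
    rw [hsupp]
    congr 1
    show (L : ℝ) * ((J0 ^ R : ℕ) : ℝ) = ((L * J0 ^ R : ℕ) : ℝ)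
    push_cast
    ring
  have hJR : (0:ℝ) < J := by exact_mod_cast hJ
  have hP := phl_isCx hJ hK
  have hvert : ∀ F ∈ K, ∀ x ∈ F, rv x ∈ wcone d (J : ℝ) := by
    intro F hF x hx
    rw [← hsupp']
    refine ⟨single x 1, ⟨?_, ?_⟩, ?_⟩
    · intro z; rw [Finsupp.single_apply]; split_ifs <;> norm_num
    · rw [Finsupp.support_single _ one_ne_zero]
      exact hK.down F hF _ (by simpa using hx)
    · rw [lc_single, one_smul]; rfl
  refine ⟨J, push (phl J) K, hJ, push_isCx hP, ?_, ?_, ?_, ?_⟩
  · rintro B ⟨F, hF, hB⟩ b hb j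
    have : b ∈ (B : Set (Fin (d + 1) → ℤ)) := Finset.mem_coe.2 hb
    rw [hB] at this
    obtain ⟨x, hx, rfl⟩ := this
    obtain ⟨h1, h2⟩ := hvert F hF x hx
    by_cases hj : j = 0
    · subst hj
      simp only [phl, if_true]
      have h3 : ((∑ i : Fin (d + 1), (if i = 0 then 0 else (((i : ℕ) : ℤ) + 1) * x i) : ℤ) : ℝ) ≤
          ((J * x 0 : ℤ) : ℝ) := by
        push_cast
        exact h2
      have h4 : (∑ i : Fin (d + 1), (if i = 0 then 0 else (((i : ℕ) : ℤ) + 1) * x i)) ≤
          (J * x 0 : ℤ) := by exact_mod_cast h3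
      linarith
    · simp only [phl, if_neg hj]
      have := h1 j hj
      have h5 : (0:ℝ) ≤ ((x j : ℤ) : ℝ) := this
      exact_mod_cast h5
  · rintro B ⟨F, hF, hB⟩ b hb
    have : b ∈ (B : Set (Fin (d + 1) → ℤ)) := Finset.mem_coe.2 hb
    rw [hB] at this
    obtain ⟨x, hx, rfl⟩ := this
    have hx0 : x 0 = 1 := hlv F hF x hx
    rw [← Finset.add_sum_erase _ _ (Finset.mem_univ (0 : Fin (d + 1)))]
    have h1 : ∑ j ∈ Finset.univ.erase (0 : Fin (d + 1)), (((j : ℕ) : ℤ) + 1) * phl J x j =
        ∑ i : Fin (d + 1), (if i = 0 then 0 else (((i : ℕ) : ℤ) + 1) * x i) := by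
      rw [← Finset.add_sum_erase Finset.univ
        (fun i : Fin (d + 1) => if i = 0 then 0 else (((i : ℕ) : ℤ) + 1) * x i)
        (Finset.mem_univ (0 : Fin (d + 1)))]
      simp only [if_true, zero_add]
      refine Finset.sum_congr rfl fun j hj => ?_
      rw [if_neg (Finset.ne_of_mem_erase hj)]
      simp only [phl, if_neg (Finset.ne_of_mem_erase hj)]
    rw [h1]
    simp only [phl, if_true, hx0, Fin.val_zero]
    push_cast
    ring
  · intro y hy
    rw [supp_push hP]
    let z : Fin (d + 1) → ℝ := fun k => if k = 0 then (y 0 + ws y) / J else y k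
    have hwsz : ws z = ws y := by
      unfold ws
      refine Finset.sum_congr rfl fun k _ => ?_
      by_cases hk : k = 0
      · simp [hk]
      · simp [z, hk]
    have hz : z ∈ wcone d (J : ℝ) := by
      refine ⟨fun k hk => ?_, ?_⟩
      · simp only [z, if_neg hk]; exact hy k
      · rw [hwsz]
        simp only [z, if_true]
        rw [mul_div_cancel₀ _ hJR.ne']
        have := hy 0
        linarith
    rw [← hsupp'] at hz
    obtain ⟨w, hw, hwz⟩ := hz
    refine ⟨w, hw, ?_⟩
    funext k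
    by_cases hk : k = 0
    · subst hk
      rw [lc_phl_zero, hwz, hwsz]
      simp only [z, if_true]
      rw [mul_div_cancel₀ _ hJR.ne']
      ring
    · rw [lc_phl_ne _ hk, hwz]
      simp only [z, if_neg hk]
  · rintro B ⟨F, hF, hB⟩
    obtain ⟨F', hF', hFF', hcard⟩ := purity hK (by rw [hsupp']; exact wcone_convex d J)
      (by rw [hsupp']; exact wcone_interior d hJR) hF
    refine ⟨F'.image (phl J), ⟨F', hF', by rw [Finset.coe_image]⟩, ?_, ?_⟩
    · intro b hb
      have : b ∈ (B : Set (Fin (d + 1) → ℤ)) := Finset.mem_coe.2 hb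
      rw [hB] at this
      obtain ⟨x, hx, rfl⟩ := this
      exact Finset.mem_image_of_mem _ (hFF' hx)
    · rintro z ⟨t, ht⟩
      let x : Fin (d + 1) → ℤ := fun k => if k = 0 then t else z k
      have hxz : phl J x = z := by
        funext k
        by_cases hk : k = 0
        · subst hk
          simp only [phl, if_true, x]
          rw [← Finset.add_sum_erase _ _ (Finset.mem_univ (0 : Fin (d + 1)))] at ht
          rw [← ht, ← Finset.add_sum_erase Finset.univ
            (fun i : Fin (d + 1) => if i = 0 then 0 else (((i : ℕ) : ℤ) + 1) *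
              (if i = 0 then t else z i)) (Finset.mem_univ (0 : Fin (d + 1)))]
          simp only [if_true, zero_add, Fin.val_zero]
          have h1 : ∑ x ∈ Finset.univ.erase (0 : Fin (d + 1)), (if x = 0 then 0 else
              (((x : ℕ) : ℤ) + 1) * (if x = 0 then t else z x)) =
              ∑ x ∈ Finset.univ.erase (0 : Fin (d + 1)), (((x : ℕ) : ℤ) + 1) * z x :=
            Finset.sum_congr rfl fun i hi => by
              rw [if_neg (Finset.ne_of_mem_erase hi), if_neg (Finset.ne_of_mem_erase hi)]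
          rw [h1]
          push_cast
          ring
        · simp only [phl, if_neg hk, x]
      obtain ⟨f, c, hf, hx⟩ := int_span hK hMB hF' hcard x
      refine ⟨fun b => ∑ k, if phl J (f k) = b then c k else 0, fun j => ?_⟩
      have hphi : ∀ j, phl J x j = ∑ k, c k * phl J (f k) j := by
        intro j
        by_cases hj : j = 0
        · subst hj
          simp only [phl, if_true]
          have h1 : ∑ i : Fin (d + 1), (if i = 0 then 0 else (((i : ℕ) : ℤ) + 1) * x i) =
              ∑ k, c k * ∑ i : Fin (d + 1), (if i = 0 then 0 else (((i : ℕ) : ℤ) + 1) * f k i) := by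
            simp_rw [Finset.mul_sum]
            rw [Finset.sum_comm]
            refine Finset.sum_congr rfl fun i _ => ?_
            by_cases hi : i = 0
            · simp [hi]
            · simp only [if_neg hi]
              rw [hx i, Finset.mul_sum]
              exact Finset.sum_congr rfl fun k _ => by ring
          rw [h1, hx 0, Finset.mul_sum, ← Finset.sum_sub_distrib]
          exact Finset.sum_congr rfl fun k _ => by ring
        · simp only [phl, if_neg hj]
          exact hx j
      rw [← hxz, hphi j]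
      simp_rw [Finset.sum_mul]
      rw [Finset.sum_comm]
      refine Finset.sum_congr rfl fun k _ => ?_
      rw [Finset.sum_eq_single (phl J (f k))]
      · rw [if_pos rfl]
      · intro b _ hb
        rw [if_neg (Ne.symm hb), zero_mul]
      · intro hcon
        exact absurd (Finset.mem_image_of_mem _ (hf k)) hcon

/-- The round property in every dimension. -/
theorem roundProp_all : ∀ d : ℕ, ∃ J : ℕ, RoundProp d J := by
  intro d
  induction d with
  | zero => exact ⟨1, roundProp_zero⟩
  | succ d ih =>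
    obtain ⟨J0, hJ0⟩ := ih
    obtain ⟨J, T, hJ, hT⟩ := base_step hJ0
    refine ⟨J, hJ, fun K hK hlv V hV hMB => ?_⟩
    exact round_of_base (Nat.succ_pos d) hJ hT hK hlv (le_trans zero_le_one hV) hMB

end phi

end H79KMW
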