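import Mathlib

set_option autoImplicit false

namespace H79KMW

open Finsupp

/-- An integer vector as a real vector. -/
def rv {n : ℕ} (x : Fin n → ℤ) : Fin n → ℝ := fun i => (x i : ℝ)

/-- Real combinations of labelled integer vectors. -/
noncomputable def lc {β : Type*} {n : ℕ} (r : β → Fin n → ℤ) : (β →₀ ℝ) →ₗ[ℝ] (Fin n → ℝ) :=
  Finsupp.linearCombination ℝ (fun x => rv (r x))

/-- The nonnegative weights carried by a face. -/
def body {β : Type*} (K : Set (Finset β)) : Set (β →₀ ℝ) :=
  {w | (∀ x, 0 ≤ w x) ∧ w.support ∈ K}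

/-- A finite simplicial fan with labelled integer rays. -/
structure IsCx {β : Type*} {n : ℕ} (r : β → Fin n → ℤ) (K : Set (Finset β)) : Prop where
  fin : K.Finite
  down : ∀ s ∈ K, ∀ t : Finset β, t ⊆ s → t ∈ K
  inj : Set.InjOn (lc r) (body K)

/-- The support of a fan. -/
def supp {β : Type*} {n : ℕ} (r : β → Fin n → ℤ) (K : Set (Finset β)) : Set (Fin n → ℝ) :=
  lc r '' body K

section
variable {β : Type*} {n : ℕ} {r : β → Fin n → ℤ} {K : Set (Finset β)}

lemma lc_single (x : β) (c : ℝ) : lc r (single x c) = c • rv (r x) := by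
  simp [lc]

lemma lc_apply (w : β →₀ ℝ) (i : Fin n) : lc r w i = w.sum (fun x c => c * (r x i : ℝ)) := by
  rw [lc, Finsupp.linearCombination_apply, Finsupp.sum, Finset.sum_apply]
  rfl

lemma lc_apply_of_subset (w : β →₀ ℝ) (s : Finset β) (h : w.support ⊆ s) (i : Fin n) :
    lc r w i = ∑ x ∈ s, w x * (r x i : ℝ) := by
  rw [lc_apply, Finsupp.sum_of_support_subset _ h]
  intro x _; simp

lemma supp_add_subset (w w' : β →₀ ℝ) (s : Finset β) (h : w.support ⊆ s)
    (h' : w'.support ⊆ s) : (w + w').support ⊆ s := by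
  classical
  exact (Finsupp.support_add).trans (Finset.union_subset h h')

lemma supp_smul_subset (c : ℝ) (w : β →₀ ℝ) (s : Finset β) (h : w.support ⊆ s) :
    (c • w).support ⊆ s :=
  (Finsupp.support_smul).trans h

lemma supp_sub_subset (w w' : β →₀ ℝ) (s : Finset β) (h : w.support ⊆ s)
    (h' : w'.support ⊆ s) : (w - w').support ⊆ s := by
  classical
  exact (Finsupp.support_sub).trans (Finset.union_subset h h')

/-- The positive part of a weight. -/
noncomputable def pos (w : β →₀ ℝ) : β →₀ ℝ := w.mapRange (fun c => max c 0) (by simp)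

lemma pos_apply (w : β →₀ ℝ) (x : β) : pos w x = max (w x) 0 := rfl

lemma pos_nonneg (w : β →₀ ℝ) (x : β) : 0 ≤ pos w x := by
  rw [pos_apply]; exact le_max_right _ _

lemma pos_support (w : β →₀ ℝ) : (pos w).support ⊆ w.support :=
  Finsupp.support_mapRange

lemma pos_sub_pos_neg (w : β →₀ ℝ) : pos w - pos (-w) = w := by
  ext x
  rw [Finsupp.sub_apply, pos_apply, pos_apply, Finsupp.neg_apply]
  rcases le_total (w x) 0 with h | h
  · rw [max_eq_right h, max_eq_left (by linarith)]; ring
  · rw [max_eq_left h, max_eq_right (by linarith)]; ring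

/-- Faces are linearly independent. -/
lemma IsCx.indep (hK : IsCx r K) {s : Finset β} (hs : s ∈ K) (w : β →₀ ℝ)
    (hw : w.support ⊆ s) (h0 : lc r w = 0) : w = 0 := by
  have h1 : lc r (pos w) = lc r (pos (-w)) := by
    have := congrArg (lc r) (pos_sub_pos_neg w)
    rw [map_sub, h0] at this
    exact sub_eq_zero.1 this
  have h2 : pos w = pos (-w) := by
    refine hK.inj ⟨pos_nonneg w, hK.down s hs _ ((pos_support w).trans hw)⟩
      ⟨pos_nonneg _, hK.down s hs _ ((pos_support (-w)).trans ?_)⟩ h1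
    rw [Finsupp.support_neg]; exact hw
  rw [← pos_sub_pos_neg w, h2, sub_self]

lemma IsCx.indep' (hK : IsCx r K) {s : Finset β} (hs : s ∈ K) (w w' : β →₀ ℝ)
    (hw : w.support ⊆ s) (hw' : w'.support ⊆ s) (h0 : lc r w = lc r w') : w = w' := by
  have := hK.indep hs (w - w') (supp_sub_subset w w' s hw hw') (by rw [map_sub, h0, sub_self])
  exact sub_eq_zero.1 this

lemma IsCx.linInd (hK : IsCx r K) {s : Finset β} (hs : s ∈ K) :
    LinearIndependent ℝ (fun x : s => rv (r x)) := by
  classical
  rw [linearIndependent_iff]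
  intro l hl
  -- push forward
  have h1 : lc r (l.mapDomain (fun x : s => (x : β))) = 0 := by
    rw [lc, Finsupp.linearCombination_mapDomain]
    exact hl
  have h2 := hK.indep hs _ (by
    refine (Finsupp.mapDomain_support).trans ?_
    intro x hx
    rw [Finset.mem_image] at hx
    obtain ⟨y, _, rfl⟩ := hx
    exact y.2) h1
  have hinj : Function.Injective (fun x : s => (x : β)) := Subtype.val_injective
  have h3 : l.mapDomain (fun x : s => (x : β)) = (0 : s →₀ ℝ).mapDomain (fun x : s => (x : β)) := by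
    rw [h2, Finsupp.mapDomain_zero]
  exact Finsupp.mapDomain_injective hinj h3

lemma IsCx.card_le (hK : IsCx r K) {s : Finset β} (hs : s ∈ K) : s.card ≤ n := by
  have := (hK.linInd hs).fintype_card_le_finrank
  simpa using this

/-- labels of vertices are injective -/
lemma IsCx.inj_vert (hK : IsCx r K) {x y : β} (hx : {x} ∈ K) (hy : {y} ∈ K) (h : r x = r y) :
    x = y := by
  classical
  have h1 : lc r (single x 1) = lc r (single y 1) := by rw [lc_single, lc_single, h]
  have h2 : single x (1:ℝ) = single y 1 := by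
    refine hK.inj ⟨?_, ?_⟩ ⟨?_, ?_⟩ h1
    · intro z; rw [Finsupp.single_apply]; split_ifs <;> norm_num
    · rw [Finsupp.support_single _ one_ne_zero]; exact hx
    · intro z; rw [Finsupp.single_apply]; split_ifs <;> norm_num
    · rw [Finsupp.support_single _ one_ne_zero]; exact hy
  exact Finsupp.single_left_injective one_ne_zero h2

lemma body_smul (hK : IsCx r K) {w : β →₀ ℝ} (hw : w ∈ body K) {c : ℝ} (hc : 0 ≤ c) :
    c • w ∈ body K :=
  ⟨fun x => by rw [Finsupp.smul_apply]; exact mul_nonneg hc (hw.1 x),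
    hK.down _ hw.2 _ Finsupp.support_smul⟩

lemma supp_smul_mem (hK : IsCx r K) {y : Fin n → ℝ} (hy : y ∈ supp r K) {c : ℝ} (hc : 0 ≤ c) :
    c • y ∈ supp r K := by
  obtain ⟨w, hw, rfl⟩ := hy
  exact ⟨c • w, body_smul hK hw hc, map_smul _ _ _⟩

/-- Closedness of one cone. -/
lemma IsCx.isClosed_cone (hK : IsCx r K) {s : Finset β} (hs : s ∈ K) :
    IsClosed {y | ∃ w : β →₀ ℝ, (∀ x, 0 ≤ w x) ∧ w.support ⊆ s ∧ lc r w = y} := by
  classical
  -- the linear map from s → ℝ
  let L : (s → ℝ) →ₗ[ℝ] (Fin n → ℝ) :=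
    Fintype.linearCombination ℝ (fun x : s => rv (r x))
  have hLapp : ∀ v : s → ℝ, L v = ∑ x : s, v x • rv (r x) := fun v =>
    Fintype.linearCombination_apply ℝ (fun x : s => rv (r x)) v
  have hLinj : Function.Injective L := by
    rw [← LinearMap.ker_eq_bot, LinearMap.ker_eq_bot']
    intro v hv
    have := (Fintype.linearIndependent_iff.1 (hK.linInd hs)) v (by rw [← hLapp]; exact hv)
    funext x; exact this x
  have hemb := LinearMap.isClosedEmbedding_of_injective (f := L) (LinearMap.ker_eq_bot.2 hLinj)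
  have himg : {y | ∃ w : β →₀ ℝ, (∀ x, 0 ≤ w x) ∧ w.support ⊆ s ∧ lc r w = y} =
      L '' {v | ∀ x, 0 ≤ v x} := by
    ext y
    constructor
    · rintro ⟨w, hw0, hws, rfl⟩
      refine ⟨fun x => w x, fun x => hw0 x, ?_⟩
      rw [hLapp]
      funext i
      rw [lc_apply_of_subset w s hws i, Finset.sum_apply, ← Finset.sum_coe_sort s]
      rfl
    · rintro ⟨v, hv, rfl⟩
      refine ⟨∑ x : s, single (x : β) (v x), ?_, ?_, ?_⟩
      · intro z
        rw [Finsupp.finsetSum_apply]
        refine Finset.sum_nonneg fun x _ => ?_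
        rw [Finsupp.single_apply]
        split_ifs
        · exact hv x
        · exact le_rfl
      · refine (Finsupp.support_finsetSum).trans ?_
        intro z hz
        rw [Finset.mem_biUnion] at hz
        obtain ⟨x, _, hx⟩ := hz
        have := Finsupp.support_single_subset hx
        rw [Finset.mem_singleton] at this
        rw [this]; exact x.2
      · rw [map_sum, hLapp]
        exact Finset.sum_congr rfl fun x _ => lc_single _ _
  rw [himg]
  refine hemb.isClosedMap _ ?_
  have : {v : s → ℝ | ∀ x, 0 ≤ v x} = ⋂ x, {v | 0 ≤ v x} := by ext v; simp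
  rw [this]
  exact isClosed_iInter fun x => isClosed_le continuous_const (continuous_apply x)

lemma supp_eq_iUnion (hK : IsCx r K) : supp r K = ⋃ s ∈ K,
    {y | ∃ w : β →₀ ℝ, (∀ x, 0 ≤ w x) ∧ w.support ⊆ s ∧ lc r w = y} := by
  ext y
  rw [Set.mem_iUnion₂]
  constructor
  · rintro ⟨w, hw, rfl⟩
    exact ⟨w.support, hw.2, w, hw.1, Finset.Subset.refl _, rfl⟩
  · rintro ⟨s, hs, w, hw0, hws, rfl⟩
    exact ⟨w, ⟨hw0, hK.down s hs _ hws⟩, rfl⟩

lemma IsCx.isClosed_supp (hK : IsCx r K) : IsClosed (supp r K) := by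
  rw [supp_eq_iUnion hK]
  exact hK.fin.isClosed_biUnion fun s hs => hK.isClosed_cone hs

end

section push
variable {β : Type*} {n : ℕ} {r : β → Fin n → ℤ} {K : Set (Finset β)}

/-- Images of faces under the labels. -/
def push (r : β → Fin n → ℤ) (K : Set (Finset β)) : Set (Finset (Fin n → ℤ)) :=
  {s | ∃ F ∈ K, (s : Set (Fin n → ℤ)) = r '' (F : Set β)}

lemma push_body (hK : IsCx r K) {a : (Fin n → ℤ) →₀ ℝ} (ha : a ∈ body (push r K)) :
    ∃ w ∈ body K, w.mapDomain r = a ∧ lc r w = lc id a := by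
  classical
  obtain ⟨ha0, F, hF, hs⟩ := ha
  have hinj : Set.InjOn r (F : Set β) := by
    intro x hx y hy h
    exact hK.inj_vert (hK.down F hF _ (by simpa using hx)) (hK.down F hF _ (by simpa using hy)) h
  let w : β →₀ ℝ := ∑ x ∈ F, single x (a (r x))
  have hmap : w.mapDomain r = a := by
    have h1 : w.mapDomain r = ∑ x ∈ F, single (r x) (a (r x)) := by
      rw [show w.mapDomain r = Finsupp.mapDomain.addMonoidHom r w from rfl, map_sum]
      refine Finset.sum_congr rfl fun x _ => ?_
      exact Finsupp.mapDomain_single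
    have h2 : ∑ x ∈ F, single (r x) (a (r x)) = ∑ y ∈ F.image r, single y (a y) := by
      rw [Finset.sum_image hinj]
    have h3 : F.image r = a.support := by
      apply Finset.coe_injective
      rw [Finset.coe_image, hs]
    rw [h1, h2, h3]
    exact Finsupp.sum_single a
  refine ⟨w, ⟨?_, ?_⟩, hmap, ?_⟩
  · intro z
    rw [Finsupp.finsetSum_apply]
    refine Finset.sum_nonneg fun x _ => ?_
    rw [Finsupp.single_apply]
    split_ifs
    · exact ha0 _
    · exact le_rfl
  · refine hK.down F hF _ ((Finsupp.support_finsetSum).trans ?_)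
    intro z hz
    rw [Finset.mem_biUnion] at hz
    obtain ⟨x, hx, hx'⟩ := hz
    have := Finsupp.support_single_subset hx'
    rw [Finset.mem_singleton] at this
    rw [this]; exact hx
  · rw [← hmap, lc, lc, Finsupp.linearCombination_mapDomain]
    rfl

lemma body_push (hK : IsCx r K) {w : β →₀ ℝ} (hw : w ∈ body K) :
    w.mapDomain r ∈ body (push r K) ∧ lc r w = lc id (w.mapDomain r) := by
  classical
  have hinj : Set.InjOn r (w.support : Set β) := by
    intro x hx y hy h
    exact hK.inj_vert (hK.down _ hw.2 _ (by simpa using hx)) (hK.down _ hw.2 _ (by simpa using hy)) h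
  have hsupp : (w.mapDomain r).support = w.support.image r :=
    Finsupp.mapDomain_support_of_injOn w hinj
  refine ⟨⟨?_, w.support, hw.2, ?_⟩, ?_⟩
  · intro z
    rw [Finsupp.mapDomain, Finsupp.sum, Finsupp.finsetSum_apply]
    refine Finset.sum_nonneg fun x _ => ?_
    rw [Finsupp.single_apply]
    split_ifs
    · exact hw.1 _
    · exact le_rfl
  · rw [hsupp, Finset.coe_image]
  · rw [lc, lc, Finsupp.linearCombination_mapDomain]
    rfl

lemma push_isCx (hK : IsCx r K) : IsCx id (push r K) := by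
  classical
  refine ⟨?_, ?_, ?_⟩
  · refine (hK.fin.image (fun F => F.image r)).subset ?_
    rintro s ⟨F, hF, hs⟩
    refine ⟨F, hF, ?_⟩
    apply Finset.coe_injective
    simp only [Finset.coe_image]
    exact hs.symm
  · rintro s ⟨F, hF, hs⟩ t hts
    refine ⟨F.filter (fun x => r x ∈ t), hK.down F hF _ (Finset.filter_subset _ _), ?_⟩
    ext y
    constructor
    · intro hy
      have : y ∈ (s : Set (Fin n → ℤ)) := by
        have := hts (Finset.mem_coe.1 hy)
        exact Finset.mem_coe.2 this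
      rw [hs] at this
      obtain ⟨x, hx, rfl⟩ := this
      exact ⟨x, by rw [Finset.coe_filter]; exact ⟨hx, hy⟩, rfl⟩
    · rintro ⟨x, hx, rfl⟩
      rw [Finset.coe_filter] at hx
      exact hx.2
  · intro a ha b hb hab
    obtain ⟨w, hw, hwa, hwl⟩ := push_body hK ha
    obtain ⟨w', hw', hwb, hwl'⟩ := push_body hK hb
    have : w = w' := hK.inj hw hw' (by rw [hwl, hwl', hab])
    rw [← hwa, ← hwb, this]

lemma supp_push (hK : IsCx r K) : supp id (push r K) = supp r K := by
  ext y
  constructor
  · rintro ⟨a, ha, rfl⟩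
    obtain ⟨w, hw, _, hwl⟩ := push_body hK ha
    exact ⟨w, hw, hwl⟩
  · rintro ⟨w, hw, rfl⟩
    obtain ⟨h1, h2⟩ := body_push hK hw
    exact ⟨_, h1, h2.symm⟩

end push

end H79KMW
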