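import Pool.Agent.Work.MP_6237c7_co.Star

set_option autoImplicit false

namespace H79KMW

open Finsupp

lemma bad_card {n p : ℕ} [Fact p.Prime] (hn : 0 < n) (c : ZMod p) :
    2 * n * ((Finset.univ.filter (fun u : ZMod p => (2 * n - 1) * p < 2 * n * (u * c).val)).card)
      < p := by
  classical
  have hp : 0 < p := (Fact.out : p.Prime).pos
  by_cases hc : c = 0
  · have : (Finset.univ.filter (fun u : ZMod p => (2 * n - 1) * p < 2 * n * (u * c).val)) = ∅ := by
      apply Finset.filter_eq_empty_iff.2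
      intro u _
      rw [hc, mul_zero, ZMod.val_zero, mul_zero]
      exact Nat.not_lt_zero _
    rw [this, Finset.card_empty, mul_zero]; exact hp
  · have h1 : (Finset.univ.filter
        (fun u : ZMod p => (2 * n - 1) * p < 2 * n * (u * c).val)).card ≤
        (Finset.Icc 1 ((p - 1) / (2 * n))).card := by
      refine Finset.card_le_card_of_injOn (fun u => p - (u * c).val) ?_ ?_
      · intro u hu
        have hu' := (Finset.mem_filter.1 (Finset.mem_coe.1 hu)).2
        have hlt : (u * c).val < p := ZMod.val_lt _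
        have h2 : 2 * n * (p - (u * c).val) < p := by
          rw [Nat.mul_sub]
          have h3 : (2 * n - 1) * p + p = 2 * n * p := by
            obtain ⟨k, hk⟩ : ∃ k, 2 * n = k + 1 := ⟨2 * n - 1, by omega⟩
            rw [hk]; simp; ring
          have h4 : 2 * n * (u * c).val ≤ 2 * n * p := Nat.mul_le_mul_left _ hlt.le
          omega
        rw [Finset.mem_coe, Finset.mem_Icc]
        refine ⟨?_, ?_⟩
        · show 1 ≤ p - (u * c).val
          omega
        · rw [Nat.le_div_iff_mul_le (by omega), mul_comm]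
          show 2 * n * (p - (u * c).val) ≤ p - 1
          omega
      · intro u _ v _ huv
        have hu : (u * c).val < p := ZMod.val_lt _
        have hv : (v * c).val < p := ZMod.val_lt _
        have h2 : (u * c).val = (v * c).val := by
          simp only at huv
          omega
        have h3 : u * c = v * c := ZMod.val_injective p h2
        exact mul_right_cancel₀ hc h3
    rw [Nat.card_Icc, Nat.add_sub_cancel] at h1
    have h2 : 2 * n * ((p - 1) / (2 * n)) ≤ p - 1 := Nat.mul_div_le _ _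
    have h3 : 2 * n * ((Finset.univ.filter
        (fun u : ZMod p => (2 * n - 1) * p < 2 * n * (u * c).val)).card) ≤
        2 * n * ((p - 1) / (2 * n)) := Nat.mul_le_mul_left _ h1
    omega

lemma exists_class {n : ℕ} (f : Fin n → Fin n → ℤ) (h : 2 ≤ |dt f|) :
    ∃ (lam : Fin n → ℝ) (m : Fin n → ℤ), (∀ i, 0 ≤ lam i ∧ lam i ≤ 1 - 1 / (2 * (n : ℝ))) ∧
      (∃ i, lam i ≠ 0) ∧ ∀ j, ∑ i, lam i * (f i j : ℝ) = m j := by
  classical
  have h1 : (dt f).natAbs ≠ 1 := by
    intro h1
    have : |dt f| = 1 := by rw [Int.abs_eq_natAbs, h1]; rfl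
    omega
  obtain ⟨p, hp, hpd⟩ := Nat.exists_prime_and_dvd h1
  have : Fact p.Prime := ⟨hp⟩
  have hdet : ((Matrix.of f).map (Int.castRingHom (ZMod p))).det = 0 := by
    have := RingHom.map_det (Int.castRingHom (ZMod p)) (Matrix.of f)
    rw [RingHom.mapMatrix_apply] at this
    rw [← this]
    show ((dt f : ℤ) : ZMod p) = 0
    rw [ZMod.intCast_zmod_eq_zero_iff_dvd]
    exact Int.natCast_dvd.2 hpd
  obtain ⟨t, ht0, ht⟩ := Matrix.exists_vecMul_eq_zero_iff.2 hdet
  obtain ⟨i1, hi1⟩ : ∃ i, t i ≠ 0 := by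
    by_contra hcon
    push Not at hcon
    exact ht0 (funext hcon)
  have hn : 0 < n := Fin.pos i1
  -- choose the multiplier
  obtain ⟨u, hu0, hu⟩ : ∃ u : ZMod p, u ≠ 0 ∧ ∀ i, 2 * n * (u * t i).val ≤ (2 * n - 1) * p := by
    by_contra hcon
    push Not at hcon
    have hsub : (Finset.univ.erase (0 : ZMod p)) ⊆ Finset.univ.biUnion (fun i : Fin n =>
        Finset.univ.filter (fun u : ZMod p => (2 * n - 1) * p < 2 * n * (u * t i).val)) := by
      intro u hu
      rw [Finset.mem_erase] at hu
      obtain ⟨i, hi⟩ := hcon u hu.1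
      rw [Finset.mem_biUnion]
      exact ⟨i, Finset.mem_univ _, Finset.mem_filter.2 ⟨Finset.mem_univ _, hi⟩⟩
    have hc := (Finset.card_le_card hsub).trans Finset.card_biUnion_le
    rw [Finset.card_erase_of_mem (Finset.mem_univ _), Finset.card_univ, ZMod.card] at hc
    have h2 : 2 * n * ∑ i : Fin n, (Finset.univ.filter
        (fun u : ZMod p => (2 * n - 1) * p < 2 * n * (u * t i).val)).card < n * p := by
      rw [Finset.mul_sum]
      have : ∑ i : Fin n, 2 * n * (Finset.univ.filter
        (fun u : ZMod p => (2 * n - 1) * p < 2 * n * (u * t i).val)).card < ∑ i : Fin n, p := by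
        refine Finset.sum_lt_sum_of_nonempty ⟨i1, Finset.mem_univ _⟩ fun i _ => bad_card hn (t i)
      rwa [Finset.sum_const, Finset.card_univ, Fintype.card_fin, smul_eq_mul] at this
    have h3 : 2 * ∑ i : Fin n, (Finset.univ.filter
        (fun u : ZMod p => (2 * n - 1) * p < 2 * n * (u * t i).val)).card < p := by
      refine Nat.lt_of_mul_lt_mul_left (a := n) ?_
      calc _ = 2 * n * ∑ i : Fin n, (Finset.univ.filter
        (fun u : ZMod p => (2 * n - 1) * p < 2 * n * (u * t i).val)).card := by ring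
        _ < n * p := h2
    have h4 := hp.two_le
    omega
  have hpR : (0:ℝ) < p := by exact_mod_cast hp.pos
  have hdiv : ∀ j, ∃ q : ℤ, ∑ i, ((u * t i).val : ℤ) * f i j = p * q := by
    intro j
    have : (p : ℤ) ∣ ∑ i, ((u * t i).val : ℤ) * f i j := by
      rw [← ZMod.intCast_zmod_eq_zero_iff_dvd]
      push_cast
      have h5 : ∑ i, ((u * t i : ZMod p)) * (f i j : ZMod p) = 0 := by
        have h6 := congrFun ht j
        rw [Matrix.vecMul, dotProduct] at h6
        simp only [Matrix.map_apply, Matrix.of_apply, Pi.zero_apply, eq_intCast] at h6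
        calc ∑ i, ((u * t i : ZMod p)) * (f i j : ZMod p)
            = u * ∑ i, t i * (f i j : ZMod p) := by
              rw [Finset.mul_sum]; exact Finset.sum_congr rfl fun i _ => by ring
          _ = 0 := by rw [h6, mul_zero]
      calc ∑ i, (((u * t i).val : ℕ) : ZMod p) * (f i j : ZMod p)
          = ∑ i, ((u * t i : ZMod p)) * (f i j : ZMod p) :=
            Finset.sum_congr rfl fun i _ => by rw [ZMod.natCast_zmod_val]
        _ = 0 := h5
    exact this
  choose m hm using hdiv
  refine ⟨fun i => ((u * t i).val : ℝ) / p, m, fun i => ⟨by positivity, ?_⟩, ⟨i1, ?_⟩, fun j => ?_⟩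
  · rw [div_le_iff₀ hpR]
    have h7 := hu i
    have hnR : (0:ℝ) < n := by exact_mod_cast hn
    have h8 : (2 * (n:ℝ)) * ((u * t i).val : ℝ) ≤ (2 * n - 1) * p := by
      have : ((2 * n * (u * t i).val : ℕ) : ℝ) ≤ (((2 * n - 1) * p : ℕ) : ℝ) := by exact_mod_cast h7
      rw [Nat.cast_mul, Nat.cast_mul, Nat.cast_mul, Nat.cast_sub (by omega)] at this
      push_cast at this
      exact this
    have h9 : (1 - 1 / (2 * (n:ℝ))) * p = ((2 * n - 1) * p) / (2 * n) := by
      field_simp
    rw [h9, le_div_iff₀ (by positivity)]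
    linarith
  · have h10 : (u * t i1).val ≠ 0 := by
      intro h
      rw [ZMod.val_eq_zero] at h
      exact (mul_ne_zero hu0 hi1) h
    have : ((u * t i1).val : ℝ) ≠ 0 := by exact_mod_cast h10
    exact div_ne_zero this hpR.ne'
  · have h11 : (∑ i, ((u * t i).val : ℝ) * (f i j : ℝ)) = p * (m j : ℝ) := by
      exact_mod_cast hm j
    calc ∑ i, ((u * t i).val : ℝ) / p * (f i j : ℝ)
        = (∑ i, ((u * t i).val : ℝ) * (f i j : ℝ)) / p := by
          rw [Finset.sum_div]; exact Finset.sum_congr rfl fun i _ => by ring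
      _ = m j := by rw [h11]; field_simp

/-- The class as a weight. -/
lemma exists_class' {n : ℕ} (f : Fin n → Fin n → ℤ) (h : 2 ≤ |dt f|) :
    ∃ l : (Fin n → ℤ) →₀ ℝ, (∀ x, 0 ≤ l x) ∧ (∀ x, l x ≤ 1 - 1 / (2 * (n : ℝ))) ∧ l ≠ 0 ∧
      (∃ m, lc id l = rv m) ∧ (l.support : Set (Fin n → ℤ)) ⊆ Set.range f := by
  classical
  have hinj : Function.Injective f := by
    by_contra hf
    rw [dt_eq_zero hf] at h
    norm_num at h
  obtain ⟨lam, m, h1, ⟨i1, h2⟩, h3⟩ := exists_class f h
  have hn : 0 < n := Fin.pos i1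
  have hθ : (0:ℝ) ≤ 1 - 1 / (2 * (n : ℝ)) := by
    exact (h1 i1).1.trans (h1 i1).2
  let l0 : Fin n →₀ ℝ := Finsupp.equivFunOnFinite.symm lam
  let l : (Fin n → ℤ) →₀ ℝ := l0.mapDomain f
  have hval : ∀ i, l (f i) = lam i := fun i => Finsupp.mapDomain_apply hinj _ _
  have hnot : ∀ x, x ∉ Set.range f → l x = 0 := fun x hx => Finsupp.mapDomain_of_notMem_range _ _ hx
  refine ⟨l, fun x => ?_, fun x => ?_, ?_, ⟨m, ?_⟩, ?_⟩
  · by_cases hx : x ∈ Set.range f
    · obtain ⟨i, rfl⟩ := hx; rw [hval]; exact (h1 i).1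
    · rw [hnot x hx]
  · by_cases hx : x ∈ Set.range f
    · obtain ⟨i, rfl⟩ := hx; rw [hval]; exact (h1 i).2
    · rw [hnot x hx]; exact hθ
  · intro h0
    apply h2
    rw [← hval, h0]; rfl
  · have : lc id l = lc f l0 := by
      rw [lc, lc, Finsupp.linearCombination_mapDomain]
      rfl
    rw [this]
    funext j
    rw [lc_apply_of_subset l0 Finset.univ (Finset.subset_univ _) j]
    exact h3 j
  · intro x hx
    by_contra hcon
    exact (Finsupp.mem_support_iff.1 (Finset.mem_coe.1 hx)) (hnot x hcon)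

end H79KMW
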