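import Pool.Agent.Work.MP_6237c7_co.Sorted

set_option autoImplicit false

namespace H79KMW

open Finsupp

section cols
variable {M : ℕ}

/-- Slots of one group. -/
def slots (n : Fin M → ℕ) : Finset (ℕ ×ₗ Fin M) :=
  ((Finset.univ : Finset (Fin M)).sigma (fun u => Finset.range (n u))).image
    (fun p => toLex (p.2, p.1))

lemma mem_slots {n : Fin M → ℕ} {ℓ : ℕ} {u : Fin M} : toLex (ℓ, u) ∈ slots n ↔ ℓ < n u := by
  unfold slots
  rw [Finset.mem_image]
  constructor
  · rintro ⟨⟨u', ℓ'⟩, hp, he⟩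
    rw [Finset.mem_sigma, Finset.mem_range] at hp
    have h1 := toLex.injective he
    simp only [Prod.mk.injEq] at h1
    obtain ⟨h2, h3⟩ := h1
    subst h2; subst h3
    exact hp.2
  · intro h
    exact ⟨⟨u, ℓ⟩, by rw [Finset.mem_sigma, Finset.mem_range]; exact ⟨Finset.mem_univ _, h⟩, rfl⟩

lemma slots_filter_card (n : Fin M → ℕ) (P : ℕ ×ₗ Fin M → Prop) [DecidablePred P] :
    ((slots n).filter P).card =
      ∑ u, ((Finset.range (n u)).filter (fun ℓ => P (toLex (ℓ, u)))).card := by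
  classical
  unfold slots
  rw [Finset.filter_image, Finset.card_image_of_injective]
  · rw [show ∑ u, ((Finset.range (n u)).filter (fun ℓ => P (toLex (ℓ, u)))).card =
      (Finset.univ.sigma (fun u => (Finset.range (n u)).filter (fun ℓ => P (toLex (ℓ, u))))).card
      from (Finset.card_sigma _ _).symm]
    congr 1
    ext ⟨u, ℓ⟩
    simp only [Finset.mem_filter, Finset.mem_sigma, Finset.mem_univ, true_and]
  · rintro ⟨u, ℓ⟩ ⟨u', ℓ'⟩ h
    have h1 := toLex.injective h
    simp only [Prod.mk.injEq] at h1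
    obtain ⟨h2, h3⟩ := h1
    subst h2; subst h3
    rfl

lemma slots_card (n : Fin M → ℕ) : (slots n).card = ∑ u, n u := by
  have := slots_filter_card n (fun _ => True)
  simpa using this

end cols

section build
variable {N g M : ℕ} {h : Fin N → Fin g}

/-- One column. -/
def colv (h : Fin N → Fin g) (n : Fin M → Fin g → ℕ) (f : Fin g → ℕ ×ₗ Fin M → Fin N) (u : Fin M) :
    Fin N → ℕ :=
  fun i => ((Finset.range (n u (h i))).filter (fun ℓ => f (h i) (toLex (ℓ, u)) = i)).card

variable {n : Fin M → Fin g → ℕ} {f : Fin g → ℕ ×ₗ Fin M → Fin N}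

lemma grp_colv (hf1 : ∀ j u ℓ, ℓ < n u j → h (f j (toLex (ℓ, u))) = j) (u : Fin M) (j : Fin g) :
    grp h (colv h n f u) j = n u j := by
  classical
  have h1 : (Finset.range (n u j)).card =
      ∑ i ∈ Finset.univ.filter (fun i => h i = j),
        ((Finset.range (n u j)).filter (fun ℓ => f j (toLex (ℓ, u)) = i)).card := by
    refine Finset.card_eq_sum_card_fiberwise fun ℓ hℓ => ?_
    rw [Finset.mem_coe, Finset.mem_filter]
    exact ⟨Finset.mem_univ _, hf1 j u ℓ (Finset.mem_range.1 (Finset.mem_coe.1 hℓ))⟩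
  unfold grp
  rw [Finset.card_range] at h1
  rw [h1, ← Finset.sum_filter]
  push_cast
  refine Finset.sum_congr rfl fun i hi => ?_
  rw [Finset.mem_filter] at hi
  unfold colv
  rw [hi.2]

lemma ps_colv (hf1 : ∀ j u ℓ, ℓ < n u j → h (f j (toLex (ℓ, u))) = j) (u : Fin M) (i : Fin N) :
    ps h (colv h n f u) i =
      ((Finset.range (n u (h i))).filter (fun ℓ => f (h i) (toLex (ℓ, u)) ≤ i)).card := by
  classical
  have h1 : ((Finset.range (n u (h i))).filter (fun ℓ => f (h i) (toLex (ℓ, u)) ≤ i)).card =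
      ∑ i' ∈ Finset.univ.filter (fun i' => i' ≤ i ∧ h i' = h i),
        ((Finset.range (n u (h i))).filter (fun ℓ => f (h i) (toLex (ℓ, u)) = i')).card := by
    rw [Finset.card_eq_sum_card_fiberwise (f := fun ℓ => f (h i) (toLex (ℓ, u)))
      (t := Finset.univ.filter (fun i' => i' ≤ i ∧ h i' = h i))]
    · refine Finset.sum_congr rfl fun i' hi' => ?_
      rw [Finset.mem_filter] at hi'
      congr 1
      ext ℓ
      simp only [Finset.mem_filter, Finset.mem_range]
      constructor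
      · rintro ⟨⟨h2, h3⟩, h4⟩
        exact ⟨h2, h4⟩
      · rintro ⟨h2, h4⟩
        exact ⟨⟨h2, h4.le.trans hi'.2.1⟩, h4⟩
    · intro ℓ hℓ
      rw [Finset.mem_coe, Finset.mem_filter, Finset.mem_range] at hℓ
      rw [Finset.mem_coe, Finset.mem_filter]
      exact ⟨Finset.mem_univ _, hℓ.2, hf1 _ u ℓ hℓ.1⟩
  unfold ps
  rw [h1, ← Finset.sum_filter]
  push_cast
  refine Finset.sum_congr rfl fun i' hi' => ?_
  rw [Finset.mem_filter] at hi'
  unfold colv
  rw [hi'.2.2]

variable (hf2 : ∀ j u ℓ u' ℓ', ℓ < n u j → ℓ' < n u' j → toLex (ℓ, u) ≤ toLex (ℓ', u') →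
    f j (toLex (ℓ, u)) ≤ f j (toLex (ℓ', u')))

include hf2 in
lemma cnt_lt (u : Fin M) (i : Fin N) (j : Fin g) {ℓ : ℕ}
    (hℓ : ℓ < ((Finset.range (n u j)).filter (fun ℓ => f j (toLex (ℓ, u)) ≤ i)).card) :
    ℓ < n u j ∧ f j (toLex (ℓ, u)) ≤ i := by
  have h0 : ℓ < n u j := by
    refine hℓ.trans_le ((Finset.card_filter_le _ _).trans ?_)
    rw [Finset.card_range]
  refine ⟨h0, ?_⟩
  by_contra hcon
  push Not at hcon
  have h1 : (Finset.range (n u j)).filter (fun ℓ => f j (toLex (ℓ, u)) ≤ i) ⊆ Finset.range ℓ := by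
    intro ℓ' hℓ'
    rw [Finset.mem_filter, Finset.mem_range] at hℓ'
    rw [Finset.mem_range]
    by_contra h2
    push Not at h2
    have h3 : toLex (ℓ, u) ≤ toLex (ℓ', u) := by
      rw [Prod.Lex.toLex_le_toLex]
      rcases h2.lt_or_eq with h4 | h4
      · exact Or.inl h4
      · exact Or.inr ⟨h4, le_rfl⟩
    have := hf2 j u ℓ u ℓ' h0 hℓ'.1 h3
    exact absurd (this.trans hℓ'.2) (not_le.2 hcon)
  have h2 := Finset.card_le_card h1
  rw [Finset.card_range] at h2
  omega

lemma le_cnt (u : Fin M) (i : Fin N) (j : Fin g) {k : ℕ} (hk : k ≤ n u j)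
    (hall : ∀ ℓ < k, f j (toLex (ℓ, u)) ≤ i) :
    k ≤ ((Finset.range (n u j)).filter (fun ℓ => f j (toLex (ℓ, u)) ≤ i)).card := by
  have h1 : Finset.range k ⊆ (Finset.range (n u j)).filter (fun ℓ => f j (toLex (ℓ, u)) ≤ i) := by
    intro ℓ hℓ
    rw [Finset.mem_range] at hℓ
    rw [Finset.mem_filter, Finset.mem_range]
    exact ⟨hℓ.trans_le hk, hall ℓ hℓ⟩
  have h2 := Finset.card_le_card h1
  rwa [Finset.card_range] at h2

include hf2 in
lemma rel_colv (hf1 : ∀ j u ℓ, ℓ < n u j → h (f j (toLex (ℓ, u))) = j) {u u' : Fin M}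
    (huu : u < u') : rel h (colv h n f u) (colv h n f u') := by
  intro i
  rw [ps_colv hf1, ps_colv hf1, grp_colv hf1, grp_colv hf1]
  set c := ((Finset.range (n u (h i))).filter (fun ℓ => f (h i) (toLex (ℓ, u)) ≤ i)).card with hc
  set c' := ((Finset.range (n u' (h i))).filter (fun ℓ => f (h i) (toLex (ℓ, u')) ≤ i)).card with hc'
  constructor
  · by_contra hcon
    push Not at hcon
    rw [lt_min_iff] at hcon
    obtain ⟨h1, h2⟩ := hcon
    have h1' : c < n u (h i) := by exact_mod_cast h1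
    have h2' : c < c' := by exact_mod_cast h2
    have h3 : c + 1 ≤ c := by
      refine le_cnt u i (h i) h1' fun ℓ hℓ => ?_
      have h4 := cnt_lt hf2 u' i (h i) (ℓ := ℓ) (by omega)
      refine (hf2 (h i) u ℓ u' ℓ (by omega) h4.1 ?_).trans h4.2
      rw [Prod.Lex.toLex_le_toLex]
      exact Or.inr ⟨rfl, huu.le⟩
    omega
  · by_contra hcon
    push Not at hcon
    rw [lt_min_iff] at hcon
    obtain ⟨h1, h2⟩ := hcon
    have h1' : c' < n u' (h i) := by exact_mod_cast h1
    have h2' : c' + 1 < c := by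
      have : (c' : ℤ) + 1 < c := by linarith
      exact_mod_cast this
    have h3 : c' + 1 ≤ c' := by
      refine le_cnt u' i (h i) h1' fun ℓ hℓ => ?_
      have h4 := cnt_lt hf2 u i (h i) (ℓ := ℓ + 1) (by omega)
      refine (hf2 (h i) u' ℓ u (ℓ + 1) (by omega) h4.1 ?_).trans h4.2
      rw [Prod.Lex.toLex_le_toLex]
      left
      exact Nat.lt_succ_self ℓ
    omega

lemma rel_refl (Y : Fin N → ℕ) : rel h Y Y := fun i =>
  ⟨min_le_right _ _, (min_le_right _ _).trans (by linarith)⟩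

lemma rel_eq {Y Y' : Fin N → ℕ} (hr : rel h Y' Y) (hg : grp h Y = grp h Y')
    (ht : tot h Y' ≤ tot h Y) : Y = Y' := by
  have h1 : ∀ i, ps h Y i ≤ ps h Y' i := by
    intro i
    have h2 := (hr i).1
    rw [← hg, min_eq_right (ps_le_grp h Y i)] at h2
    exact h2
  have h3 : ∀ i ∈ (Finset.univ : Finset (Fin N)), ps h Y i = ps h Y' i := by
    have h4 : tot h Y = tot h Y' := le_antisymm (Finset.sum_le_sum fun i _ => h1 i) ht
    exact (Finset.sum_eq_sum_iff_of_le fun i _ => h1 i).1 h4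
  exact ps_inj h fun i => h3 i (Finset.mem_univ i)

end build

section exist
variable {N g : ℕ} {h : Fin N → Fin g} {T : Set (Finset (Fin g → ℤ))}

/-- The columns: a sorted enumeration with multiplicities. -/
lemma exists_cols (B : Finset (Fin g → ℤ)) (β : (Fin g → ℤ) → ℕ) :
    ∃ (M : ℕ) (col : Fin M → Fin g → ℤ), (∀ u, col u ∈ B) ∧
      (∀ u u', u ≤ u' → rk (col u) ≤ rk (col u')) ∧
      ∀ φ : (Fin g → ℤ) → ℤ, ∑ u, φ (col u) = ∑ b ∈ B, (β b : ℤ) * φ b := by
  classical
  let inv : ℕ → (Fin g → ℤ) := Function.invFun rk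
  have hinv : ∀ b : Fin g → ℤ, inv (rk b) = b := Function.leftInverse_invFun rk_inj
  let M : ℕ := ∑ b ∈ B, β b
  have hsum : ∑ c ∈ B.image rk, β (inv c) = (Finset.univ : Finset (Fin M)).card := by
    rw [Finset.sum_image (fun x _ y _ hxy => rk_inj hxy), Finset.card_univ, Fintype.card_fin]
    exact Finset.sum_congr rfl fun b _ => by rw [hinv]
  obtain ⟨f, hf1, hf2, hf3⟩ := exists_lab (B.image rk) (fun c => β (inv c))
    (Finset.univ : Finset (Fin M)) hsum
  have hrk : ∀ u, inv (f u) ∈ B ∧ rk (inv (f u)) = f u := by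
    intro u
    have h1 := hf1 u (Finset.mem_univ u)
    rw [Finset.mem_image] at h1
    obtain ⟨b, hb, hbf⟩ := h1
    rw [← hbf, hinv]
    exact ⟨hb, rfl⟩
  refine ⟨M, fun u => inv (f u), fun u => (hrk u).1, ?_, ?_⟩
  · intro u u' huu
    rw [(hrk u).2, (hrk u').2]
    exact hf2 u (Finset.mem_univ _) u' (Finset.mem_univ _) huu
  · intro φ
    rw [← Finset.sum_fiberwise_of_maps_to (s := Finset.univ) (t := B) (g := fun u => inv (f u))
      (fun u _ => (hrk u).1)]
    refine Finset.sum_congr rfl fun b hb => ?_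
    have h1 : Finset.univ.filter (fun u => inv (f u) = b) =
        Finset.univ.filter (fun u => f u = rk b) := by
      ext u
      simp only [Finset.mem_filter, Finset.mem_univ, true_and]
      constructor
      · intro h2; rw [← h2, (hrk u).2]
      · intro h2; rw [h2, hinv]
    have h2 := hf3 (rk b) (Finset.mem_image_of_mem _ hb)
    rw [hinv] at h2
    rw [Finset.sum_congr rfl (g := fun _ => φ b) (fun u hu => by
      show φ (inv (f u)) = φ b
      rw [(Finset.mem_filter.1 hu).2]), Finset.sum_const, h1, h2, nsmul_eq_mul]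

lemma srt_exists {J : ℕ} (hT : Base J T) {B : Finset (Fin g → ℤ)} (hB : B ∈ T)
    (β : (Fin g → ℤ) → ℕ) (y : Fin N → ℕ)
    (hy : ∀ j, grp h y j = ∑ b ∈ B, (β b : ℤ) * b j) :
    ∃ w ∈ body (srt h T), (∀ Y, ∃ k : ℕ, w Y = k) ∧ lc ry w = rv (ry y) := by
  classical
  rcases Nat.eq_zero_or_pos N with hN | hN
  · subst hN
    refine ⟨0, ⟨fun _ => le_rfl, ⟨B, hB, by simp⟩, by simp⟩, fun Y => ⟨0, by simp⟩, ?_⟩
    funext i
    exact i.elim0
  have : Nonempty (Fin N) := ⟨⟨0, hN⟩⟩
  obtain ⟨M, col, hc1, hc2, hc3⟩ := exists_cols B β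
  let n : Fin M → Fin g → ℕ := fun u j => (col u j).toNat
  have hn : ∀ u j, ((n u j : ℕ) : ℤ) = col u j := fun u j =>
    Int.toNat_of_nonneg (hT.nonneg B hB _ (hc1 u) j)
  have hcard : ∀ j, ∑ i ∈ Finset.univ.filter (fun i => h i = j), y i =
      (slots (fun u => n u j)).card := by
    intro j
    rw [slots_card]
    have h1 := hy j
    rw [← hc3 (fun b => b j)] at h1
    unfold grp at h1
    rw [← Finset.sum_filter] at h1
    have h2 : ((∑ i ∈ Finset.univ.filter (fun i => h i = j), y i : ℕ) : ℤ) =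
        ((∑ u, n u j : ℕ) : ℤ) := by
      push_cast
      rw [h1]
      exact Finset.sum_congr rfl fun u _ => (hn u j).symm
    exact_mod_cast h2
  have hlab := fun j => exists_lab (Finset.univ.filter (fun i => h i = j)) y
    (slots (fun u => n u j)) (hcard j)
  choose f hf1 hf2 hf3 using hlab
  have hf1' : ∀ j u ℓ, ℓ < n u j → h (f j (toLex (ℓ, u))) = j := by
    intro j u ℓ hℓ
    have := hf1 j (toLex (ℓ, u)) (mem_slots.2 hℓ)
    exact (Finset.mem_filter.1 this).2
  have hf2' : ∀ j u ℓ u' ℓ', ℓ < n u j → ℓ' < n u' j → toLex (ℓ, u) ≤ toLex (ℓ', u') →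
      f j (toLex (ℓ, u)) ≤ f j (toLex (ℓ', u')) := fun j u ℓ u' ℓ' h1 h2 h3 =>
    hf2 j _ (mem_slots.2 h1) _ (mem_slots.2 h2) h3
  have hgrp : ∀ u, grp h (colv h n f u) = col u := by
    intro u
    funext j
    rw [grp_colv hf1', hn]
  have hF : Finset.univ.image (colv h n f) ∈ srt h T := by
    refine ⟨⟨B, hB, ?_⟩, ?_⟩
    · intro Y hY
      rw [Finset.mem_image] at hY
      obtain ⟨u, _, rfl⟩ := hY
      rw [hgrp]; exact hc1 u
    · intro Y hY Y' hY'
      rw [Finset.mem_image] at hY hY'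
      obtain ⟨u, _, rfl⟩ := hY
      obtain ⟨u', _, rfl⟩ := hY'
      intro hbf
      rcases lt_trichotomy u u' with huu | huu | huu
      · exact rel_colv hf2' hf1' huu
      · rw [huu]; exact rel_refl _
      · have hr := rel_colv hf2' hf1' huu
        rcases hbf with h1 | ⟨h1, h2⟩
        · rw [hgrp, hgrp] at h1
          exact absurd (hc2 u' u huu.le) (not_le.2 h1)
        · rw [rel_eq hr h1 h2]
          exact rel_refl _
  refine ⟨∑ u, single (colv h n f u) 1, ⟨?_, ?_⟩, ?_, ?_⟩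
  · intro Y
    rw [Finsupp.finsetSum_apply]
    refine Finset.sum_nonneg fun u _ => ?_
    rw [Finsupp.single_apply]
    split_ifs <;> norm_num
  · refine srt_down hF (Finsupp.support_finsetSum.trans ?_)
    intro Y hY
    rw [Finset.mem_biUnion] at hY
    obtain ⟨u, hu, hY⟩ := hY
    have := Finsupp.support_single_subset hY
    rw [Finset.mem_singleton] at this
    rw [this]
    exact Finset.mem_image_of_mem _ hu
  · intro Y
    refine ⟨∑ u, if colv h n f u = Y then 1 else 0, ?_⟩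
    rw [Finsupp.finsetSum_apply]
    push_cast
    exact Finset.sum_congr rfl fun u _ => by rw [Finsupp.single_apply]
  · rw [map_sum]
    funext i
    rw [Finset.sum_apply]
    have h1 : ∑ u, colv h n f u i = y i := by
      have h2 := hf3 (h i) i (Finset.mem_filter.2 ⟨Finset.mem_univ _, rfl⟩)
      rw [slots_filter_card] at h2
      exact h2
    have h3 : ((∑ u, colv h n f u i : ℕ) : ℝ) = (y i : ℝ) := by rw [h1]
    push_cast at h3
    calc ∑ u, (lc ry (single (colv h n f u) 1)) i = ∑ u, ((colv h n f u i : ℕ) : ℝ) := by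
          refine Finset.sum_congr rfl fun u _ => ?_
          rw [lc_single, one_smul]
          simp [rv, ry]
      _ = rv (ry y) i := by rw [h3]; simp [rv, ry]

end exist

end H79KMW
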