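import Pool.Agent.Work.MP_6237c7_co.Basic

set_option autoImplicit false

namespace H79KMW

open Finsupp

/-- The cone spanned by a finite set of integer vectors. -/
def coneOf {n : ℕ} (P : Finset (Fin n → ℤ)) : Set (Fin n → ℝ) :=
  {y | ∃ a : (Fin n → ℤ) →₀ ℝ, (∀ x, 0 ≤ a x) ∧ a.support ⊆ P ∧ lc id a = y}

section place
variable {n : ℕ} {C : Set (Finset (Fin n → ℤ))} {p : Fin n → ℤ}

/-- Visible faces. -/
def Vis (S : Set (Fin n → ℝ)) (p : Fin n → ℤ) (t : Finset (Fin n → ℤ)) : Prop :=
  ∀ a : (Fin n → ℤ) →₀ ℝ, (∀ x, 0 ≤ a x) → a.support = t → ∀ ε : ℝ, 0 < ε →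
    lc id a + ε • rv p ∉ S

/-- Placing a new vector. -/
def place (C : Set (Finset (Fin n → ℤ))) (p : Fin n → ℤ) : Set (Finset (Fin n → ℤ)) :=
  C ∪ {s | ∃ t ∈ C, Vis (supp id C) p t ∧ (s : Set (Fin n → ℤ)) = insert p (t : Set (Fin n → ℤ))}

lemma mem_supp_of {C : Set (Finset (Fin n → ℤ))} {w : (Fin n → ℤ) →₀ ℝ} (hw : w ∈ body C) :
    lc id w ∈ supp id C := ⟨w, hw, rfl⟩

lemma vis_of_point (hC : IsCx id C)
    (hadd : ∀ x ∈ supp id C, ∀ y ∈ supp id C, x + y ∈ supp id C)
    {a : (Fin n → ℤ) →₀ ℝ} (ha : a ∈ body C)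
    (hz : ∀ ε : ℝ, 0 < ε → lc id a + ε • rv p ∉ supp id C) : Vis (supp id C) p a.support := by
  classical
  intro a' ha' hs ε hε hmem
  have hpos : ∀ x ∈ a.support, 0 < a x := fun x hx =>
    lt_of_le_of_ne (ha.1 x) (Ne.symm (Finsupp.mem_support_iff.1 hx))
  obtain ⟨c, hc0, hc⟩ : ∃ c : ℝ, 0 < c ∧ ∀ x, c * a' x ≤ a x := by
    rcases a.support.eq_empty_or_nonempty with he | hne
    · refine ⟨1, one_pos, fun x => ?_⟩
      have h1 : a' x = 0 := by
        have : x ∉ a'.support := by rw [hs, he]; exact Finset.notMem_empty x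
        exact Finsupp.notMem_support_iff.1 this
      rw [h1, mul_zero]; exact ha.1 x
    · obtain ⟨x0, hx0, hmin⟩ := Finset.exists_min_image a.support (fun x => a x / a' x) hne
      have hpos' : ∀ x ∈ a.support, 0 < a' x := fun x hx => by
        rw [← hs] at hx
        exact lt_of_le_of_ne (ha' x) (Ne.symm (Finsupp.mem_support_iff.1 hx))
      refine ⟨a x0 / a' x0, div_pos (hpos x0 hx0) (hpos' x0 hx0), fun x => ?_⟩
      by_cases hx : x ∈ a.support
      · have := hmin x hx
        rw [le_div_iff₀ (hpos' x hx)] at this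
        exact this
      · have h1 : a' x = 0 := by
          rw [← hs] at hx
          exact Finsupp.notMem_support_iff.1 hx
        rw [h1, mul_zero]; exact ha.1 x
  refine hz (c * ε) (by positivity) ?_
  have h1 : c • (lc id a' + ε • rv p) ∈ supp id C := supp_smul_mem hC hmem hc0.le
  have h2 : lc id (a - c • a') ∈ supp id C := by
    refine mem_supp_of ⟨fun x => ?_, hC.down _ ha.2 _ ?_⟩
    · rw [Finsupp.sub_apply, Finsupp.smul_apply, smul_eq_mul]
      have := hc x
      linarith
    · exact supp_sub_subset _ _ _ (Finset.Subset.refl _) (supp_smul_subset _ _ _ hs.le)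
  have h3 := hadd _ h1 _ h2
  have h4 : c • (lc id a' + ε • rv p) + lc id (a - c • a') = lc id a + (c * ε) • rv p := by
    rw [map_sub, map_smul, smul_add, smul_smul]
    abel
  rwa [h4] at h3

lemma vis_down (hC : IsCx id C)
    (hadd : ∀ x ∈ supp id C, ∀ y ∈ supp id C, x + y ∈ supp id C)
    {t t' : Finset (Fin n → ℤ)} (ht : t ∈ C) (htt : t' ⊆ t) (hv : Vis (supp id C) p t) :
    Vis (supp id C) p t' := by
  classical
  intro a' ha' hs ε hε hmem
  let u : (Fin n → ℤ) →₀ ℝ := ∑ x ∈ t, single x 1
  have hu : ∀ x, u x = if x ∈ t then 1 else 0 := by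
    intro x
    show (∑ x ∈ t, single x (1:ℝ)) x = _
    rw [Finsupp.finsetSum_apply]
    simp [Finsupp.single_apply]
  have hub : u ∈ body C := by
    refine ⟨fun x => ?_, hC.down t ht _ fun x hx => ?_⟩
    · rw [hu]; split_ifs <;> norm_num
    · rw [Finsupp.mem_support_iff, hu] at hx
      by_contra h
      rw [if_neg h] at hx
      exact hx rfl
  refine hv (a' + u) (fun x => ?_) ?_ ε hε ?_
  · rw [Finsupp.add_apply]; exact add_nonneg (ha' x) (hub.1 x)
  · ext x
    rw [Finsupp.mem_support_iff, Finsupp.add_apply, hu]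
    constructor
    · intro hx
      by_contra h
      rw [if_neg h, add_zero] at hx
      exact h (htt (hs ▸ Finsupp.mem_support_iff.2 hx))
    · intro hx
      rw [if_pos hx]
      have := ha' x
      positivity
  · rw [map_add]
    have h4 : lc id a' + lc id u + ε • rv p = (lc id a' + ε • rv p) + lc id u := by abel
    rw [h4]
    exact hadd _ hmem _ (mem_supp_of hub)

lemma place_erase (hC : IsCx id C)
    (hadd : ∀ x ∈ supp id C, ∀ y ∈ supp id C, x + y ∈ supp id C) (hp : rv p ∉ supp id C)
    {a : (Fin n → ℤ) →₀ ℝ} (ha : a ∈ body (place C p)) :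
    a.erase p ∈ body C ∧ (a p ≠ 0 → Vis (supp id C) p (a.erase p).support) := by
  classical
  have hnn : ∀ x, 0 ≤ (a.erase p) x := by
    intro x
    rw [Finsupp.erase_apply]
    split_ifs
    · exact le_rfl
    · exact ha.1 x
  rcases ha.2 with h | ⟨t, ht, hv, hs⟩
  · have hp0 : p ∉ a.support := by
      intro hpa
      apply hp
      refine ⟨single p 1, ⟨?_, ?_⟩, ?_⟩
      · intro z; rw [Finsupp.single_apply]; split_ifs <;> norm_num
      · rw [Finsupp.support_single _ one_ne_zero]
        exact hC.down _ h _ (by simpa using hpa)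
      · rw [lc_single, one_smul]; rfl
    refine ⟨⟨hnn, hC.down _ h _ ?_⟩, fun hne => absurd (Finsupp.mem_support_iff.2 hne) hp0⟩
    rw [Finsupp.support_erase]
    exact Finset.erase_subset _ _
  · have hsub : (a.erase p).support ⊆ t := by
      rw [Finsupp.support_erase]
      intro x hx
      rw [Finset.mem_erase] at hx
      have : x ∈ (a.support : Set (Fin n → ℤ)) := Finset.mem_coe.2 hx.2
      rw [hs] at this
      rcases this with h | h
      · exact absurd h hx.1
      · exact h
    exact ⟨⟨hnn, hC.down t ht _ hsub⟩, fun _ => vis_down hC hadd ht hsub hv⟩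

lemma lc_erase (a : (Fin n → ℤ) →₀ ℝ) : lc id a = lc id (a.erase p) + a p • rv p := by
  conv_lhs => rw [← Finsupp.single_add_erase p a]
  rw [map_add, lc_single, add_comm]
  rfl

lemma place_inj_aux (hC : IsCx id C)
    (hadd : ∀ x ∈ supp id C, ∀ y ∈ supp id C, x + y ∈ supp id C) (hp : rv p ∉ supp id C)
    {a b : (Fin n → ℤ) →₀ ℝ} (ha : a ∈ body (place C p)) (hb : b ∈ body (place C p))
    (hab : lc id a = lc id b) (hle : a p ≤ b p) : a = b := by
  obtain ⟨ha1, _⟩ := place_erase hC hadd hp ha
  obtain ⟨hb1, hb2⟩ := place_erase hC hadd hp hb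
  rw [lc_erase (p := p) a, lc_erase (p := p) b] at hab
  rcases hle.lt_or_eq with hlt | heq
  · exfalso
    have hbp : b p ≠ 0 := (lt_of_le_of_lt (ha.1 p) hlt).ne'
    refine hb2 hbp (b.erase p) hb1.1 rfl (b p - a p) (by linarith) ?_
    have h1 : lc id (b.erase p) + (b p - a p) • rv p = lc id (a.erase p) := by
      rw [sub_smul, ← add_sub_assoc, ← hab]
      abel
    rw [h1]
    exact mem_supp_of ha1
  · rw [heq] at hab
    have h1 : a.erase p = b.erase p := hC.inj ha1 hb1 (add_right_cancel hab)
    rw [← Finsupp.single_add_erase p a, ← Finsupp.single_add_erase p b, h1, heq]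

lemma place_isCx (hC : IsCx id C)
    (hadd : ∀ x ∈ supp id C, ∀ y ∈ supp id C, x + y ∈ supp id C) (hp : rv p ∉ supp id C) :
    IsCx id (place C p) := by
  classical
  refine ⟨?_, ?_, ?_⟩
  · refine (hC.fin.union (hC.fin.image (fun t => insert p t))).subset ?_
    rintro s (h | ⟨t, ht, _, hs⟩)
    · exact Or.inl h
    · refine Or.inr ⟨t, ht, ?_⟩
      apply Finset.coe_injective
      simp only [Finset.coe_insert]
      exact hs.symm
  · rintro s (h | ⟨t, ht, hv, hs⟩) s' hs'
    · exact Or.inl (hC.down s h _ hs')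
    · by_cases hms : p ∈ s'
      · have hsub : s'.erase p ⊆ t := by
          intro x hx
          rw [Finset.mem_erase] at hx
          have : x ∈ (s : Set (Fin n → ℤ)) := Finset.mem_coe.2 (hs' hx.2)
          rw [hs] at this
          rcases this with h | h
          · exact absurd h hx.1
          · exact h
        refine Or.inr ⟨s'.erase p, hC.down t ht _ hsub, vis_down hC hadd ht hsub hv, ?_⟩
        rw [← Finset.coe_insert, Finset.insert_erase hms]
      · have hsub : s' ⊆ t := by
          intro x hx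
          have : x ∈ (s : Set (Fin n → ℤ)) := Finset.mem_coe.2 (hs' hx)
          rw [hs] at this
          rcases this with h | h
          · exact absurd (h ▸ hx) hms
          · exact h
        exact Or.inl (hC.down t ht _ hsub)
  · intro a ha b hb hab
    rcases le_total (a p) (b p) with hle | hle
    · exact place_inj_aux hC hadd hp ha hb hab hle
    · exact (place_inj_aux hC hadd hp hb ha hab.symm hle).symm

lemma place_supp (hC : IsCx id C)
    (hadd : ∀ x ∈ supp id C, ∀ y ∈ supp id C, x + y ∈ supp id C) (hp : rv p ∉ supp id C) :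
    supp id (place C p) = {y | ∃ z ∈ supp id C, ∃ α : ℝ, 0 ≤ α ∧ y = z + α • rv p} := by
  classical
  have hplace := place_isCx hC hadd hp
  ext y
  constructor
  · rintro ⟨a, ha, rfl⟩
    obtain ⟨ha1, _⟩ := place_erase hC hadd hp ha
    exact ⟨_, mem_supp_of ha1, a p, ha.1 p, lc_erase a⟩
  · rintro ⟨z0, hz0, α, hα, rfl⟩
    set y := z0 + α • rv p with hy
    let A : Set ℝ := Set.Icc 0 α ∩ {α' | y - α' • rv p ∈ supp id C}
    have hAcomp : IsCompact A := by
      refine isCompact_Icc.inter_right ?_
      have hc : Continuous fun α' : ℝ => y - α' • rv p := by fun_prop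
      exact hC.isClosed_supp.preimage hc
    have hAne : A.Nonempty := by
      refine ⟨α, ⟨hα, le_rfl⟩, ?_⟩
      show y - α • rv p ∈ supp id C
      rw [hy, add_sub_cancel_right]
      exact hz0
    obtain ⟨α0, ⟨⟨hα0, hα0'⟩, hmem⟩, hleast⟩ := hAcomp.exists_isLeast hAne
    obtain ⟨a, ha, haz⟩ := hmem
    have hya : y = lc id a + α0 • rv p := by rw [haz, sub_add_cancel]
    rcases hα0.lt_or_eq with hpos | hzero
    · have hvis : Vis (supp id C) p a.support := by
        refine vis_of_point hC hadd ha fun ε hε hcon => ?_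
        set ε' := min ε α0 with hε'
        have hε'0 : 0 < ε' := lt_min hε hpos
        have hε'1 : ε' ≤ ε := min_le_left _ _
        have hε'2 : ε' ≤ α0 := min_le_right _ _
        have h1 : lc id a + ε' • rv p ∈ supp id C := by
          have h2 := supp_smul_mem hC hcon (c := ε' / ε) (by positivity)
          have h3 := supp_smul_mem hC (mem_supp_of ha) (c := 1 - ε' / ε) (by
            rw [sub_nonneg, div_le_one hε]; exact hε'1)
          have h4 := hadd _ h3 _ h2
          have h5 : (1 - ε' / ε) • lc id a + (ε' / ε) • (lc id a + ε • rv p) =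
              lc id a + ε' • rv p := by
            rw [smul_add, smul_smul, div_mul_cancel₀ _ hε.ne', ← add_assoc, ← add_smul]
            congr 1
            rw [sub_add_cancel, one_smul]
          rwa [h5] at h4
        have h6 : α0 - ε' ∈ A := by
          refine ⟨⟨by linarith, by linarith⟩, ?_⟩
          show y - (α0 - ε') • rv p ∈ supp id C
          have h7 : y - (α0 - ε') • rv p = lc id a + ε' • rv p := by
            rw [hya, sub_smul]; abel
          rw [h7]; exact h1
        have := hleast h6
        linarith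
      refine ⟨a + single p α0, ⟨fun x => ?_, ?_⟩, ?_⟩
      · rw [Finsupp.add_apply]
        refine add_nonneg (ha.1 x) ?_
        rw [Finsupp.single_apply]
        split_ifs
        · exact hα0
        · exact le_rfl
      · have hm : insert p a.support ∈ place C p :=
          Or.inr ⟨a.support, ha.2, hvis, by rw [Finset.coe_insert]⟩
        refine hplace.down _ hm _ (supp_add_subset _ _ _ (Finset.subset_insert _ _) ?_)
        refine Finsupp.support_single_subset.trans ?_
        intro x hx
        rw [Finset.mem_singleton] at hx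
        rw [hx]; exact Finset.mem_insert_self _ _
      · rw [map_add, lc_single, hya]; rfl
    · refine ⟨a, ⟨ha.1, Or.inl ha.2⟩, ?_⟩
      rw [hya, ← hzero, zero_smul, add_zero]

end place

lemma coneOf_add {n : ℕ} (P : Finset (Fin n → ℤ)) {x y : Fin n → ℝ} (hx : x ∈ coneOf P)
    (hy : y ∈ coneOf P) : x + y ∈ coneOf P := by
  obtain ⟨a, ha, has, rfl⟩ := hx
  obtain ⟨b, hb, hbs, rfl⟩ := hy
  exact ⟨a + b, fun x => by rw [Finsupp.add_apply]; exact add_nonneg (ha x) (hb x),
    supp_add_subset _ _ _ has hbs, map_add _ _ _⟩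

lemma coneOf_smul {n : ℕ} (P : Finset (Fin n → ℤ)) {x : Fin n → ℝ} (hx : x ∈ coneOf P)
    {c : ℝ} (hc : 0 ≤ c) : c • x ∈ coneOf P := by
  obtain ⟨a, ha, has, rfl⟩ := hx
  exact ⟨c • a, fun x => by rw [Finsupp.smul_apply]; exact mul_nonneg hc (ha x),
    supp_smul_subset _ _ _ has, map_smul _ _ _⟩

lemma coneOf_insert {n : ℕ} (P : Finset (Fin n → ℤ)) (p : Fin n → ℤ) :
    coneOf (insert p P) = {y | ∃ z ∈ coneOf P, ∃ α : ℝ, 0 ≤ α ∧ y = z + α • rv p} := by
  classical
  ext y
  constructor
  · rintro ⟨a, ha, has, rfl⟩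
    refine ⟨lc id (a.erase p), ⟨a.erase p, fun x => ?_, ?_, rfl⟩, a p, ha p, lc_erase a⟩
    · rw [Finsupp.erase_apply]
      split_ifs
      · exact le_rfl
      · exact ha x
    · rw [Finsupp.support_erase]
      intro x hx
      rw [Finset.mem_erase] at hx
      have := has hx.2
      rw [Finset.mem_insert] at this
      exact this.resolve_left hx.1
  · rintro ⟨z, ⟨a, ha, has, rfl⟩, α, hα, rfl⟩
    refine ⟨a + single p α, fun x => ?_, ?_, ?_⟩
    · rw [Finsupp.add_apply]
      refine add_nonneg (ha x) ?_
      rw [Finsupp.single_apply]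
      split_ifs
      · exact hα
      · exact le_rfl
    · refine supp_add_subset _ _ _ (has.trans (Finset.subset_insert _ _)) ?_
      refine Finsupp.support_single_subset.trans ?_
      intro x hx
      rw [Finset.mem_singleton] at hx
      rw [hx]; exact Finset.mem_insert_self _ _
    · rw [map_add, lc_single]; rfl

/-- Every finitely generated cone has a triangulation without new rays. -/
lemma exists_initial_fan {n : ℕ} (P : Finset (Fin n → ℤ)) :
    ∃ C : Set (Finset (Fin n → ℤ)), IsCx id C ∧ (∀ s ∈ C, s ⊆ P) ∧ supp id C = coneOf P := by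
  classical
  induction P using Finset.induction_on with
  | empty =>
    have hbody : body ({∅} : Set (Finset (Fin n → ℤ))) = {0} := by
      ext w
      constructor
      · rintro ⟨_, hw⟩
        exact Finsupp.support_eq_empty.1 hw
      · intro hw
        rw [Set.mem_singleton_iff] at hw
        subst hw
        exact ⟨fun _ => le_rfl, by simp⟩
    refine ⟨{∅}, ⟨Set.finite_singleton _, ?_, ?_⟩, ?_, ?_⟩
    · intro s hs t ht
      rw [Set.mem_singleton_iff] at hs ⊢
      subst hs
      exact Finset.subset_empty.1 ht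
    · rw [hbody]
      exact Set.injOn_singleton _ _
    · intro s hs
      rw [Set.mem_singleton_iff] at hs
      rw [hs]
    · unfold supp coneOf
      rw [hbody, Set.image_singleton, map_zero]
      ext y
      constructor
      · intro hy
        rw [Set.mem_singleton_iff] at hy
        exact ⟨0, fun _ => le_rfl, by simp, by rw [map_zero, hy]⟩
      · rintro ⟨a, _, has, rfl⟩
        have : a = 0 := Finsupp.support_eq_empty.1 (Finset.subset_empty.1 has)
        rw [this, map_zero]; rfl
  | insert p P hpP ih =>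
    obtain ⟨C, hC, hCP, hsupp⟩ := ih
    have hins : coneOf (insert p P) = {y | ∃ z ∈ coneOf P, ∃ α : ℝ, 0 ≤ α ∧ y = z + α • rv p} := by
      exact coneOf_insert P p
    by_cases hp : rv p ∈ supp id C
    · refine ⟨C, hC, fun s hs => (hCP s hs).trans (Finset.subset_insert _ _), ?_⟩
      rw [hins, hsupp]
      ext y
      constructor
      · intro hy
        exact ⟨y, hy, 0, le_rfl, by rw [zero_smul, add_zero]⟩
      · rintro ⟨z, hz, α, hα, rfl⟩
        rw [hsupp] at hp
        exact coneOf_add P hz (coneOf_smul P hp hα)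
    · have hadd : ∀ x ∈ supp id C, ∀ y ∈ supp id C, x + y ∈ supp id C := by
        rw [hsupp]
        exact fun x hx y hy => coneOf_add P hx hy
      refine ⟨place C p, place_isCx hC hadd hp, ?_, ?_⟩
      · rintro s (hs | ⟨t, ht, _, hst⟩)
        · exact (hCP s hs).trans (Finset.subset_insert _ _)
        · intro x hx
          have : x ∈ (s : Set (Fin n → ℤ)) := Finset.mem_coe.2 hx
          rw [hst] at this
          rcases this with h | h
          · rw [h]; exact Finset.mem_insert_self _ _
          · exact Finset.mem_insert_of_mem (hCP t ht h)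
      · rw [place_supp hC hadd hp, hins, hsupp]

end H79KMW
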