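import Mathlib

set_option autoImplicit false

namespace H79KMW

open MeasureTheory

/-- The scaled corner simplex. -/
def crn (n : ℕ) (t : ℝ) : Set (Fin n → ℝ) := {x | (∀ i, 0 ≤ x i) ∧ ∑ i, x i ≤ t}

lemma crn_closed (n : ℕ) (t : ℝ) : IsClosed (crn n t) := by
  have h1 : IsClosed {x : Fin n → ℝ | ∀ i, 0 ≤ x i} := by
    have : {x : Fin n → ℝ | ∀ i, 0 ≤ x i} = ⋂ i, {x | 0 ≤ x i} := by ext; simp
    rw [this]
    exact isClosed_iInter fun i => isClosed_le continuous_const (continuous_apply i)
  have h2 : IsClosed {x : Fin n → ℝ | ∑ i, x i ≤ t} := isClosed_le (by fun_prop) continuous_const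
  exact h1.inter h2

lemma crn_neg (n : ℕ) {t : ℝ} (ht : t < 0) : crn n t = ∅ := by
  rw [Set.eq_empty_iff_forall_notMem]
  rintro x ⟨h1, h2⟩
  have : 0 ≤ ∑ i, x i := Finset.sum_nonneg fun i _ => h1 i
  linarith

lemma vol_crn (n : ℕ) : ∀ t : ℝ, 0 ≤ t → volume (crn n t) = ENNReal.ofReal (t ^ n / n.factorial) := by
  induction n with
  | zero =>
    intro t ht
    have : crn 0 t = Set.univ := by
      ext x
      simp [crn, ht]
    rw [this, volume_pi, Measure.pi_of_empty _ (fun i => i.elim0)]
    simp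
  | succ n ih =>
    intro t ht
    have hmp := volume_preserving_piFinSuccAbove (fun _ : Fin (n + 1) => ℝ) 0
    set e := MeasurableEquiv.piFinSuccAbove (fun _ : Fin (n + 1) => ℝ) 0 with he
    have hpre : crn (n + 1) t = e ⁻¹' {q : ℝ × (Fin n → ℝ) | 0 ≤ q.1 ∧ q.2 ∈ crn n (t - q.1)} := by
      ext x
      have h1 : (e x).1 = x 0 := rfl
      have h2 : ∀ i, (e x).2 i = x i.succ := fun i => rfl
      simp only [Set.mem_preimage, crn]
      show ((∀ i, 0 ≤ x i) ∧ ∑ i, x i ≤ t) ↔
        (0 ≤ (e x).1 ∧ ((∀ i, 0 ≤ (e x).2 i) ∧ ∑ i, (e x).2 i ≤ t - (e x).1))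
      rw [h1]
      simp_rw [h2]
      rw [Fin.forall_fin_succ, Fin.sum_univ_succ]
      constructor
      · rintro ⟨⟨h3, h4⟩, h5⟩
        exact ⟨h3, h4, by linarith⟩
      · rintro ⟨h3, h4, h5⟩
        exact ⟨⟨h3, h4⟩, by linarith⟩
    have hcl : IsClosed {q : ℝ × (Fin n → ℝ) | 0 ≤ q.1 ∧ q.2 ∈ crn n (t - q.1)} := by
      have : {q : ℝ × (Fin n → ℝ) | 0 ≤ q.1 ∧ q.2 ∈ crn n (t - q.1)} =
          {q | 0 ≤ q.1} ∩ ((⋂ i, {q | 0 ≤ q.2 i}) ∩ {q | ∑ i, q.2 i ≤ t - q.1}) := by
        ext q
        simp [crn]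
      rw [this]
      refine (isClosed_le continuous_const continuous_fst).inter
        ((isClosed_iInter fun i => isClosed_le continuous_const (by fun_prop)).inter
          (isClosed_le (by fun_prop) (by fun_prop)))
    rw [hpre, hmp.measure_preimage_equiv]
    rw [Measure.volume_eq_prod, Measure.prod_apply hcl.measurableSet]
    have hslice : ∀ s : ℝ, volume (Prod.mk s ⁻¹' {q : ℝ × (Fin n → ℝ) |
        0 ≤ q.1 ∧ q.2 ∈ crn n (t - q.1)}) =
        (Set.Icc 0 t).indicator (fun s => ENNReal.ofReal ((t - s) ^ n / n.factorial)) s := by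
      intro s
      by_cases hs0 : 0 ≤ s
      · have h1 : Prod.mk s ⁻¹' {q : ℝ × (Fin n → ℝ) | 0 ≤ q.1 ∧ q.2 ∈ crn n (t - q.1)} =
            crn n (t - s) := by
          ext y
          show (0 ≤ s ∧ y ∈ crn n (t - s)) ↔ _
          simp [hs0]
        rw [h1]
        by_cases hst : s ≤ t
        · rw [Set.indicator_of_mem (show s ∈ Set.Icc 0 t from ⟨hs0, hst⟩), ih (t - s) (by linarith)]
        · rw [Set.indicator_of_notMem (fun h => hst h.2), crn_neg n (by linarith), measure_empty]
      · have h1 : Prod.mk s ⁻¹' {q : ℝ × (Fin n → ℝ) | 0 ≤ q.1 ∧ q.2 ∈ crn n (t - q.1)} = ∅ := by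
          rw [Set.eq_empty_iff_forall_notMem]
          rintro y ⟨h2, _⟩
          exact hs0 h2
        rw [h1, measure_empty, Set.indicator_of_notMem (fun h => hs0 h.1)]
    simp_rw [hslice]
    rw [lintegral_indicator measurableSet_Icc]
    rw [← ofReal_integral_eq_lintegral_ofReal]
    · congr 1
      rw [integral_Icc_eq_integral_Ioc, ← intervalIntegral.integral_of_le ht]
      rw [intervalIntegral.integral_div, intervalIntegral.integral_comp_sub_left (fun x => x ^ n) t]
      rw [sub_self, sub_zero, integral_pow, Nat.factorial_succ]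
      have : ((n : ℝ) + 1) ≠ 0 := by positivity
      have h2 : ((n.factorial : ℕ) : ℝ) ≠ 0 := by positivity
      push_cast
      rw [zero_pow (Nat.succ_ne_zero n), sub_zero]
      field_simp
    · exact (Continuous.integrableOn_Icc (by fun_prop))
    · refine (ae_restrict_iff' measurableSet_Icc).2 (Filter.Eventually.of_forall fun s hs => ?_)
      have : 0 ≤ t - s := by linarith [hs.2]
      show 0 ≤ (t - s) ^ n / (n.factorial : ℝ)
      positivity

/-- Volume of a simplex with given vertices. -/
lemma vol_simplex {d : ℕ} (q : Fin (d + 1) → Fin d → ℝ) :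
    volume (convexHull ℝ (Set.range q)) =
      ENNReal.ofReal (|Matrix.det (Matrix.of fun i j : Fin d => q i.succ j - q 0 j)| /
        d.factorial) := by
  classical
  set M : Matrix (Fin d) (Fin d) ℝ := Matrix.of fun i j : Fin d => q i.succ j - q 0 j with hM
  let Lm : (Fin d → ℝ) →ₗ[ℝ] (Fin d → ℝ) := Matrix.toLin' M.transpose
  have hL : ∀ x j, Lm x j = ∑ i, x i * (q i.succ j - q 0 j) := by
    intro x j
    show (Matrix.toLin' M.transpose x) j = _
    rw [Matrix.toLin'_apply, Matrix.mulVec, dotProduct]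
    exact Finset.sum_congr rfl fun i _ => by
      rw [Matrix.transpose_apply, hM, Matrix.of_apply]; ring
  have himg : convexHull ℝ (Set.range q) = (fun x => q 0 + x) '' (Lm '' crn d 1) := by
    apply Set.Subset.antisymm
    · refine convexHull_min ?_ ?_
      · rintro _ ⟨k, rfl⟩
        refine Fin.cases ?_ (fun i => ?_) k
        · refine ⟨0, ⟨0, ⟨fun i => le_rfl, by simp⟩, map_zero _⟩, by simp⟩
        · refine ⟨Lm (Pi.single i 1), ⟨Pi.single i 1, ⟨fun i' => ?_, ?_⟩, rfl⟩, ?_⟩
          · rw [Pi.single_apply]; split_ifs <;> norm_num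
          · simp
          · funext j
            show q 0 j + Lm (Pi.single i 1) j = q i.succ j
            rw [hL]
            simp [Pi.single_apply]
      · have hc : Convex ℝ (crn d 1) := by
          intro x hx y hy a b ha hb hab
          refine ⟨fun i => ?_, ?_⟩
          · have h1 := hx.1 i
            have h2 := hy.1 i
            show 0 ≤ a * x i + b * y i
            positivity
          · have h1 := hx.2
            have h2 := hy.2
            show ∑ i, (a * x i + b * y i) ≤ 1
            rw [Finset.sum_add_distrib, ← Finset.mul_sum, ← Finset.mul_sum]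
            nlinarith
        have h2 := hc.linear_image Lm
        exact h2.translate (q 0)
    · rintro _ ⟨_, ⟨x, ⟨hx0, hx1⟩, rfl⟩, rfl⟩
      have hconv := convex_convexHull ℝ (Set.range q)
      let w : Fin (d + 1) → ℝ := Fin.cons (1 - ∑ i, x i) x
      have h1 : ∑ k, w k • q k ∈ convexHull ℝ (Set.range q) := by
        refine hconv.sum_mem (fun k _ => ?_) ?_ (fun k _ => subset_convexHull ℝ _ ⟨k, rfl⟩)
        · refine Fin.cases ?_ (fun i => ?_) k
          · show 0 ≤ 1 - ∑ i, x i
            linarith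
          · exact hx0 i
        · rw [Fin.sum_univ_succ]
          simp [w]
      convert h1 using 1
      funext j
      show q 0 j + Lm x j = _
      rw [hL, Finset.sum_apply, Fin.sum_univ_succ]
      simp only [w, Fin.cons_zero, Fin.cons_succ, Pi.smul_apply, smul_eq_mul]
      rw [sub_mul, one_mul, Finset.sum_mul]
      have : ∀ i, x i * (q i.succ j - q 0 j) = x i * q i.succ j - x i * q 0 j := fun i => by ring
      simp_rw [this, Finset.sum_sub_distrib]
      ring
  rw [himg, Set.image_add_left, measure_preimage_add, Measure.addHaar_image_linearMap, vol_crn d 1 zero_le_one]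
  have hdet : LinearMap.det Lm = M.det := by
    show LinearMap.det (Matrix.toLin' M.transpose) = _
    rw [LinearMap.det_toLin', Matrix.det_transpose]
  rw [hdet, ← ENNReal.ofReal_mul (abs_nonneg _), one_pow]
  congr 1
  ring

end H79KMW
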