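import Pool.Agent.Work.MP_6237c7_co.BaseStep
import Pool.Agent.Work.MP_6237c7_co.Initial
import Pool.Agent.Work.MP_6237c7_co.Vol

set_option autoImplicit false

namespace H79KMW

open Finsupp MeasureTheory

/-- The affine point of a ray of height one. -/
def tl {d : ℕ} (x : Fin (d + 1) → ℤ) : Fin d → ℝ := fun j => (x j.succ : ℝ)

lemma rv_eq_cons {d : ℕ} {x : Fin (d + 1) → ℤ} (hx : x 0 = 1) :
    rv x = (Fin.cons 1 (tl x) : Fin (d + 1) → ℝ) := by
  funext k
  refine Fin.cases ?_ (fun j => ?_) k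
  · show ((x 0 : ℤ) : ℝ) = 1
    rw [hx, Int.cast_one]
  · rfl

lemma tl_inj {d : ℕ} {x y : Fin (d + 1) → ℤ} (hx : x 0 = 1) (hy : y 0 = 1) (h : tl x = tl y) :
    x = y := by
  funext k
  refine Fin.cases ?_ (fun j => ?_) k
  · rw [hx, hy]
  · have := congrFun h j
    have h2 : ((x j.succ : ℤ) : ℝ) = ((y j.succ : ℤ) : ℝ) := this
    exact_mod_cast h2

lemma hull_iff {d : ℕ} {s : Finset (Fin (d + 1) → ℤ)} (hs : ∀ x ∈ s, x 0 = 1) (x : Fin d → ℝ) :
    x ∈ convexHull ℝ (tl '' (s : Set (Fin (d + 1) → ℤ))) ↔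
      ∃ a : (Fin (d + 1) → ℤ) →₀ ℝ, (∀ y, 0 ≤ a y) ∧ a.support ⊆ s ∧
        lc id a = (Fin.cons 1 x : Fin (d + 1) → ℝ) := by
  classical
  constructor
  · intro hx
    have hsub : convexHull ℝ (tl '' (s : Set (Fin (d + 1) → ℤ))) ⊆
        {x | ∃ a : (Fin (d + 1) → ℤ) →₀ ℝ, (∀ y, 0 ≤ a y) ∧ a.support ⊆ s ∧
          lc id a = (Fin.cons 1 x : Fin (d + 1) → ℝ)} := by
      refine convexHull_min ?_ ?_
      · rintro _ ⟨y, hy, rfl⟩
        refine ⟨single y 1, ?_, ?_, ?_⟩
        · intro z; rw [Finsupp.single_apply]; split_ifs <;> norm_num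
        · refine Finsupp.support_single_subset.trans ?_
          intro z hz
          rw [Finset.mem_singleton] at hz
          rw [hz]; exact hy
        · rw [lc_single, one_smul]
          exact rv_eq_cons (hs y hy)
      · rintro x ⟨a, ha, has, hax⟩ y ⟨b, hb, hbs, hby⟩ α β hα hβ hαβ
        refine ⟨α • a + β • b, ?_, ?_, ?_⟩
        · intro z
          rw [Finsupp.add_apply, Finsupp.smul_apply, Finsupp.smul_apply, smul_eq_mul, smul_eq_mul]
          have := ha z
          have := hb z
          positivity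
        · exact supp_add_subset _ _ _ (supp_smul_subset _ _ _ has) (supp_smul_subset _ _ _ hbs)
        · rw [map_add, map_smul, map_smul, hax, hby]
          funext k
          refine Fin.cases ?_ (fun j => ?_) k
          · show α * 1 + β * 1 = 1
            linarith
          · rfl
    exact hsub hx
  · rintro ⟨a, ha, has, hax⟩
    have h0 : ∑ y ∈ s, a y = 1 := by
      have h1 := congrFun hax 0
      rw [lc_apply_of_subset a s has] at h1
      rw [Fin.cons_zero] at h1
      rw [← h1]
      refine Finset.sum_congr rfl fun y hy => ?_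
      have : (id y : Fin (d + 1) → ℤ) 0 = 1 := hs y hy
      rw [this]; simp
    have h2 : x = ∑ y ∈ s, a y • tl y := by
      funext j
      have h1 := congrFun hax j.succ
      rw [lc_apply_of_subset a s has, Fin.cons_succ] at h1
      rw [← h1, Finset.sum_apply]
      rfl
    rw [h2]
    exact (convex_convexHull ℝ _).sum_mem (fun y _ => ha y) h0
      (fun y hy => subset_convexHull ℝ _ ⟨y, hy, rfl⟩)

lemma dt_level {d : ℕ} (f : Fin (d + 1) → Fin (d + 1) → ℤ) (hf : ∀ k, f k 0 = 1) :
    ((dt f : ℤ) : ℝ) =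
      Matrix.det (Matrix.of fun i j : Fin d => tl (f i.succ) j - tl (f 0) j) := by
  classical
  let B : Matrix (Fin (d + 1)) (Fin (d + 1)) ℤ := Matrix.of fun i j =>
    if i = 0 then f 0 j else f i j - f 0 j
  have h1 : dt f = B.det := by
    refine Matrix.det_eq_of_forall_row_eq_smul_add_const (fun i => if i = 0 then 0 else 1) 0
      (by simp) fun i j => ?_
    by_cases hi : i = 0
    · subst hi; simp [B]
    · simp [B, hi]
  have h2 : B.det = Matrix.det (Matrix.of fun i j : Fin d => f i.succ j.succ - f 0 j.succ) := by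
    rw [Matrix.det_succ_column_zero, Fin.sum_univ_succ]
    have h3 : ∀ i : Fin d, B i.succ 0 = 0 := by
      intro i
      simp [B, hf]
    simp only [h3]
    have h4 : B 0 0 = 1 := by simp [B, hf]
    rw [h4]
    simp only [Fin.val_zero, pow_zero, one_mul, mul_zero, zero_mul, Finset.sum_const_zero, add_zero]
    congr 1
  rw [h1, h2]
  have h5 := RingHom.map_det (Int.castRingHom ℝ)
    (Matrix.of fun i j : Fin d => f i.succ j.succ - f 0 j.succ)
  rw [show ((Matrix.det (Matrix.of fun i j : Fin d => f i.succ j.succ - f 0 j.succ) : ℤ) : ℝ) =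
    (Int.castRingHom ℝ) (Matrix.det (Matrix.of fun i j : Fin d => f i.succ j.succ - f 0 j.succ))
    from rfl, h5]
  congr 1
  ext i j
  show (Int.castRingHom ℝ) (f i.succ j.succ - f 0 j.succ) = _
  simp [tl]

lemma vol_level {d : ℕ} (f : Fin (d + 1) → Fin (d + 1) → ℤ) (hf : ∀ k, f k 0 = 1) :
    volume (convexHull ℝ (Set.range fun k => tl (f k))) =
      ENNReal.ofReal (|(dt f : ℝ)| / d.factorial) := by
  rw [vol_simplex, dt_level f hf]

/-- The simplicial complex of a unimodular fan of level one. -/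
lemma exists_complex {d : ℕ} {K : Set (Finset (Fin (d + 1) → ℤ))} (hK : IsCx id K) (hlv : Lv K)
    (hMB : MB K 1) :
    ∃ X : Geometry.SimplicialComplex ℝ (Fin d → ℝ), X.faces.Finite ∧
      X.space = {x | (Fin.cons 1 x : Fin (d + 1) → ℝ) ∈ supp id K} ∧
      (∀ s ∈ X.faces, ∀ x ∈ s, ∀ i : Fin d, ∃ z : ℤ, x i = (z : ℝ)) ∧
      (∀ s ∈ X.faces, s.card = d + 1 →
        volume (convexHull ℝ (s : Set (Fin d → ℝ))) = ((d.factorial : ENNReal))⁻¹) := by
  classical
  let faces : Set (Finset (Fin d → ℝ)) := {t | ∃ s ∈ K, t = s.image tl}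
  have hhull : ∀ s ∈ K, ∀ x, x ∈ convexHull ℝ ((s.image tl : Finset (Fin d → ℝ)) : Set (Fin d → ℝ)) ↔
      ∃ a : (Fin (d + 1) → ℤ) →₀ ℝ, (∀ y, 0 ≤ a y) ∧ a.support ⊆ s ∧
        lc id a = (Fin.cons 1 x : Fin (d + 1) → ℝ) := by
    intro s hs x
    rw [Finset.coe_image]
    exact hull_iff (hlv s hs) x
  have hindep : ∀ t ∈ faces, AffineIndependent ℝ ((↑) : t → (Fin d → ℝ)) := by
    rintro t ⟨s, hs, rfl⟩
    have hAI : AffineIndependent ℝ (fun x : s => tl (x : Fin (d + 1) → ℤ)) := by
      rw [affineIndependent_iff]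
      intro u w hw0 hw1
      let a : (Fin (d + 1) → ℤ) →₀ ℝ := ∑ x ∈ u, single (x : Fin (d + 1) → ℤ) (w x)
      have hlc : lc id a = 0 := by
        show lc id (∑ x ∈ u, single (x : Fin (d + 1) → ℤ) (w x)) = 0
        rw [map_sum]
        funext k
        rw [Finset.sum_apply]
        refine Fin.cases ?_ (fun j => ?_) k
        · rw [Pi.zero_apply, ← hw0]
          refine Finset.sum_congr rfl fun x _ => ?_
          rw [lc_single, Pi.smul_apply, smul_eq_mul]
          show w x * (((x : Fin (d + 1) → ℤ) 0 : ℤ) : ℝ) = w x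
          rw [hlv s hs _ x.2]; simp
        · have := congrFun hw1 j
          rw [Finset.sum_apply] at this
          rw [Pi.zero_apply] at this ⊢
          rw [← this]
          refine Finset.sum_congr rfl fun x _ => ?_
          rw [lc_single]
          rfl
      have hsub : a.support ⊆ s := by
        refine Finsupp.support_finsetSum.trans ?_
        intro z hz
        rw [Finset.mem_biUnion] at hz
        obtain ⟨x, _, hx⟩ := hz
        have := Finsupp.support_single_subset hx
        rw [Finset.mem_singleton] at this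
        rw [this]; exact x.2
      have ha0 := hK.indep hs a hsub hlc
      intro x hx
      have h1 : a (x : Fin (d + 1) → ℤ) = w x := by
        show (∑ x ∈ u, single (x : Fin (d + 1) → ℤ) (w x)) (x : Fin (d + 1) → ℤ) = w x
        rw [Finsupp.finsetSum_apply, Finset.sum_eq_single x]
        · rw [Finsupp.single_eq_same]
        · intro x' _ hx'
          rw [Finsupp.single_apply, if_neg]
          exact fun hcon => hx' (Subtype.ext hcon)
        · intro hcon; exact absurd hx hcon
      rw [← h1, ha0]; rfl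
    have hex : ∀ x : (s.image tl : Finset (Fin d → ℝ)), ∃ y : s, tl (y : Fin (d + 1) → ℤ) = x := by
      intro x
      obtain ⟨y, hy, hyx⟩ := Finset.mem_image.1 x.2
      exact ⟨⟨y, hy⟩, hyx⟩
    choose e he using hex
    have hinj : Function.Injective e := by
      intro x x' hxx
      apply Subtype.ext
      rw [← he x, ← he x', hxx]
    have h2 := hAI.comp_embedding ⟨e, hinj⟩
    convert h2 using 1
    funext x
    exact (he x).symm
  have hdown : IsLowerSet faces := by
    rintro t t' htt ⟨s, hs, rfl⟩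
    refine ⟨s.filter (fun x => tl x ∈ t'), hK.down s hs _ (Finset.filter_subset _ _), ?_⟩
    ext y
    rw [Finset.mem_image]
    constructor
    · intro hy
      obtain ⟨x, hx, rfl⟩ := Finset.mem_image.1 (htt hy)
      exact ⟨x, Finset.mem_filter.2 ⟨hx, hy⟩, rfl⟩
    · rintro ⟨x, hx, rfl⟩
      exact (Finset.mem_filter.1 hx).2
  have hinter : ∀ᵉ (s ∈ faces) (t ∈ faces),
      convexHull ℝ (s : Set (Fin d → ℝ)) ∩ convexHull ℝ (t : Set (Fin d → ℝ)) ⊆
        convexHull ℝ ((s : Set (Fin d → ℝ)) ∩ (t : Set (Fin d → ℝ))) := by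
    rintro _ ⟨s, hs, rfl⟩ _ ⟨t, ht, rfl⟩ x ⟨hx1, hx2⟩
    obtain ⟨a, ha, has, hax⟩ := (hhull s hs x).1 hx1
    obtain ⟨b, hb, hbt, hbx⟩ := (hhull t ht x).1 hx2
    have hab : a = b := hK.inj ⟨ha, hK.down s hs _ has⟩ ⟨hb, hK.down t ht _ hbt⟩ (by rw [hax, hbx])
    have h1 : x ∈ convexHull ℝ (tl '' (a.support : Set (Fin (d + 1) → ℤ))) :=
      (hull_iff (fun y hy => hlv s hs y (has hy)) x).2 ⟨a, ha, Finset.Subset.refl _, hax⟩
    refine convexHull_mono ?_ h1
    rintro _ ⟨y, hy, rfl⟩
    refine ⟨?_, ?_⟩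
    · exact Finset.mem_coe.2 (Finset.mem_image_of_mem _ (has hy))
    · have hy' : y ∈ b.support := by rw [← hab]; exact hy
      exact Finset.mem_coe.2 (Finset.mem_image_of_mem _ (hbt hy'))
  let X := Geometry.SimplicialComplex.ofErase faces hindep hdown hinter
  have hXf : X.faces = faces \ {∅} := rfl
  refine ⟨X, ?_, ?_, ?_, ?_⟩
  · rw [hXf]
    refine ((hK.fin.image (fun s => s.image tl)).subset ?_).subset Set.sdiff_subset
    rintro t ⟨s, hs, rfl⟩
    exact ⟨s, hs, rfl⟩
  · ext x
    rw [Geometry.SimplicialComplex.mem_space_iff]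
    constructor
    · rintro ⟨t, ht, hx⟩
      rw [hXf] at ht
      obtain ⟨s, hs, rfl⟩ := ht.1
      obtain ⟨a, ha, has, hax⟩ := (hhull s hs x).1 hx
      exact ⟨a, ⟨ha, hK.down s hs _ has⟩, hax⟩
    · rintro ⟨a, ha, hax⟩
      refine ⟨a.support.image tl, ?_, (hhull _ ha.2 x).2 ⟨a, ha.1, Finset.Subset.refl _, hax⟩⟩
      rw [hXf]
      refine ⟨⟨a.support, ha.2, rfl⟩, ?_⟩
      intro hcon
      rw [Set.mem_singleton_iff, Finset.image_eq_empty, Finsupp.support_eq_empty] at hcon
      rw [hcon, map_zero] at hax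
      have := congrFun hax 0
      rw [Fin.cons_zero] at this
      exact zero_ne_one this
  · intro t ht x hx i
    rw [hXf] at ht
    obtain ⟨s, hs, rfl⟩ := ht.1
    obtain ⟨y, _, rfl⟩ := Finset.mem_image.1 hx
    exact ⟨y i.succ, rfl⟩
  · intro t ht hcard
    rw [hXf] at ht
    obtain ⟨s, hs, rfl⟩ := ht.1
    have h1 : s.card = d + 1 := by
      refine le_antisymm (hK.card_le hs) ?_
      exact hcard.symm.le.trans Finset.card_image_le
    let e : s ≃ Fin (d + 1) := s.equivFinOfCardEq h1
    let f : Fin (d + 1) → Fin (d + 1) → ℤ := fun k => (e.symm k : Fin (d + 1) → ℤ)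
    have hf : ∀ k, f k ∈ s := fun k => (e.symm k).2
    have hrange : Set.range (fun k => tl (f k)) =
        ((s.image tl : Finset (Fin d → ℝ)) : Set (Fin d → ℝ)) := by
      rw [Finset.coe_image]
      ext y
      constructor
      · rintro ⟨k, rfl⟩
        exact ⟨f k, hf k, rfl⟩
      · rintro ⟨x, hx, rfl⟩
        exact ⟨e ⟨x, hx⟩, by simp [f]⟩
    have hli : LinearIndependent ℝ (fun k => rv (f k)) :=
      (hK.linInd hs).comp e.symm e.symm.injective
    have hunit : IsUnit ((Matrix.of f).map (Int.castRingHom ℝ)) := by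
      rw [← Matrix.linearIndependent_rows_iff_isUnit]
      exact hli
    have hdet0 : dt f ≠ 0 := by
      intro h0
      rw [Matrix.isUnit_iff_isUnit_det, isUnit_iff_ne_zero] at hunit
      apply hunit
      have h1 := RingHom.map_det (Int.castRingHom ℝ) (Matrix.of f)
      rw [RingHom.mapMatrix_apply] at h1
      rw [← h1]
      show ((dt f : ℤ) : ℝ) = 0
      rw [h0, Int.cast_zero]
    have hdet1 : |(dt f : ℝ)| = 1 := by
      refine le_antisymm (hMB s hs f hf) ?_
      rw [← Int.cast_abs]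
      exact_mod_cast Int.one_le_abs hdet0
    rw [← hrange, vol_level f (fun k => hlv s hs _ (hf k)), hdet1, one_div,
      ENNReal.ofReal_inv_of_pos (by positivity), ENNReal.ofReal_natCast]

end H79KMW
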