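import Pool.Agent.Work.MP_6237c7_co.Fin1

set_option autoImplicit false

namespace H79KMW

open Finsupp MeasureTheory
open scoped Pointwise

lemma theta_pow (d m : ℕ) (v : ℕ) (hv : v ≤ 2 ^ m) :
    (1 - 1 / (2 * ((d + 1 : ℕ) : ℝ))) ^ (2 * (d + 1) * m) * (v : ℝ) ≤ 1 := by
  have hd1 : (0:ℝ) < ((d + 1 : ℕ) : ℝ) := by positivity
  have h1 : (1:ℝ) ≤ ((d + 1 : ℕ) : ℝ) := by
    push_cast
    have : (0:ℝ) ≤ d := Nat.cast_nonneg _
    linarith
  have hθ0 : 0 ≤ (1 - 1 / (2 * ((d + 1 : ℕ) : ℝ))) := by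
    rw [sub_nonneg, div_le_one (by positivity)]
    linarith
  have h2 : (1 - 1 / (2 * ((d + 1 : ℕ) : ℝ))) ^ (2 * (d + 1)) ≤ 1 / 2 := by
    have h3 := Real.one_sub_div_pow_le_exp_neg (n := 2 * (d + 1)) (t := 1) (by
      push_cast
      push_cast at h1
      linarith)
    have h4 : (1 - 1 / (2 * ((d + 1 : ℕ) : ℝ))) = 1 - 1 / ((2 * (d + 1) : ℕ) : ℝ) := by
      push_cast
      ring
    rw [h4]
    refine h3.trans ?_
    rw [Real.exp_neg, ← one_div]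
    have h5 := Real.exp_one_gt_d9
    exact one_div_le_one_div_of_le (by norm_num) (by linarith)
  rw [pow_mul]
  have h3 : ((1 - 1 / (2 * ((d + 1 : ℕ) : ℝ))) ^ (2 * (d + 1))) ^ m ≤ (1 / 2) ^ m :=
    pow_le_pow_left₀ (pow_nonneg hθ0 _) h2 m
  have h4 : (v : ℝ) ≤ 2 ^ m := by exact_mod_cast hv
  calc _ ≤ (1 / 2 : ℝ) ^ m * 2 ^ m := mul_le_mul h3 h4 (Nat.cast_nonneg _) (by positivity)
    _ = 1 := by rw [← mul_pow]; norm_num

lemma pow_bound (d J v : ℕ) (hv : 0 < v) :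
    J ^ (2 * (d + 1) * Nat.clog 2 v) ≤ v ^ (4 * (d + 1) * J) := by
  rcases Nat.lt_or_ge v 2 with h1 | h1
  · have : v = 1 := by omega
    subst this
    simp
  · have h2 : 2 ^ Nat.clog 2 v ≤ v ^ 2 := by
      have h3 := Nat.pow_pred_clog_lt_self (b := 2) (by norm_num) (x := v) (by omega)
      have h4 : 0 < Nat.clog 2 v := Nat.clog_pos (by norm_num) h1
      obtain ⟨c, hc⟩ : ∃ c, Nat.clog 2 v = c + 1 := ⟨Nat.clog 2 v - 1, by omega⟩
      rw [hc] at h3 ⊢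
      simp only [Nat.pred_eq_sub_one, Nat.add_sub_cancel] at h3
      rw [pow_succ]
      nlinarith
    have h5 : J ≤ 2 ^ J := Nat.lt_two_pow_self.le
    calc J ^ (2 * (d + 1) * Nat.clog 2 v) ≤ (2 ^ J) ^ (2 * (d + 1) * Nat.clog 2 v) :=
          Nat.pow_le_pow_left h5 _
      _ = (2 ^ Nat.clog 2 v) ^ (2 * (d + 1) * J) := by
          rw [← pow_mul, ← pow_mul]; congr 1; ring
      _ ≤ (v ^ 2) ^ (2 * (d + 1) * J) := Nat.pow_le_pow_left h2 _
      _ = v ^ (4 * (d + 1) * J) := by rw [← pow_mul]; congr 1; ring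

/-- The main theorem for one polytope. -/
lemma main_poly {d J : ℕ} (hJ : RoundProp d J) (v : ℕ) (hv : 0 < v)
    (V : Finset (Fin d → ℝ)) (hV : ∀ x ∈ V, ∀ i : Fin d, ∃ z : ℤ, x i = (z : ℝ))
    (hvol : volume (convexHull ℝ (V : Set (Fin d → ℝ))) ≤ (v : ENNReal) / (d.factorial : ENNReal)) :
    ∃ K : Geometry.SimplicialComplex ℝ (Fin d → ℝ), K.faces.Finite ∧
      K.space = ((J ^ (2 * (d + 1) * Nat.clog 2 v) : ℕ) : ℝ) •
        convexHull ℝ (V : Set (Fin d → ℝ)) ∧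
      (∀ s ∈ K.faces, ∀ x ∈ s, ∀ i : Fin d, ∃ z : ℤ, x i = (z : ℝ)) ∧
      (∀ s ∈ K.faces, s.card = d + 1 →
        volume (convexHull ℝ (s : Set (Fin d → ℝ))) = ((d.factorial : ENNReal))⁻¹) := by
  classical
  set R : ℕ := 2 * (d + 1) * Nat.clog 2 v with hR
  set k : ℕ := J ^ R with hk
  have hk0 : 0 < k := pow_pos hJ.1 R
  let lift : (Fin d → ℝ) → (Fin (d + 1) → ℤ) := fun x => Fin.cons 1 (fun i => ⌊x i⌋)
  have htl : ∀ x ∈ V, tl (lift x) = x := by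
    intro x hx
    funext i
    obtain ⟨z, hz⟩ := hV x hx i
    show ((⌊x i⌋ : ℤ) : ℝ) = x i
    rw [hz, Int.floor_intCast]
  let P : Finset (Fin (d + 1) → ℤ) := V.image lift
  have hP1 : ∀ x ∈ P, x 0 = 1 := by
    intro x hx
    obtain ⟨y, _, rfl⟩ := Finset.mem_image.1 hx
    rfl
  have hPV : tl '' (P : Set (Fin (d + 1) → ℤ)) = (V : Set (Fin d → ℝ)) := by
    ext x
    constructor
    · rintro ⟨_, hy, rfl⟩
      obtain ⟨z, hz, rfl⟩ := Finset.mem_image.1 (Finset.mem_coe.1 hy)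
      rw [htl z hz]; exact hz
    · intro hx
      exact ⟨lift x, Finset.mem_coe.2 (Finset.mem_image_of_mem _ hx), htl x hx⟩
  obtain ⟨C0, hC0, hC0P, hsupp0⟩ := exists_initial_fan P
  have hlv0 : Lv C0 := fun s hs x hx => hP1 x (hC0P s hs hx)
  have hMB0 : MB C0 (v : ℝ) := by
    intro s hs f hf
    have hf1 : ∀ k, f k 0 = 1 := fun k => hlv0 s hs _ (hf k)
    have h1 := vol_level f hf1
    have h2 : convexHull ℝ (Set.range fun k => tl (f k)) ⊆ convexHull ℝ (V : Set (Fin d → ℝ)) := by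
      refine convexHull_mono ?_
      rintro _ ⟨k, rfl⟩
      rw [← hPV]
      exact ⟨f k, Finset.mem_coe.2 (hC0P s hs (hf k)), rfl⟩
    have h3 := (measure_mono h2).trans hvol
    rw [h1] at h3
    have hfac : (0:ℝ) < (d.factorial : ℝ) := by positivity
    have h4 : (v : ENNReal) / (d.factorial : ENNReal) = ENNReal.ofReal ((v : ℝ) / d.factorial) := by
      rw [ENNReal.ofReal_div_of_pos hfac, ENNReal.ofReal_natCast, ENNReal.ofReal_natCast]
    rw [h4, ENNReal.ofReal_le_ofReal_iff (by positivity)] at h3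
    exact (div_le_div_iff_of_pos_right hfac).1 h3
  obtain ⟨K, hK, hlv, hMB, hsupp⟩ := iter_round hJ hC0 hlv0 hMB0 R
  rw [max_eq_left (theta_pow d _ v (Nat.le_pow_clog (by norm_num) v))] at hMB
  obtain ⟨X, hX1, hX2, hX3, hX4⟩ := exists_complex hK hlv hMB
  refine ⟨X, hX1, ?_, hX3, hX4⟩
  have hkR : (0:ℝ) < (k : ℝ) := by exact_mod_cast hk0
  rw [hX2]
  ext x
  rw [Set.mem_smul_set_iff_inv_smul_mem₀ hkR.ne', ← hPV, hull_iff hP1]
  show (Fin.cons 1 x : Fin (d + 1) → ℝ) ∈ supp id K ↔ _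
  rw [hsupp, hsupp0]
  have hcons : (fun j : Fin (d + 1) => if j = 0 then ((J ^ R : ℕ) : ℝ) * (Fin.cons 1 x : Fin (d + 1) → ℝ) 0
      else (Fin.cons 1 x : Fin (d + 1) → ℝ) j) =
      (k : ℝ) • (Fin.cons 1 ((k : ℝ)⁻¹ • x) : Fin (d + 1) → ℝ) := by
    funext j
    refine Fin.cases ?_ (fun i => ?_) j
    · simp [hk]
    · simp only [Fin.succ_ne_zero, if_false, Fin.cons_succ, Pi.smul_apply, smul_eq_mul]
      rw [mul_inv_cancel_left₀ hkR.ne']
  constructor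
  · intro h
    have h1 : (k : ℝ) • (Fin.cons 1 ((k : ℝ)⁻¹ • x) : Fin (d + 1) → ℝ) ∈ coneOf P := by
      rw [← hcons]; exact h
    have h2 := coneOf_smul P h1 (c := (k : ℝ)⁻¹) (by positivity)
    rw [smul_smul, inv_mul_cancel₀ hkR.ne', one_smul] at h2
    exact h2
  · intro h
    have h1 : (Fin.cons 1 ((k : ℝ)⁻¹ • x) : Fin (d + 1) → ℝ) ∈ coneOf P := h
    have h2 := coneOf_smul P h1 hkR.le
    rw [← hcons] at h2
    exact h2

end H79KMW
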