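import Mathlib

set_option autoImplicit false

namespace H79KMW.LU37

/-! Uniqueness and existence for the local refinement of a bad quadruple. `M σ x y` is the cone
over the polygon of the new points (level `σ`), `z σ y` and `f σ x` are the homogenised paths. -/

/-- No point of the same level to the lower left. -/
def SW (M : ℝ → ℝ → ℝ → Prop) (σ x y : ℝ) : Prop := ∀ x' y', M σ x' y' → x' < x → y ≤ y'

/-- No point of the same level to the lower right. -/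
def SE (M : ℝ → ℝ → ℝ → Prop) (σ x y : ℝ) : Prop := ∀ x' y', M σ x' y' → x < x' → y ≤ y'

/-- No point of the same level to the upper left. -/
def NW (M : ℝ → ℝ → ℝ → Prop) (σ x y : ℝ) : Prop := ∀ x' y', M σ x' y' → x' < x → y' ≤ y

/-- No point of the same level to the upper right. -/
def NE (M : ℝ → ℝ → ℝ → Prop) (σ x y : ℝ) : Prop := ∀ x' y', M σ x' y' → x < x' → y' ≤ y

/-- Admissible weights. -/
structure Cond (M : ℝ → ℝ → ℝ → Prop) (z f : ℝ → ℝ → ℝ) (a₀ a₁ a₂ a₃ σ x y : ℝ) : Prop where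
  p₀ : 0 ≤ a₀
  p₁ : 0 ≤ a₁
  p₂ : 0 ≤ a₂
  p₃ : 0 ≤ a₃
  m : M σ x y
  l : 0 < a₀ → x ≤ z σ y
  r : 0 < a₁ → z σ y ≤ x
  b : 0 < a₂ → y ≤ f σ x
  t : 0 < a₃ → f σ x ≤ y
  sw : 0 < a₀ → 0 < a₂ → SW M σ x y
  se : 0 < a₁ → 0 < a₂ → SE M σ x y
  nw : 0 < a₀ → 0 < a₃ → NW M σ x y
  ne : 0 < a₁ → 0 < a₃ → NE M σ x y
  na : ¬ (0 < a₀ ∧ 0 < a₁ ∧ 0 < a₂ ∧ 0 < a₃)

/-- The properties of the cone used for uniqueness. -/
structure Base (N : ℝ) (M : ℝ → ℝ → ℝ → Prop) : Prop where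
  N0 : 0 < N
  nn : ∀ {σ x y}, M σ x y → 0 ≤ σ
  zero : ∀ {x y}, M 0 x y → x = 0 ∧ y = 0
  box : ∀ {σ x y}, M σ x y → 0 < σ → 0 < x ∧ x < 2 * N * σ ∧ 0 < y ∧ y < 2 * N * σ
  scale : ∀ {σ x y c}, M σ x y → 0 ≤ c → M (c * σ) (c * x) (c * y)
  conv : ∀ {σ x y x' y' c}, M σ x y → M σ x' y' → 0 ≤ c → c ≤ 1 →
    M σ (x + c * (x' - x)) (y + c * (y' - y))
  twox : ∀ {σ : ℝ}, 0 < σ → ∃ x y x' y', M σ x y ∧ M σ x' y' ∧ x < x'
  twoy : ∀ {σ : ℝ}, 0 < σ → ∃ x y x' y', M σ x y ∧ M σ x' y' ∧ y < y'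

variable {N : ℝ} {M : ℝ → ℝ → ℝ → Prop} {z f : ℝ → ℝ → ℝ}

lemma exists_ne_x (h : Base N M) {σ : ℝ} (hσ : 0 < σ) (x : ℝ) : ∃ u v, M σ u v ∧ u ≠ x := by
  obtain ⟨a, b, c, d, h1, h2, h3⟩ := h.twox hσ
  by_cases ha : a = x
  · exact ⟨c, d, h2, by rw [← ha]; exact h3.ne'⟩
  · exact ⟨a, b, h1, ha⟩

lemma exists_ne_y (h : Base N M) {σ : ℝ} (hσ : 0 < σ) (y : ℝ) : ∃ u v, M σ u v ∧ v ≠ y := by
  obtain ⟨a, b, c, d, h1, h2, h3⟩ := h.twoy hσ
  by_cases ha : b = y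
  · exact ⟨c, d, h2, by rw [← ha]; exact h3.ne'⟩
  · exact ⟨a, b, h1, ha⟩

/-- A small step towards another point. -/
lemma small_step {p q : ℝ} (hp : p < 0) : ∃ c : ℝ, 0 < c ∧ c ≤ 1 ∧ p + c * q < 0 := by
  rcases le_or_gt q 0 with h | h
  · exact ⟨1, one_pos, le_rfl, by linarith⟩
  · refine ⟨min 1 (-p / (2 * q)), lt_min one_pos (div_pos (by linarith) (by linarith)),
      min_le_left _ _, ?_⟩
    have h1 : min 1 (-p / (2 * q)) ≤ -p / (2 * q) := min_le_right _ _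
    have h2 : min 1 (-p / (2 * q)) * q ≤ -p / (2 * q) * q := mul_le_mul_of_nonneg_right h1 h.le
    have h3 : -p / (2 * q) * q = -p / 2 := by field_simp
    linarith

lemma low (h : Base N M) {σ x y : ℝ} (hσ : 0 < σ) (hsw : SW M σ x y) (hse : SE M σ x y)
    {x' y' : ℝ} (hm : M σ x' y') : y ≤ y' := by
  by_contra hcon
  rw [not_le] at hcon
  rcases lt_trichotomy x' x with h1 | h1 | h1
  · exact absurd (hsw _ _ hm h1) (not_le.2 hcon)
  · obtain ⟨u, v, huv, hu⟩ := exists_ne_x h hσ x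
    obtain ⟨c, hc0, hc1, hc⟩ := small_step (p := y' - y) (q := v - y') (by linarith)
    have h2 := h.conv hm huv hc0.le hc1
    rcases lt_or_gt_of_ne hu with h3 | h3
    · have := hsw _ _ h2 (by rw [h1]; nlinarith)
      linarith
    · have := hse _ _ h2 (by rw [h1]; nlinarith)
      linarith
  · exact absurd (hse _ _ hm h1) (not_le.2 hcon)

lemma high (h : Base N M) {σ x y : ℝ} (hσ : 0 < σ) (hnw : NW M σ x y) (hne : NE M σ x y)
    {x' y' : ℝ} (hm : M σ x' y') : y' ≤ y := by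
  by_contra hcon
  rw [not_le] at hcon
  rcases lt_trichotomy x' x with h1 | h1 | h1
  · exact absurd (hnw _ _ hm h1) (not_le.2 hcon)
  · obtain ⟨u, v, huv, hu⟩ := exists_ne_x h hσ x
    obtain ⟨c, hc0, hc1, hc⟩ := small_step (p := y - y') (q := y' - v) (by linarith)
    have h2 := h.conv hm huv hc0.le hc1
    rcases lt_or_gt_of_ne hu with h3 | h3
    · have := hnw _ _ h2 (by rw [h1]; nlinarith)
      linarith
    · have := hne _ _ h2 (by rw [h1]; nlinarith)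
      linarith
  · exact absurd (hne _ _ hm h1) (not_le.2 hcon)

lemma left (h : Base N M) {σ x y : ℝ} (hσ : 0 < σ) (hsw : SW M σ x y) (hnw : NW M σ x y)
    {x' y' : ℝ} (hm : M σ x' y') : x ≤ x' := by
  by_contra hcon
  rw [not_le] at hcon
  rcases lt_trichotomy y' y with h1 | h1 | h1
  · exact absurd (hsw _ _ hm hcon) (not_le.2 h1)
  · obtain ⟨u, v, huv, hu⟩ := exists_ne_y h hσ y
    obtain ⟨c, hc0, hc1, hc⟩ := small_step (p := x' - x) (q := u - x') (by linarith)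
    have h2 := h.conv hm huv hc0.le hc1
    rcases lt_or_gt_of_ne hu with h3 | h3
    · have := hsw _ _ h2 (by linarith)
      nlinarith
    · have := hnw _ _ h2 (by linarith)
      nlinarith
  · exact absurd (hnw _ _ hm hcon) (not_le.2 h1)

lemma right (h : Base N M) {σ x y : ℝ} (hσ : 0 < σ) (hse : SE M σ x y) (hne : NE M σ x y)
    {x' y' : ℝ} (hm : M σ x' y') : x' ≤ x := by
  by_contra hcon
  rw [not_le] at hcon
  rcases lt_trichotomy y' y with h1 | h1 | h1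
  · exact absurd (hse _ _ hm hcon) (not_le.2 h1)
  · obtain ⟨u, v, huv, hu⟩ := exists_ne_y h hσ y
    obtain ⟨c, hc0, hc1, hc⟩ := small_step (p := x - x') (q := x' - u) (by linarith)
    have h2 := h.conv hm huv hc0.le hc1
    rcases lt_or_gt_of_ne hu with h3 | h3
    · have := hse _ _ h2 (by linarith)
      nlinarith
    · have := hne _ _ h2 (by linarith)
      nlinarith
  · exact absurd (hne _ _ hm hcon) (not_le.2 h1)

/-- The levels agree. -/
lemma level_le (h : Base N M) {a₀ a₁ a₂ a₃ σ x y b₀ b₁ b₂ b₃ σ' x' y' : ℝ}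
    (ha : Cond M z f a₀ a₁ a₂ a₃ σ x y) (hb : Cond M z f b₀ b₁ b₂ b₃ σ' x' y')
    (e₁ : a₀ + a₁ + 2 * σ = b₀ + b₁ + 2 * σ') (e₂ : a₂ + a₃ + 2 * σ = b₂ + b₃ + 2 * σ')
    (e₃ : N * a₁ + x = N * b₁ + x') (e₄ : N * a₃ + y = N * b₃ + y') : σ' ≤ σ := by
  by_contra hcon
  rw [not_le] at hcon
  have hN := h.N0
  have hσ0 := h.nn ha.m
  have hσ' : 0 < σ' := lt_of_le_of_lt hσ0 hcon
  obtain ⟨hx1, hx2, hy1, hy2⟩ := h.box hb.m hσ'
  have f₀ : N * a₀ + (2 * N * σ - x) = N * b₀ + (2 * N * σ' - x') := by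
    have : N * (a₀ + a₁ + 2 * σ) = N * (b₀ + b₁ + 2 * σ') := by rw [e₁]
    linarith
  have f₂ : N * a₂ + (2 * N * σ - y) = N * b₂ + (2 * N * σ' - y') := by
    have : N * (a₂ + a₃ + 2 * σ) = N * (b₂ + b₃ + 2 * σ') := by rw [e₂]
    linarith
  have q₀ : 0 ≤ N * b₀ := mul_nonneg hN.le hb.p₀
  have q₁ : 0 ≤ N * b₁ := mul_nonneg hN.le hb.p₁
  have q₂ : 0 ≤ N * b₂ := mul_nonneg hN.le hb.p₂
  have q₃ : 0 ≤ N * b₃ := mul_nonneg hN.le hb.p₃
  rcases hσ0.eq_or_lt with hz | hσ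
  · -- level zero
    rw [← hz] at ha f₀ f₂
    obtain ⟨hx0, hy0⟩ := h.zero ha.m
    apply ha.na
    refine ⟨?_, ?_, ?_, ?_⟩
    · by_contra hc
      have : a₀ = 0 := le_antisymm (not_lt.1 hc) ha.p₀
      rw [this, hx0] at f₀
      linarith
    · by_contra hc
      have : a₁ = 0 := le_antisymm (not_lt.1 hc) ha.p₁
      rw [this, hx0] at e₃
      linarith
    · by_contra hc
      have : a₂ = 0 := le_antisymm (not_lt.1 hc) ha.p₂
      rw [this, hy0] at f₂
      linarith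
    · by_contra hc
      have : a₃ = 0 := le_antisymm (not_lt.1 hc) ha.p₃
      rw [this, hy0] at e₄
      linarith
  · set c : ℝ := σ / σ' with hc
    have hc0 : 0 < c := div_pos hσ hσ'
    have hc1 : c < 1 := (div_lt_one hσ').2 hcon
    have hcσ : c * σ' = σ := div_mul_cancel₀ _ hσ'.ne'
    have hm := h.scale hb.m hc0.le
    rw [hcσ] at hm
    have g₁ : a₁ = 0 → c * x' < x := by
      intro h0
      rw [h0] at e₃
      nlinarith
    have g₃ : a₃ = 0 → c * y' < y := by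
      intro h0
      rw [h0] at e₄
      nlinarith
    have g₀ : a₀ = 0 → x < c * x' := by
      intro h0
      rw [h0] at f₀
      have : c * (2 * N * σ' - x') < 2 * N * σ' - x' := by nlinarith
      have h3 : c * (2 * N * σ' - x') = 2 * N * σ - c * x' := by rw [← hcσ]; ring
      linarith
    have g₂ : a₂ = 0 → y < c * y' := by
      intro h0
      rw [h0] at f₂
      have : c * (2 * N * σ' - y') < 2 * N * σ' - y' := by nlinarith
      have h3 : c * (2 * N * σ' - y') = 2 * N * σ - c * y' := by rw [← hcσ]; ring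
      linarith
    rcases ha.p₀.eq_or_lt with k₀ | k₀
    · -- a₀ = 0
      have hx := g₀ k₀.symm
      rcases ha.p₁.eq_or_lt with k₁ | k₁
      · have := g₁ k₁.symm; linarith
      rcases ha.p₂.eq_or_lt with k₂ | k₂
      · have hy := g₂ k₂.symm
        rcases ha.p₃.eq_or_lt with k₃ | k₃
        · have := g₃ k₃.symm; linarith
        · have := ha.ne k₁ k₃ _ _ hm hx
          linarith
      · rcases ha.p₃.eq_or_lt with k₃ | k₃
        · have hy := g₃ k₃.symm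
          have := ha.se k₁ k₂ _ _ hm hx
          linarith
        · have := right h hσ (ha.se k₁ k₂) (ha.ne k₁ k₃) hm
          linarith
    · rcases ha.p₁.eq_or_lt with k₁ | k₁
      · have hx := g₁ k₁.symm
        rcases ha.p₂.eq_or_lt with k₂ | k₂
        · have hy := g₂ k₂.symm
          rcases ha.p₃.eq_or_lt with k₃ | k₃
          · have := g₃ k₃.symm; linarith
          · have := ha.nw k₀ k₃ _ _ hm hx
            linarith
        · rcases ha.p₃.eq_or_lt with k₃ | k₃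
          · have hy := g₃ k₃.symm
            have := ha.sw k₀ k₂ _ _ hm hx
            linarith
          · have := left h hσ (ha.sw k₀ k₂) (ha.nw k₀ k₃) hm
            linarith
      · rcases ha.p₂.eq_or_lt with k₂ | k₂
        · have hy := g₂ k₂.symm
          rcases ha.p₃.eq_or_lt with k₃ | k₃
          · have := g₃ k₃.symm; linarith
          · have := high h hσ (ha.nw k₀ k₃) (ha.ne k₁ k₃) hm
            linarith
        · rcases ha.p₃.eq_or_lt with k₃ | k₃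
          · have hy := g₃ k₃.symm
            have := low h hσ (ha.sw k₀ k₂) (ha.se k₁ k₂) hm
            linarith
          · exact ha.na ⟨k₀, k₁, k₂, k₃⟩

lemma one_le (h : Base N M) {a₀ a₁ a₂ a₃ σ x y b₀ b₁ b₂ b₃ x' y' : ℝ}
    (ha : Cond M z f a₀ a₁ a₂ a₃ σ x y) (hb : Cond M z f b₀ b₁ b₂ b₃ σ x' y')
    (e₁ : a₀ + a₁ = b₀ + b₁) (e₂ : a₂ + a₃ = b₂ + b₃)
    (e₃ : N * a₁ + x = N * b₁ + x') (e₄ : N * a₃ + y = N * b₃ + y') : b₁ ≤ a₁ := by
  by_contra hcon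
  rw [not_le] at hcon
  have hN := h.N0
  have hx : x' < x := by nlinarith
  have k₀ : 0 < a₀ := by have := hb.p₀; linarith
  have k₁ : 0 < b₁ := lt_of_le_of_lt ha.p₁ hcon
  rcases lt_trichotomy y y' with h1 | h1 | h1
  · have k₃ : 0 < a₃ := by
      have h2 := hb.p₃
      by_contra hc
      have h3 : a₃ = 0 := le_antisymm (not_lt.1 hc) ha.p₃
      rw [h3] at e₄
      have : 0 ≤ N * b₃ := mul_nonneg hN.le h2
      linarith
    have := ha.nw k₀ k₃ _ _ hb.m hx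
    linarith
  · have h2 := ha.l k₀
    have h3 := hb.r k₁
    rw [h1] at h2
    linarith
  · have k₂ : 0 < a₂ := by
      have h2 : a₃ < b₃ := by
        by_contra hc
        rw [not_lt] at hc
        have : N * b₃ ≤ N * a₃ := mul_le_mul_of_nonneg_left hc hN.le
        linarith
      have h3 := hb.p₂
      linarith
    have := ha.sw k₀ k₂ _ _ hb.m hx
    linarith

lemma three_le (h : Base N M) {a₀ a₁ a₂ a₃ σ x y b₀ b₁ b₂ b₃ y' : ℝ}
    (ha : Cond M z f a₀ a₁ a₂ a₃ σ x y) (hb : Cond M z f b₀ b₁ b₂ b₃ σ x y')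
    (e₂ : a₂ + a₃ = b₂ + b₃) (e₄ : N * a₃ + y = N * b₃ + y') : b₃ ≤ a₃ := by
  by_contra hcon
  rw [not_le] at hcon
  have hN := h.N0
  have hy : y' < y := by nlinarith
  have k₂ : 0 < a₂ := by have := hb.p₂; linarith
  have k₃ : 0 < b₃ := lt_of_le_of_lt ha.p₃ hcon
  have h2 := ha.b k₂
  have h3 := hb.t k₃
  linarith

/-- UNIQUENESS. -/
theorem unique (h : Base N M) {a₀ a₁ a₂ a₃ σ x y b₀ b₁ b₂ b₃ σ' x' y' : ℝ}
    (ha : Cond M z f a₀ a₁ a₂ a₃ σ x y) (hb : Cond M z f b₀ b₁ b₂ b₃ σ' x' y')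
    (e₁ : a₀ + a₁ + 2 * σ = b₀ + b₁ + 2 * σ') (e₂ : a₂ + a₃ + 2 * σ = b₂ + b₃ + 2 * σ')
    (e₃ : N * a₁ + x = N * b₁ + x') (e₄ : N * a₃ + y = N * b₃ + y') :
    a₀ = b₀ ∧ a₁ = b₁ ∧ a₂ = b₂ ∧ a₃ = b₃ ∧ σ = σ' ∧ x = x' ∧ y = y' := by
  have h1 := level_le h ha hb e₁ e₂ e₃ e₄
  have h2 := level_le h hb ha e₁.symm e₂.symm e₃.symm e₄.symm
  obtain rfl : σ = σ' := le_antisymm h2 h1
  have h3 := one_le h ha hb (by linarith) (by linarith) e₃ e₄
  have h4 := one_le h hb ha (by linarith) (by linarith) e₃.symm e₄.symm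
  obtain rfl : a₁ = b₁ := le_antisymm h4 h3
  obtain rfl : x = x' := by linarith
  have h5 := three_le h ha hb (by linarith) e₄
  have h6 := three_le h hb ha (by linarith) e₄.symm
  obtain rfl : a₃ = b₃ := le_antisymm h6 h5
  exact ⟨by linarith, rfl, by linarith, rfl, rfl, rfl, by linarith⟩

end H79KMW.LU37
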