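import Mathlib

set_option autoImplicit false

namespace H79KMW

/-- An initial segment of prescribed size of a finite set in a linear order. -/
lemma exists_initial {α : Type*} [LinearOrder α] (D : Finset α) (k : ℕ) (hk : k ≤ D.card) :
    ∃ D' ⊆ D, D'.card = k ∧ ∀ x ∈ D', ∀ x' ∈ D, x' ∉ D' → x < x' := by
  classical
  induction k with
  | zero => exact ⟨∅, Finset.empty_subset _, rfl, by simp⟩
  | succ k ih =>
    obtain ⟨D', hD', hc, hlt⟩ := ih (by omega)
    have hne : (D \ D').Nonempty := by
      rw [← Finset.card_pos, Finset.card_sdiff_of_subset hD']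
      omega
    let x0 := (D \ D').min' hne
    have hx0 : x0 ∈ D \ D' := Finset.min'_mem _ _
    rw [Finset.mem_sdiff] at hx0
    refine ⟨insert x0 D', ?_, ?_, ?_⟩
    · exact Finset.insert_subset hx0.1 hD'
    · rw [Finset.card_insert_of_notMem hx0.2, hc]
    · intro x hx x' hx' hnx'
      rw [Finset.mem_insert, not_or] at hnx'
      rw [Finset.mem_insert] at hx
      rcases hx with rfl | hx
      · have : x0 ≤ x' := Finset.min'_le _ _ (Finset.mem_sdiff.2 ⟨hx', hnx'.2⟩)
        exact lt_of_le_of_ne this (Ne.symm hnx'.1)
      · exact hlt x hx x' hx' hnx'.2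

/-- Monotone labelling with prescribed fibre sizes. -/
lemma exists_lab {α ι : Type*} [LinearOrder α] [LinearOrder ι] [Nonempty ι]
    (I : Finset ι) (y : ι → ℕ) : ∀ (D : Finset α), ∑ i ∈ I, y i = D.card →
    ∃ f : α → ι, (∀ x ∈ D, f x ∈ I) ∧ (∀ x ∈ D, ∀ x' ∈ D, x ≤ x' → f x ≤ f x') ∧
      ∀ i ∈ I, (D.filter (fun x => f x = i)).card = y i := by
  classical
  induction I using Finset.induction_on_max with
  | empty =>
    intro D hD
    rw [Finset.sum_empty] at hD
    have : D = ∅ := Finset.card_eq_zero.1 hD.symm
    subst this
    exact ⟨fun _ => Classical.arbitrary ι, by simp, by simp, by simp⟩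
  | insert a I ha ih =>
    intro D hD
    have haI : a ∉ I := fun h => lt_irrefl _ (ha a h)
    rw [Finset.sum_insert haI] at hD
    obtain ⟨D', hD', hc, hlt⟩ := exists_initial D (∑ i ∈ I, y i) (by omega)
    obtain ⟨f, hf1, hf2, hf3⟩ := ih D' hc.symm
    refine ⟨fun x => if x ∈ D' then f x else a, ?_, ?_, ?_⟩
    · intro x _
      by_cases h : x ∈ D'
      · simp only [if_pos h]; exact Finset.mem_insert_of_mem (hf1 x h)
      · simp only [if_neg h]; exact Finset.mem_insert_self _ _
    · intro x hx x' hx' hxx'
      by_cases h : x ∈ D'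
      · by_cases h' : x' ∈ D'
        · simp only [if_pos h, if_pos h']; exact hf2 x h x' h' hxx'
        · simp only [if_pos h, if_neg h']; exact (ha _ (hf1 x h)).le
      · by_cases h' : x' ∈ D'
        · exact absurd (hlt x' h' x hx h) (not_lt.2 hxx')
        · simp only [if_neg h, if_neg h', le_refl]
    · intro i hi
      rw [Finset.mem_insert] at hi
      rcases hi with rfl | hi
      · have : D.filter (fun x => (if x ∈ D' then f x else i) = i) = D \ D' := by
          ext x
          rw [Finset.mem_filter, Finset.mem_sdiff]
          refine and_congr_right fun hx => ?_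
          by_cases h : x ∈ D'
          · simp only [if_pos h, h, not_true, iff_false]
            intro hfi
            exact haI (hfi ▸ hf1 x h)
          · simp [h]
        rw [this, Finset.card_sdiff_of_subset hD']
        omega
      · have : D.filter (fun x => (if x ∈ D' then f x else a) = i) =
            D'.filter (fun x => f x = i) := by
          ext x
          rw [Finset.mem_filter, Finset.mem_filter]
          constructor
          · rintro ⟨hx, h⟩
            by_cases h' : x ∈ D'
            · rw [if_pos h'] at h; exact ⟨h', h⟩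
            · rw [if_neg h'] at h; exact absurd (h ▸ hi) haI
          · rintro ⟨hx, h⟩
            exact ⟨hD' hx, by rw [if_pos hx]; exact h⟩
        rw [this]
        exact hf3 i hi

end H79KMW
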