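import Pool.Agent.Work.MP_6237c7_co.Slice

set_option autoImplicit false

namespace H79KMW

open Finsupp

lemma MB.mono {n : ℕ} {C : Set (Finset (Fin n → ℤ))} {B B' : ℝ} (h : MB C B) (hB : B ≤ B') :
    MB C B' := fun s hs f hf => (h s hs f hf).trans hB

/-- One round from base data. -/
lemma round_of_base {d J : ℕ} (hd : 0 < d) (hJ : 0 < J) {T : Set (Finset (Fin d → ℤ))}
    (hT : Base J T) {K : Set (Finset (Fin (d + 1) → ℤ))} (hK : IsCx id K) (hlv : Lv K) {V : ℝ}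
    (hV : 0 ≤ V) (hMB : MB K V) :
    ∃ K' : Set (Finset (Fin (d + 1) → ℤ)), IsCx id K' ∧ Lv K' ∧
      MB K' (max 1 ((1 - 1 / (2 * ((d + 1 : ℕ) : ℝ))) * V)) ∧
      supp id K' = asc J (supp id K) := by
  classical
  set θ : ℝ := 1 - 1 / (2 * ((d + 1 : ℕ) : ℝ)) with hθ
  have hd1 : (0:ℝ) < ((d + 1 : ℕ) : ℝ) := by positivity
  have hθ1 : θ < 1 := by
    rw [hθ]
    have : 0 < 1 / (2 * ((d + 1 : ℕ) : ℝ)) := by positivity
    linarith
  let bad : Finset (Fin (d + 1) → ℤ) → Prop := fun s =>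
    ∃ f : Fin (d + 1) → Fin (d + 1) → ℤ, (∀ i, f i ∈ s) ∧ 2 ≤ |dt f|
  have hch : ∀ s : Finset (Fin (d + 1) → ℤ), ∃ l : (Fin (d + 1) → ℤ) →₀ ℝ, bad s →
      (∀ x, 0 ≤ l x) ∧ (∀ x, l x ≤ θ) ∧ l ≠ 0 ∧ (∃ m, lc id l = rv m) ∧ l.support ⊆ s := by
    intro s
    by_cases hs : bad s
    · obtain ⟨f, hf, hf2⟩ := hs
      obtain ⟨l, h1, h2, h3, h4, h5⟩ := exists_class' f hf2
      refine ⟨l, fun _ => ⟨h1, h2, h3, h4, fun x hx => ?_⟩⟩
      obtain ⟨i, rfl⟩ := h5 (Finset.mem_coe.2 hx)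
      exact hf i
    · exact ⟨0, fun h => absurd h hs⟩
  choose l hl using hch
  let L : Finset ((Fin (d + 1) → ℤ) →₀ ℝ) := (hK.fin.toFinset.filter bad).image l
  have hLmem : ∀ l' ∈ L, ∃ s ∈ K, bad s ∧ l s = l' := by
    intro l' hl'
    rw [Finset.mem_image] at hl'
    obtain ⟨s, hs, hsl⟩ := hl'
    rw [Finset.mem_filter, Set.Finite.mem_toFinset] at hs
    exact ⟨s, hs.1, hs.2, hsl⟩
  obtain ⟨C, hC, hsupp, hI, hR⟩ := star_phase hK hV hθ1 hMB L (fun l' hl' => by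
    obtain ⟨s, _, hbad, rfl⟩ := hLmem l' hl'
    obtain ⟨h1, h2, h3, h4, _⟩ := hl s hbad
    exact ⟨h1, h2, h3, h4⟩)
  have hMBC : MB C (max 1 (θ * V)) := by
    intro s hs f hf
    rcases hI s hs with ⟨hsK, hno⟩ | h
    · refine le_trans ?_ (le_max_left _ _)
      by_contra hcon
      push Not at hcon
      have h2 : 2 ≤ |dt f| := by
        have h3 : (1:ℝ) < ((|dt f| : ℤ) : ℝ) := by rw [Int.cast_abs]; exact hcon
        have h4 : (1:ℤ) < |dt f| := by exact_mod_cast h3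
        omega
      have hbad : bad s := ⟨f, hf, h2⟩
      refine hno (l s) ?_ (hl s hbad).2.2.2.2
      exact Finset.mem_image.2 ⟨s, Finset.mem_filter.2 ⟨hK.fin.mem_toFinset.2 hsK, hbad⟩, rfl⟩
    · exact (h f hf).trans (le_max_right _ _)
  have hht : ∀ s ∈ C, ∀ x ∈ s, 1 ≤ x 0 ∧ x 0 ≤ (d : ℤ) := by
    intro s hs x hx
    rcases hR s hs x hx with ⟨s', hs', hx'⟩ | ⟨l', hl', hlx⟩
    · rw [hlv s' hs' x hx']
      exact ⟨le_rfl, by exact_mod_cast hd⟩
    · obtain ⟨s', hs', hbad, rfl⟩ := hLmem l' hl'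
      obtain ⟨h1, h2, h3, _, h5⟩ := hl s' hbad
      have hx0 : ((x 0 : ℤ) : ℝ) = ∑ y ∈ (l s').support, l s' y := by
        have h6 := congrFun hlx 0
        rw [lc_apply, Finsupp.sum] at h6
        show rv x 0 = _
        rw [← h6]
        refine Finset.sum_congr rfl fun y hy => ?_
        have : (id y : Fin (d + 1) → ℤ) 0 = 1 := hlv s' hs' y (h5 hy)
        rw [this]; simp
      have hpos : ∀ y ∈ (l s').support, 0 < l s' y := fun y hy =>
        lt_of_le_of_ne (h1 y) (Ne.symm (Finsupp.mem_support_iff.1 hy))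
      have h7 : 0 < ((x 0 : ℤ) : ℝ) := by
        rw [hx0]
        exact Finset.sum_pos hpos (Finsupp.support_nonempty_iff.2 h3)
      have h8 : ((x 0 : ℤ) : ℝ) < ((d + 1 : ℕ) : ℝ) := by
        rw [hx0]
        have h9 : ∑ y ∈ (l s').support, l s' y < ∑ y ∈ (l s').support, (1:ℝ) :=
          Finset.sum_lt_sum_of_nonempty (Finsupp.support_nonempty_iff.2 h3)
            fun y _ => (h2 y).trans_lt hθ1
        rw [Finset.sum_const, nsmul_eq_mul, mul_one] at h9
        refine h9.trans_le ?_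
        have : (l s').support.card ≤ d + 1 := (Finset.card_le_card h5).trans (hK.card_le hs')
        exact_mod_cast this
      have h7' : (0:ℤ) < x 0 := by exact_mod_cast h7
      have h8' : x 0 < ((d + 1 : ℕ) : ℤ) := by exact_mod_cast h8
      push_cast at h8'
      constructor <;> omega
  obtain ⟨K', hK', hlv', hMB', hsupp'⟩ := slice hJ hT hC hht
    (le_trans zero_le_one (le_max_left _ _)) hMBC
  exact ⟨K', hK', hlv', hMB', by rw [hsupp', hsupp]⟩

/-- The round property. -/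
def RoundProp (d J : ℕ) : Prop :=
  0 < J ∧ ∀ K : Set (Finset (Fin (d + 1) → ℤ)), IsCx id K → Lv K → ∀ V : ℝ, 1 ≤ V → MB K V →
    ∃ K' : Set (Finset (Fin (d + 1) → ℤ)), IsCx id K' ∧ Lv K' ∧
      MB K' (max 1 ((1 - 1 / (2 * ((d + 1 : ℕ) : ℝ))) * V)) ∧
      supp id K' = asc J (supp id K)

lemma roundProp_zero : RoundProp 0 1 := by
  refine ⟨one_pos, fun K hK hlv V _ hMB => ⟨K, hK, hlv, ?_, ?_⟩⟩
  · intro s hs f hf
    refine le_trans ?_ (le_max_left _ _)
    have : dt f = 1 := by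
      unfold dt
      rw [Matrix.det_fin_one]
      exact hlv s hs _ (hf 0)
    rw [this]; simp
  · rw [Nat.cast_one, asc_one]

/-- Iteration of rounds. -/
lemma iter_round {d J : ℕ} (hJ : RoundProp d J) {K : Set (Finset (Fin (d + 1) → ℤ))}
    (hK : IsCx id K) (hlv : Lv K) {V : ℝ} (hMB : MB K V) (R : ℕ) :
    ∃ K' : Set (Finset (Fin (d + 1) → ℤ)), IsCx id K' ∧ Lv K' ∧
      MB K' (max 1 ((1 - 1 / (2 * ((d + 1 : ℕ) : ℝ))) ^ R * V)) ∧
      supp id K' = asc (J ^ R : ℕ) (supp id K) := by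
  induction R with
  | zero =>
    refine ⟨K, hK, hlv, hMB.mono ?_, ?_⟩
    · rw [pow_zero, one_mul]; exact le_max_right _ _
    · rw [pow_zero, Nat.cast_one, asc_one]
  | succ R ih =>
    obtain ⟨K', hK', hlv', hMB', hs'⟩ := ih
    obtain ⟨K'', hK'', hlv'', hMB'', hs''⟩ := hJ.2 K' hK' hlv' _ (le_max_left _ _) hMB'
    refine ⟨K'', hK'', hlv'', hMB''.mono ?_, ?_⟩
    · have hd1 : (0:ℝ) < ((d + 1 : ℕ) : ℝ) := by positivity
      have hθ1 : (1 - 1 / (2 * ((d + 1 : ℕ) : ℝ))) ≤ 1 := by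
        have : 0 < 1 / (2 * ((d + 1 : ℕ) : ℝ)) := by positivity
        linarith
      have hθ0 : 0 ≤ (1 - 1 / (2 * ((d + 1 : ℕ) : ℝ))) := by
        have h1 : (1:ℝ) ≤ ((d + 1 : ℕ) : ℝ) := by
          push_cast
          have : (0:ℝ) ≤ d := Nat.cast_nonneg _
          linarith
        rw [sub_nonneg, div_le_one (by positivity)]
        linarith
      refine max_le (le_max_left _ _) ?_
      rw [mul_max_of_nonneg _ _ hθ0]
      refine max_le ?_ ?_
      · rw [mul_one]; exact hθ1.trans (le_max_left _ _)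
      · rw [← mul_assoc, ← pow_succ']
        exact le_max_right _ _
    · rw [hs'', hs', asc_asc]
      congr 1
      rw [pow_succ]
      push_cast
      ring

lemma exists_MB {n : ℕ} {K : Set (Finset (Fin n → ℤ))} (hK : IsCx id K) :
    ∃ V : ℝ, 1 ≤ V ∧ MB K V := by
  classical
  let Vx : Finset (Fin n → ℤ) := hK.fin.toFinset.biUnion id
  let A : Finset (Fin n → Fin n → ℤ) := Fintype.piFinset fun _ => Vx
  refine ⟨1 + ∑ f ∈ A, |(dt f : ℝ)|, ?_, ?_⟩
  · have : 0 ≤ ∑ f ∈ A, |(dt f : ℝ)| := Finset.sum_nonneg fun f _ => abs_nonneg _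
    linarith
  · intro s hs f hf
    have hfA : f ∈ A := by
      rw [Fintype.mem_piFinset]
      intro i
      exact Finset.mem_biUnion.2 ⟨s, hK.fin.mem_toFinset.2 hs, hf i⟩
    have := Finset.single_le_sum (f := fun f => |(dt f : ℝ)|) (fun f _ => abs_nonneg _) hfA
    linarith

lemma exists_pow_le (d : ℕ) (V : ℝ) : ∃ R : ℕ, (1 - 1 / (2 * ((d + 1 : ℕ) : ℝ))) ^ R * V ≤ 1 := by
  have hd1 : (0:ℝ) < ((d + 1 : ℕ) : ℝ) := by positivity
  have hθ1 : (1 - 1 / (2 * ((d + 1 : ℕ) : ℝ))) < 1 := by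
    have : 0 < 1 / (2 * ((d + 1 : ℕ) : ℝ)) := by positivity
    linarith
  have hθ0 : 0 ≤ (1 - 1 / (2 * ((d + 1 : ℕ) : ℝ))) := by
    have h1 : (1:ℝ) ≤ ((d + 1 : ℕ) : ℝ) := by
      push_cast
      have : (0:ℝ) ≤ d := Nat.cast_nonneg _
      linarith
    rw [sub_nonneg, div_le_one (by positivity)]
    linarith
  have h1 := (tendsto_pow_atTop_nhds_zero_of_lt_one hθ0 hθ1).mul_const V
  rw [zero_mul] at h1
  exact (h1.eventually (gt_mem_nhds one_pos)).exists.imp fun R hR => le_of_lt hR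

/-- Purity. -/
lemma purity {n : ℕ} {K : Set (Finset (Fin n → ℤ))} (hK : IsCx id K)
    (hconv : Convex ℝ (supp id K)) (hint : (interior (supp id K)).Nonempty)
    {F : Finset (Fin n → ℤ)} (hF : F ∈ K) : ∃ F' ∈ K, F ⊆ F' ∧ F'.card = n := by
  classical
  by_contra hcon
  push Not at hcon
  let p : (Fin n → ℤ) →₀ ℝ := ∑ x ∈ F, single x 1
  have hp : ∀ x, p x = if x ∈ F then 1 else 0 := by
    intro x
    show (∑ x ∈ F, single x (1:ℝ)) x = _
    rw [Finsupp.finsetSum_apply]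
    simp [Finsupp.single_apply]
  have hpb : p ∈ body K := by
    refine ⟨fun x => ?_, hK.down F hF _ fun x hx => ?_⟩
    · rw [hp]; split_ifs <;> norm_num
    · rw [Finsupp.mem_support_iff, hp] at hx
      by_contra h
      rw [if_neg h] at hx
      exact hx rfl
  let Zs : Set (Fin n → ℝ) := ⋃ s ∈ {s | s ∈ K ∧ ¬ F ⊆ s},
    {y | ∃ w : (Fin n → ℤ) →₀ ℝ, (∀ x, 0 ≤ w x) ∧ w.support ⊆ s ∧ lc id w = y}
  have hZcl : IsClosed Zs := by
    refine Set.Finite.isClosed_biUnion (hK.fin.subset fun s hs => hs.1) fun s hs => ?_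
    exact hK.isClosed_cone hs.1
  have hpZ : lc id p ∉ Zs := by
    intro h
    rw [Set.mem_iUnion₂] at h
    obtain ⟨s, ⟨hs, hFs⟩, w, hw0, hws, hwl⟩ := h
    have h1 : w = p := hK.inj ⟨hw0, hK.down s hs _ hws⟩ hpb hwl
    apply hFs
    intro x hx
    apply hws
    rw [Finsupp.mem_support_iff, h1, hp, if_pos hx]
    norm_num
  have hpS : lc id p ∈ closure (interior (supp id K)) := by
    rw [hconv.closure_interior_eq_closure_of_nonempty_interior hint]
    exact subset_closure ⟨p, hpb, rfl⟩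
  have hWne : (interior (supp id K) ∩ Zsᶜ).Nonempty := by
    rw [mem_closure_iff] at hpS
    obtain ⟨z, hz1, hz2⟩ := hpS Zsᶜ hZcl.isOpen_compl hpZ
    exact ⟨z, hz2, hz1⟩
  have hWo : IsOpen (interior (supp id K) ∩ Zsᶜ) := isOpen_interior.inter hZcl.isOpen_compl
  have hpos := hWo.measure_pos MeasureTheory.volume hWne
  have hsub : interior (supp id K) ∩ Zsᶜ ⊆ ⋃ s ∈ {s | s ∈ K ∧ F ⊆ s},
      ((Submodule.span ℝ (((s.image rv : Finset (Fin n → ℝ)) : Set (Fin n → ℝ))) :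
        Submodule ℝ (Fin n → ℝ)) : Set (Fin n → ℝ)) := by
    rintro y ⟨hy1, hy2⟩
    obtain ⟨w, hw, rfl⟩ := interior_subset hy1
    have hFw : F ⊆ w.support := by
      by_contra hFw
      apply hy2
      rw [Set.mem_iUnion₂]
      exact ⟨w.support, ⟨hw.2, hFw⟩, w, hw.1, Finset.Subset.refl _, rfl⟩
    rw [Set.mem_iUnion₂]
    refine ⟨w.support, ⟨hw.2, hFw⟩, ?_⟩
    rw [lc, Finsupp.linearCombination_apply, Finsupp.sum]
    refine Submodule.sum_mem _ fun x hx => Submodule.smul_mem _ _ (Submodule.subset_span ?_)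
    rw [Finset.mem_coe]
    exact Finset.mem_image_of_mem _ hx
  have hnull : MeasureTheory.volume (⋃ s ∈ {s | s ∈ K ∧ F ⊆ s},
      ((Submodule.span ℝ (((s.image rv : Finset (Fin n → ℝ)) : Set (Fin n → ℝ))) :
        Submodule ℝ (Fin n → ℝ)) : Set (Fin n → ℝ))) = 0 := by
    have hfin : {s | s ∈ K ∧ F ⊆ s}.Finite := hK.fin.subset fun s hs => hs.1
    rw [MeasureTheory.measure_biUnion_null_iff hfin.countable]
    rintro s ⟨hs, hFs⟩
    refine MeasureTheory.Measure.addHaar_submodule _ _ ?_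
    intro htop
    have h1 := hcon s hs hFs
    have h2 := hK.card_le hs
    have h3 := finrank_span_finset_le_card (R := ℝ) (s.image (rv : (Fin n → ℤ) → (Fin n → ℝ)))
    unfold Set.finrank at h3
    rw [htop, finrank_top, Module.finrank_fintype_fun_eq_card, Fintype.card_fin] at h3
    have h4 : (s.image (rv : (Fin n → ℤ) → (Fin n → ℝ))).card ≤ s.card := Finset.card_image_le
    omega
  have := (MeasureTheory.measure_mono hsub).trans hnull.le
  exact absurd hpos (not_lt.2 this)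

end H79KMW
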