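import Pool.Agent.Work.MP_6237c7_co.SrtDet
import Pool.Agent.Work.MP_6237c7_co.Cls

set_option autoImplicit false

namespace H79KMW

open Finsupp

/-- Scaling of the height coordinate of a set. -/
def asc {d : ℕ} (J : ℝ) (S : Set (Fin (d + 1) → ℝ)) : Set (Fin (d + 1) → ℝ) :=
  {y | (fun k => if k = 0 then J * y 0 else y k) ∈ S}

lemma asc_asc {d : ℕ} (J J' : ℝ) (S : Set (Fin (d + 1) → ℝ)) :
    asc J (asc J' S) = asc (J * J') S := by
  ext y
  have : (fun k : Fin (d + 1) => if k = 0 then J' * (if (0 : Fin (d + 1)) = 0 then J * y 0 else y 0)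
      else if k = 0 then J * y 0 else y k) = fun k => if k = 0 then J * J' * y 0 else y k := by
    funext k
    by_cases hk : k = 0
    · simp [hk]; ring
    · simp [hk]
  show (fun k : Fin (d + 1) => if k = 0 then J' * (if (0 : Fin (d + 1)) = 0 then J * y 0 else y 0)
      else if k = 0 then J * y 0 else y k) ∈ S ↔
      (fun k : Fin (d + 1) => if k = 0 then J * J' * y 0 else y k) ∈ S
  rw [this]

lemma asc_one {d : ℕ} (S : Set (Fin (d + 1) → ℝ)) : asc 1 S = S := by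
  ext y
  have : (fun k : Fin (d + 1) => if k = 0 then 1 * y 0 else y k) = y := by
    funext k
    by_cases hk : k = 0
    · simp [hk]
    · simp [hk]
  show (fun k : Fin (d + 1) => if k = 0 then 1 * y 0 else y k) ∈ S ↔ y ∈ S
  rw [this]

/-- All rays have height one. -/
def Lv {d : ℕ} (K : Set (Finset (Fin (d + 1) → ℤ))) : Prop := ∀ s ∈ K, ∀ x ∈ s, x 0 = 1

section slice
variable {d N g : ℕ} (ρ : Fin N → Fin (d + 1) → ℤ)

/-- New labels. -/
def rq (Y : Fin N → ℕ) : Fin (d + 1) → ℤ :=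
  fun k => if k = 0 then 1 else ∑ i, (Y i : ℤ) * ρ i k

/-- The sliced complex, with labels. -/
def ka (C : Set (Finset (Fin (d + 1) → ℤ))) (h : Fin N → Fin g) (T : Set (Finset (Fin g → ℤ))) :
    Set (Finset (Fin N → ℕ)) :=
  {F | F ∈ srt h T ∧ ∃ s ∈ C, ∀ Y ∈ F, ∀ i, Y i ≠ 0 → ρ i ∈ s}

/-- The weight on the old rays. -/
noncomputable def aw (w : (Fin N → ℕ) →₀ ℝ) : (Fin (d + 1) → ℤ) →₀ ℝ :=
  ∑ i, single (ρ i) (lc ry w i)

variable {ρ} {h : Fin N → Fin g} {T : Set (Finset (Fin g → ℤ))}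
  {C : Set (Finset (Fin (d + 1) → ℤ))}

lemma height_Y {J : ℕ} (hT : Base J T) (hρ : ∀ i, ρ i 0 = ((h i : ℕ) : ℤ) + 1)
    {F : Finset (Fin N → ℕ)} (hF : F ∈ srt h T) {Y : Fin N → ℕ} (hY : Y ∈ F) :
    ∑ i, (Y i : ℤ) * ρ i 0 = J := by
  obtain ⟨B, hB, hFB⟩ := hF.1
  have h1 := hT.ht B hB _ (hFB _ hY)
  rw [grp_ht] at h1
  rw [← h1]
  exact Finset.sum_congr rfl fun i _ => by rw [hρ i]; ring

lemma lc_aw {J : ℕ} (hT : Base J T) (hρ : ∀ i, ρ i 0 = ((h i : ℕ) : ℤ) + 1)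
    {w : (Fin N → ℕ) →₀ ℝ} (hw : w.support ∈ srt h T) (k : Fin (d + 1)) :
    lc id (aw ρ w) k = (if k = 0 then (J : ℝ) else 1) * lc (rq ρ) w k := by
  have h1 : lc id (aw ρ w) k = ∑ i, lc ry w i * (ρ i k : ℝ) := by
    unfold aw
    rw [map_sum, Finset.sum_apply]
    refine Finset.sum_congr rfl fun i _ => ?_
    rw [lc_single]
    rfl
  have h2 : ∀ i, lc ry w i * (ρ i k : ℝ) = ∑ Y ∈ w.support, w Y * ((Y i : ℝ) * (ρ i k : ℝ)) := by
    intro i
    rw [lc_apply, Finsupp.sum, Finset.sum_mul]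
    refine Finset.sum_congr rfl fun Y _ => ?_
    simp only [ry]
    push_cast
    ring
  rw [h1]
  simp_rw [h2]
  rw [Finset.sum_comm, lc_apply, Finsupp.sum, Finset.mul_sum]
  refine Finset.sum_congr rfl fun Y hY => ?_
  rw [← Finset.mul_sum]
  by_cases hk : k = 0
  · subst hk
    have h3 := height_Y hT hρ hw hY
    have h4 : ∑ i, (Y i : ℝ) * (ρ i 0 : ℝ) = J := by exact_mod_cast h3
    rw [h4]
    simp [rq]
    ring
  · simp only [rq, if_neg hk]
    push_cast
    ring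

lemma aw_apply (hinj : Function.Injective ρ) (w : (Fin N → ℕ) →₀ ℝ) (i : Fin N) :
    aw ρ w (ρ i) = lc ry w i := by
  unfold aw
  rw [Finsupp.finsetSum_apply, Finset.sum_eq_single i]
  · rw [Finsupp.single_eq_same]
  · intro j _ hj
    rw [Finsupp.single_apply, if_neg]
    exact fun hcon => hj (hinj hcon)
  · intro hcon; exact absurd (Finset.mem_univ _) hcon

lemma lc_ry_nonneg {w : (Fin N → ℕ) →₀ ℝ} (hw : ∀ x, 0 ≤ w x) (i : Fin N) : 0 ≤ lc ry w i := by
  rw [lc_apply, Finsupp.sum]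
  refine Finset.sum_nonneg fun Y _ => mul_nonneg (hw Y) ?_
  simp [ry]

lemma lc_ry_ne {w : (Fin N → ℕ) →₀ ℝ} {i : Fin N} (hne : lc ry w i ≠ 0) :
    ∃ Y ∈ w.support, Y i ≠ 0 := by
  rw [lc_apply, Finsupp.sum] at hne
  obtain ⟨Y, hY, hY'⟩ := Finset.exists_ne_zero_of_sum_ne_zero hne
  refine ⟨Y, hY, ?_⟩
  intro h0
  apply hY'
  simp [ry, h0]

lemma ne_lc_ry {w : (Fin N → ℕ) →₀ ℝ} (hw : ∀ x, 0 ≤ w x) {i : Fin N} {Y : Fin N → ℕ}
    (hY : Y ∈ w.support) (hYi : Y i ≠ 0) : lc ry w i ≠ 0 := by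
  rw [lc_apply, Finsupp.sum]
  have h1 : w Y * (ry Y i : ℝ) ≤ ∑ a ∈ w.support, w a * (ry a i : ℝ) := by
    refine Finset.single_le_sum (f := fun a => w a * (ry a i : ℝ)) ?_ hY
    intro a _
    refine mul_nonneg (hw a) ?_
    simp [ry]
  have h2 : 0 < w Y := lt_of_le_of_ne (hw Y) (Ne.symm (Finsupp.mem_support_iff.1 hY))
  have h3 : (0:ℝ) < (ry Y i : ℝ) := by
    simp only [ry]
    have : 0 < Y i := Nat.pos_of_ne_zero hYi
    exact_mod_cast this
  have h4 : 0 < w Y * (ry Y i : ℝ) := mul_pos h2 h3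
  exact (h4.trans_le h1).ne'

lemma aw_body (hC : IsCx id C) {w : (Fin N → ℕ) →₀ ℝ} (hw : w ∈ body (ka ρ C h T)) :
    aw ρ w ∈ body C := by
  obtain ⟨hw0, _, s, hs, hsY⟩ := hw
  refine ⟨?_, hC.down s hs _ ?_⟩
  · intro x
    unfold aw
    rw [Finsupp.finsetSum_apply]
    refine Finset.sum_nonneg fun i _ => ?_
    rw [Finsupp.single_apply]
    split_ifs
    · exact lc_ry_nonneg hw0 i
    · exact le_rfl
  · intro x hx
    unfold aw at hx
    have h1 := Finsupp.support_finsetSum hx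
    rw [Finset.mem_biUnion] at h1
    obtain ⟨i, _, hi⟩ := h1
    rw [Finsupp.mem_support_iff, Finsupp.single_apply] at hi
    by_cases hρx : ρ i = x
    · rw [if_pos hρx] at hi
      obtain ⟨Y, hY, hYi⟩ := lc_ry_ne hi
      rw [← hρx]
      exact hsY Y hY i hYi
    · rw [if_neg hρx] at hi
      exact absurd rfl hi

lemma ka_isCx {J : ℕ} (hT : Base J T) (hC : IsCx id C) (hinj : Function.Injective ρ)
    (hρ : ∀ i, ρ i 0 = ((h i : ℕ) : ℤ) + 1) : IsCx (rq ρ) (ka ρ C h T) := by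
  refine ⟨(srt_fin hT).subset fun F hF => hF.1, ?_, ?_⟩
  · rintro F ⟨hF, s, hs, hsY⟩ F' hF'
    exact ⟨srt_down hF hF', s, hs, fun Y hY => hsY Y (hF' hY)⟩
  · intro w hw w' hw' hww
    have h1 : aw ρ w = aw ρ w' := by
      refine hC.inj (aw_body hC hw) (aw_body hC hw') ?_
      funext k
      rw [lc_aw hT hρ hw.2.1, lc_aw hT hρ hw'.2.1, hww]
    refine srt_inj hT.cx (h := h) ⟨hw.1, hw.2.1⟩ ⟨hw'.1, hw'.2.1⟩ ?_
    funext i
    rw [← aw_apply hinj w i, ← aw_apply hinj w' i, h1]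

lemma ka_supp {J : ℕ} (hJ : 0 < J) (hT : Base J T) (hC : IsCx id C)
    (hinj : Function.Injective ρ) (hsur : ∀ s ∈ C, ∀ x ∈ s, ∃ i, ρ i = x)
    (hρ : ∀ i, ρ i 0 = ((h i : ℕ) : ℤ) + 1) :
    supp (rq ρ) (ka ρ C h T) = asc J (supp id C) := by
  classical
  have hJR : (J : ℝ) ≠ 0 := by exact_mod_cast hJ.ne'
  ext y
  constructor
  · rintro ⟨w, hw, rfl⟩
    refine ⟨aw ρ w, aw_body hC hw, ?_⟩
    funext k
    rw [lc_aw hT hρ hw.2.1]
    by_cases hk : k = 0
    · subst hk; simp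
    · simp [hk]
  · rintro ⟨a, ha, hay⟩
    obtain ⟨w, hw, hwl⟩ := srt_cover (h := h) hJ hT (fun i => a (ρ i)) (fun i => ha.1 _)
    have hka : w ∈ body (ka ρ C h T) := by
      refine ⟨hw.1, hw.2, a.support, ha.2, fun Y hY i hYi => ?_⟩
      have h1 := ne_lc_ry hw.1 hY hYi
      rw [hwl] at h1
      exact Finsupp.mem_support_iff.2 h1
    refine ⟨w, hka, ?_⟩
    have hawa : aw ρ w = a := by
      ext x
      by_cases hx : ∃ i, ρ i = x
      · obtain ⟨i, rfl⟩ := hx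
        rw [aw_apply hinj, hwl]
      · have h1 : a x = 0 := by
          by_contra hne
          exact hx (hsur _ ha.2 x (Finsupp.mem_support_iff.2 hne))
        rw [h1]
        unfold aw
        rw [Finsupp.finsetSum_apply]
        refine Finset.sum_eq_zero fun i _ => ?_
        rw [Finsupp.single_apply, if_neg]
        exact fun hcon => hx ⟨i, hcon⟩
    funext k
    have h2 := lc_aw hT hρ hw.2 k
    rw [hawa, hay] at h2
    by_cases hk : k = 0
    · subst hk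
      simp only [if_true] at h2
      exact (mul_left_cancel₀ hJR h2).symm
    · simp only [if_neg hk, one_mul] at h2
      exact h2.symm

/-- Determinants of the sliced complex. -/
lemma ka_dt {J : ℕ} (hJ : 0 < J) (hT : Base J T) (hC : IsCx id C)
    (hinj : Function.Injective ρ)
    (hρ : ∀ i, ρ i 0 = ((h i : ℕ) : ℤ) + 1) {B : ℝ} (hB0 : 0 ≤ B) (hMB : MB C B)
    {F : Finset (Fin N → ℕ)} (hF : F ∈ ka ρ C h T) (Y : Fin (d + 1) → Fin N → ℕ)
    (hY : ∀ k, Y k ∈ F) : |(dt (fun k => rq ρ (Y k)) : ℝ)| ≤ B := by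
  classical
  obtain ⟨hF1, s, hs, hsY⟩ := hF
  let I0 : Finset (Fin N) := Finset.univ.filter (fun i => ρ i ∈ s)
  have hI0 : I0.card ≤ s.card := Finset.card_le_card_of_injOn ρ
    (fun i hi => (Finset.mem_filter.1 (Finset.mem_coe.1 hi)).2) (fun i _ j _ hij => hinj hij)
  have hle : I0.card ≤ d + 1 := hI0.trans (hC.card_le hs)
  -- the scaled matrix
  let M : Matrix (Fin (d + 1)) (Fin (d + 1)) ℤ :=
    Matrix.of fun k j => ∑ i ∈ I0, (Y k i : ℤ) * ρ i j
  have hsum : ∀ k j, ∑ i, (Y k i : ℤ) * ρ i j = ∑ i ∈ I0, (Y k i : ℤ) * ρ i j := by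
    intro k j
    symm
    refine Finset.sum_subset (Finset.subset_univ _) fun i _ hi => ?_
    have : Y k i = 0 := by
      by_contra hne
      exact hi (Finset.mem_filter.2 ⟨Finset.mem_univ _, hsY _ (hY k) i hne⟩)
    rw [this]; simp
  have hMdet : M.det = J * dt (fun k => rq ρ (Y k)) := by
    have h1 := Matrix.det_mul_row (fun j : Fin (d + 1) => if j = 0 then (J : ℤ) else 1)
      (Matrix.of fun k => rq ρ (Y k))
    rw [Finset.prod_ite_eq' Finset.univ (0 : Fin (d + 1)) (fun _ => (J : ℤ)),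
      if_pos (Finset.mem_univ _)] at h1
    rw [dt, ← h1]
    congr 1
    ext k j
    simp only [M, Matrix.of_apply]
    rw [← hsum k j]
    by_cases hj : j = 0
    · subst hj
      rw [height_Y hT hρ hF1 (hY k)]
      simp [rq]
    · simp [rq, hj]
  have hMle : |((M.det : ℤ) : ℝ)| ≤ J * B := by
    rcases hle.lt_or_eq with hlt | heq
    · -- the determinant vanishes
      have h0 : M.det = 0 := by
        by_contra hne
        let A1 : Matrix (Fin (d + 1)) I0 ℝ := Matrix.of fun k i => (Y k i : ℝ)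
        let A2 : Matrix I0 (Fin (d + 1)) ℝ := Matrix.of fun i j => (ρ i j : ℝ)
        have h2 : M.map (Int.castRingHom ℝ) = A1 * A2 := by
          ext k j
          rw [Matrix.mul_apply]
          show (Int.castRingHom ℝ) (∑ i ∈ I0, (Y k i : ℤ) * ρ i j) = ∑ i : I0, (Y k i : ℝ) * (ρ i j : ℝ)
          rw [map_sum, ← Finset.sum_coe_sort I0]
          refine Finset.sum_congr rfl fun i _ => ?_
          simp
        have h3 : IsUnit (M.map (Int.castRingHom ℝ)) := by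
          rw [Matrix.isUnit_iff_isUnit_det, isUnit_iff_ne_zero]
          have h1 := RingHom.map_det (Int.castRingHom ℝ) M
          rw [RingHom.mapMatrix_apply] at h1
          rw [← h1]
          show ((M.det : ℤ) : ℝ) ≠ 0
          exact_mod_cast hne
        have h4 := Matrix.rank_of_isUnit _ h3
        rw [Fintype.card_fin, h2] at h4
        have h5 := (Matrix.rank_mul_le_left A1 A2).trans (Matrix.rank_le_card_width A1)
        rw [h4, Fintype.card_coe] at h5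
        omega
      rw [h0, Int.cast_zero, abs_zero]
      positivity
    · let e := I0.orderEmbOfFin heq
      have hmap : Finset.univ.image e = I0 := Finset.image_orderEmbOfFin_univ I0 heq
      have h2 : M = (Matrix.of fun k l => (Y k (e l) : ℤ)) * (Matrix.of fun l => ρ (e l)) := by
        ext k j
        rw [Matrix.mul_apply]
        show ∑ i ∈ I0, (Y k i : ℤ) * ρ i j = ∑ l, (Y k (e l) : ℤ) * ρ (e l) j
        conv_lhs => rw [← hmap]
        rw [Finset.sum_image (fun x _ y _ hxy => e.injective hxy)]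
      rw [h2, Matrix.det_mul, Int.cast_mul, abs_mul]
      have h3 := srt_det hJ hT hF1 Y hY e e.injective (fun k i hne => by
        have h4 : i ∈ I0 := Finset.mem_filter.2 ⟨Finset.mem_univ _, hsY _ (hY k) i hne⟩
        rw [← hmap, Finset.mem_image] at h4
        obtain ⟨l, _, hl⟩ := h4
        exact ⟨l, hl⟩)
      have h3' : |((Matrix.det (Matrix.of fun k l => (Y k (e l) : ℤ)) : ℤ) : ℝ)| ≤ J := by
        exact_mod_cast h3
      have h5 := hMB s hs (fun l => ρ (e l)) (fun l => by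
        have : e l ∈ I0 := Finset.orderEmbOfFin_mem I0 heq l
        exact (Finset.mem_filter.1 this).2)
      exact mul_le_mul h3' h5 (abs_nonneg _) (Nat.cast_nonneg _)
  rw [hMdet] at hMle
  push_cast at hMle
  rw [abs_mul, abs_of_nonneg (Nat.cast_nonneg J : (0:ℝ) ≤ J)] at hMle
  have hJR : (0:ℝ) < J := by exact_mod_cast hJ
  exact le_of_mul_le_mul_left hMle hJR

end slice

/-- The slicing theorem. -/
lemma slice {d g J : ℕ} (hJ : 0 < J) {T : Set (Finset (Fin g → ℤ))} (hT : Base J T)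
    {C : Set (Finset (Fin (d + 1) → ℤ))} (hC : IsCx id C)
    (hht : ∀ s ∈ C, ∀ x ∈ s, 1 ≤ x 0 ∧ x 0 ≤ (g : ℤ)) {B : ℝ} (hB0 : 0 ≤ B) (hMB : MB C B) :
    ∃ K : Set (Finset (Fin (d + 1) → ℤ)), IsCx id K ∧ Lv K ∧ MB K B ∧
      supp id K = asc J (supp id C) := by
  classical
  let Vx : Finset (Fin (d + 1) → ℤ) := hC.fin.toFinset.biUnion id
  have hVx : ∀ x, x ∈ Vx ↔ ∃ s ∈ C, x ∈ s := by
    intro x
    simp only [Vx, Finset.mem_biUnion, Set.Finite.mem_toFinset, id]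
  let ρ : Fin Vx.card → Fin (d + 1) → ℤ := fun i => (Vx.equivFin.symm i : Fin (d + 1) → ℤ)
  have hinj : Function.Injective ρ := fun i j hij => Vx.equivFin.symm.injective (Subtype.ext hij)
  have hmem : ∀ i, ρ i ∈ Vx := fun i => (Vx.equivFin.symm i).2
  have hsur : ∀ s ∈ C, ∀ x ∈ s, ∃ i, ρ i = x := by
    intro s hs x hx
    refine ⟨Vx.equivFin ⟨x, (hVx x).2 ⟨s, hs, hx⟩⟩, ?_⟩
    simp [ρ]
  have hhρ : ∀ i, 1 ≤ ρ i 0 ∧ ρ i 0 ≤ (g : ℤ) := by
    intro i
    obtain ⟨s, hs, hx⟩ := (hVx _).1 (hmem i)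
    exact hht s hs _ hx
  let h : Fin Vx.card → Fin g := fun i => ⟨(ρ i 0 - 1).toNat, by have := hhρ i; omega⟩
  have hρ : ∀ i, ρ i 0 = ((h i : ℕ) : ℤ) + 1 := by
    intro i
    have := hhρ i
    show ρ i 0 = (((ρ i 0 - 1).toNat : ℕ) : ℤ) + 1
    omega
  have hka := ka_isCx hT hC hinj hρ
  refine ⟨push (rq ρ) (ka ρ C h T), push_isCx hka, ?_, ?_, ?_⟩
  · rintro s ⟨F, hF, hs⟩ x hx
    have : x ∈ (s : Set (Fin (d + 1) → ℤ)) := Finset.mem_coe.2 hx
    rw [hs] at this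
    obtain ⟨Y, _, rfl⟩ := this
    simp [rq]
  · rintro s ⟨F, hF, hs⟩ f hf
    have h1 : ∀ k, ∃ Y ∈ F, rq ρ Y = f k := by
      intro k
      have : f k ∈ (s : Set (Fin (d + 1) → ℤ)) := Finset.mem_coe.2 (hf k)
      rw [hs] at this
      obtain ⟨Y, hY, hYf⟩ := this
      exact ⟨Y, hY, hYf⟩
    choose Y hY hYf using h1
    have h2 := ka_dt hJ hT hC hinj hρ hB0 hMB hF Y hY
    rwa [show (fun k => rq ρ (Y k)) = f from funext hYf] at h2
  · rw [supp_push hka]
    exact ka_supp hJ hT hC hinj hsur hρ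

end H79KMW
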