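import Pool.Agent.Work.MP_6237c7_co.Basic
import Pool.Agent.Work.MP_6237c7_co.Lab

set_option autoImplicit false

namespace H79KMW

open Finsupp

/-- Base data: a unimodular fan over the weighted simplex. -/
structure Base {g : ℕ} (J : ℕ) (T : Set (Finset (Fin g → ℤ))) : Prop where
  cx : IsCx id T
  nonneg : ∀ B ∈ T, ∀ b ∈ B, ∀ j, 0 ≤ b j
  ht : ∀ B ∈ T, ∀ b ∈ B, ∑ j : Fin g, (((j : ℕ) : ℤ) + 1) * b j = J
  cover : ∀ y : Fin g → ℝ, (∀ j, 0 ≤ y j) → y ∈ supp id T
  sat : ∀ B ∈ T, ∃ B' ∈ T, B ⊆ B' ∧ ∀ z : Fin g → ℤ,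
    (J : ℤ) ∣ ∑ j : Fin g, (((j : ℕ) : ℤ) + 1) * z j →
    ∃ c : (Fin g → ℤ) → ℤ, ∀ j, z j = ∑ b ∈ B', c b * b j

section defs
variable {N g : ℕ}

/-- Group sums. -/
def grp (h : Fin N → Fin g) (Y : Fin N → ℕ) : Fin g → ℤ :=
  fun j => ∑ i, if h i = j then (Y i : ℤ) else 0

/-- Partial sums inside a group. -/
def ps (h : Fin N → Fin g) (Y : Fin N → ℕ) (i : Fin N) : ℤ :=
  ∑ i', if i' ≤ i ∧ h i' = h i then (Y i' : ℤ) else 0

/-- The sorted relation. -/
def rel (h : Fin N → Fin g) (Y Y' : Fin N → ℕ) : Prop :=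
  ∀ i, min (grp h Y (h i)) (ps h Y' i) ≤ ps h Y i ∧
    min (grp h Y' (h i)) (ps h Y i - 1) ≤ ps h Y' i

/-- Total of the partial sums. -/
def tot (h : Fin N → Fin g) (Y : Fin N → ℕ) : ℤ := ∑ i, ps h Y i

/-- Code of a vector. -/
noncomputable def rk (b : Fin g → ℤ) : ℕ := Encodable.encode b

lemma rk_inj : Function.Injective (rk (g := g)) := Encodable.encode_injective

/-- The order of the columns. -/
def before (h : Fin N → Fin g) (Y Y' : Fin N → ℕ) : Prop :=
  rk (grp h Y) < rk (grp h Y') ∨ (grp h Y = grp h Y' ∧ tot h Y' ≤ tot h Y)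

/-- The sorted complex. -/
def srt (h : Fin N → Fin g) (T : Set (Finset (Fin g → ℤ))) : Set (Finset (Fin N → ℕ)) :=
  {F | (∃ B ∈ T, ∀ Y ∈ F, grp h Y ∈ B) ∧ ∀ Y ∈ F, ∀ Y' ∈ F, before h Y Y' → rel h Y Y'}

/-- Labels. -/
def ry (Y : Fin N → ℕ) : Fin N → ℤ := fun i => (Y i : ℤ)

lemma ps_le_grp (h : Fin N → Fin g) (Y : Fin N → ℕ) (i : Fin N) :
    ps h Y i ≤ grp h Y (h i) := by
  unfold ps grp
  refine Finset.sum_le_sum fun i' _ => ?_
  by_cases h1 : h i' = h i
  · by_cases h2 : i' ≤ i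
    · simp [h1, h2]
    · simp [h1, h2]
  · simp [h1]

lemma ps_nonneg (h : Fin N → Fin g) (Y : Fin N → ℕ) (i : Fin N) : 0 ≤ ps h Y i := by
  unfold ps
  refine Finset.sum_nonneg fun i' _ => ?_
  split_ifs
  · exact Int.natCast_nonneg _
  · exact le_rfl

lemma le_grp (h : Fin N → Fin g) (Y : Fin N → ℕ) (i : Fin N) : (Y i : ℤ) ≤ grp h Y (h i) := by
  unfold grp
  have : (Y i : ℤ) = if h i = h i then (Y i : ℤ) else 0 := by simp
  rw [this]
  refine Finset.single_le_sum (f := fun i' => if h i' = h i then (Y i' : ℤ) else 0) ?_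
    (Finset.mem_univ i)
  intro i' _
  split_ifs
  · exact Int.natCast_nonneg _
  · exact le_rfl

lemma ps_inj (h : Fin N → Fin g) {Y Y' : Fin N → ℕ} (hp : ∀ i, ps h Y i = ps h Y' i) : Y = Y' := by
  have key : ∀ i, Y i = Y' i := by
    intro i
    induction i using WellFoundedLT.induction with
    | ind i ih =>
      have h1 : ∀ Z : Fin N → ℕ, ps h Z i = (Z i : ℤ) +
          ∑ i', if i' < i ∧ h i' = h i then (Z i' : ℤ) else 0 := by
        intro Z
        unfold ps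
        rw [← Finset.add_sum_erase _ _ (Finset.mem_univ i),
          ← Finset.add_sum_erase (Finset.univ) (fun i' => if i' < i ∧ h i' = h i then (Z i' : ℤ) else 0)
            (Finset.mem_univ i)]
        simp only [le_refl, lt_irrefl, and_self, if_true, false_and, if_false, zero_add]
        congr 1
        refine Finset.sum_congr rfl fun i' hi' => ?_
        rw [Finset.mem_erase] at hi'
        have : (i' ≤ i ∧ h i' = h i) ↔ (i' < i ∧ h i' = h i) := by
          rw [lt_iff_le_and_ne]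
          tauto
        by_cases h2 : i' ≤ i ∧ h i' = h i
        · rw [if_pos h2, if_pos (this.1 h2)]
        · rw [if_neg h2, if_neg (fun h3 => h2 (this.2 h3))]
      have h2 := hp i
      rw [h1 Y, h1 Y'] at h2
      have h3 : (∑ i', if i' < i ∧ h i' = h i then (Y i' : ℤ) else 0) =
          ∑ i', if i' < i ∧ h i' = h i then (Y' i' : ℤ) else 0 := by
        refine Finset.sum_congr rfl fun i' _ => ?_
        by_cases h4 : i' < i ∧ h i' = h i
        · rw [if_pos h4, if_pos h4, ih i' h4.1]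
        · rw [if_neg h4, if_neg h4]
      rw [h3] at h2
      have := add_right_cancel h2
      exact_mod_cast this
  exact funext key

lemma srt_down {h : Fin N → Fin g} {T : Set (Finset (Fin g → ℤ))} {F F' : Finset (Fin N → ℕ)}
    (hF : F ∈ srt h T) (hF' : F' ⊆ F) : F' ∈ srt h T := by
  obtain ⟨⟨B, hB, h1⟩, h2⟩ := hF
  exact ⟨⟨B, hB, fun Y hY => h1 Y (hF' hY)⟩, fun Y hY Y' hY' => h2 Y (hF' hY) Y' (hF' hY')⟩

end defs

section inj
variable {β : Type*} {n : ℕ} {r : β → Fin n → ℤ} {K : Set (Finset β)}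

/-- Injectivity can be tested on pairs with disjoint supports. -/
lemma inj_of_disj (hdown : ∀ s ∈ K, ∀ t : Finset β, t ⊆ s → t ∈ K)
    (H : ∀ a ∈ body K, ∀ b ∈ body K, (∀ x, a x = 0 ∨ b x = 0) → lc r a = lc r b → a = 0) :
    Set.InjOn (lc r) (body K) := by
  have main : ∀ w ∈ body K, ∀ w' ∈ body K, lc r w = lc r w' → pos (w - w') = 0 := by
    intro w hw w' hw' hl
    have hs : ∀ v ∈ body K, ∀ v' ∈ body K, (pos (v - v')) ∈ body K := by
      intro v hv v' hv'
      refine ⟨pos_nonneg _, hdown _ hv.2 _ ?_⟩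
      intro x hx
      rw [Finsupp.mem_support_iff] at hx ⊢
      intro h0
      apply hx
      rw [pos_apply, Finsupp.sub_apply, h0, zero_sub, max_eq_right]
      have := hv'.1 x
      linarith
    refine H _ (hs w hw w' hw') (pos (w' - w)) (hs w' hw' w hw) ?_ ?_
    · intro x
      rw [pos_apply, pos_apply, Finsupp.sub_apply, Finsupp.sub_apply]
      rcases le_total (w x) (w' x) with h | h
      · left; exact max_eq_right (by linarith)
      · right; exact max_eq_right (by linarith)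
    · have h1 := congrArg (lc r) (pos_sub_pos_neg (w - w'))
      rw [map_sub, map_sub, hl, sub_self, neg_sub] at h1
      exact sub_eq_zero.1 h1
  intro w hw w' hw' hl
  have h1 := main w hw w' hw' hl
  have h2 := main w' hw' w hw hl.symm
  have h3 := pos_sub_pos_neg (w - w')
  rw [neg_sub, h1, h2, sub_self] at h3
  exact (sub_eq_zero.1 h3.symm)

end inj

section uniq
variable {N g : ℕ} {h : Fin N → Fin g} {T : Set (Finset (Fin g → ℤ))}

lemma body_map {a : (Fin N → ℕ) →₀ ℝ} (ha : ∀ x, 0 ≤ a x)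
    (f : (Fin N → ℕ) → (Fin g → ℤ)) (x : Fin g → ℤ) : 0 ≤ a.mapDomain f x := by
  rw [Finsupp.mapDomain, Finsupp.sum, Finsupp.finsetSum_apply]
  refine Finset.sum_nonneg fun y _ => ?_
  rw [Finsupp.single_apply]
  split_ifs
  · exact ha _
  · exact le_rfl

lemma mapDomain_pos {a : (Fin N → ℕ) →₀ ℝ} (ha : ∀ x, 0 ≤ a x)
    (f : (Fin N → ℕ) → (Fin g → ℤ)) {Y : Fin N → ℕ} (hY : a Y ≠ 0) : a.mapDomain f (f Y) ≠ 0 := by
  have h1 : a Y ≤ a.mapDomain f (f Y) := by
    rw [Finsupp.mapDomain, Finsupp.sum, Finsupp.finsetSum_apply]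
    have : a Y = (single (f Y) (a Y)) (f Y) := by rw [Finsupp.single_eq_same]
    rw [this]
    refine Finset.single_le_sum (f := fun y => (single (f y) (a y)) (f Y)) ?_
      (Finsupp.mem_support_iff.2 hY)
    intro y _
    rw [Finsupp.single_apply]
    split_ifs
    · exact ha _
    · exact le_rfl
  have h2 : 0 < a Y := lt_of_le_of_ne (ha Y) (Ne.symm hY)
  exact (h2.trans_le h1).ne'

lemma lc_grp (a : (Fin N → ℕ) →₀ ℝ) (j : Fin g) :
    lc id (a.mapDomain (grp h)) j = ∑ i, if h i = j then lc ry a i else 0 := by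
  have h1 : lc id (a.mapDomain (grp h)) = lc (grp h) a := by
    rw [lc, lc, Finsupp.linearCombination_mapDomain]; rfl
  rw [h1, lc_apply, Finsupp.sum]
  have : ∀ i, (if h i = j then lc ry a i else 0) =
      ∑ Y ∈ a.support, a Y * (if h i = j then (Y i : ℝ) else 0) := by
    intro i
    by_cases hi : h i = j
    · simp only [if_pos hi]
      rw [lc_apply, Finsupp.sum]
      refine Finset.sum_congr rfl fun Y _ => ?_
      simp [ry]
    · simp [if_neg hi]
  simp_rw [this]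
  rw [Finset.sum_comm]
  refine Finset.sum_congr rfl fun Y _ => ?_
  rw [← Finset.mul_sum]
  congr 1
  unfold grp
  push_cast
  rfl

lemma lc_ps (a : (Fin N → ℕ) →₀ ℝ) (i : Fin N) :
    ∑ Y ∈ a.support, a Y * (ps h Y i : ℝ) =
      ∑ i', if i' ≤ i ∧ h i' = h i then lc ry a i' else 0 := by
  have : ∀ i', (if i' ≤ i ∧ h i' = h i then lc ry a i' else 0) =
      ∑ Y ∈ a.support, a Y * (if i' ≤ i ∧ h i' = h i then (Y i' : ℝ) else 0) := by
    intro i'
    by_cases hi : i' ≤ i ∧ h i' = h i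
    · simp only [if_pos hi]
      rw [lc_apply, Finsupp.sum]
      refine Finset.sum_congr rfl fun Y _ => ?_
      simp [ry]
    · simp [if_neg hi]
  simp_rw [this]
  rw [Finset.sum_comm]
  refine Finset.sum_congr rfl fun Y _ => ?_
  rw [← Finset.mul_sum]
  congr 1
  unfold ps
  push_cast
  rfl

lemma sum_mapDomain (a : (Fin N → ℕ) →₀ ℝ) (φ : (Fin g → ℤ) → ℝ) :
    ∑ Y ∈ a.support, a Y * φ (grp h Y) = (a.mapDomain (grp h)).sum (fun b c => c * φ b) := by
  rw [Finsupp.sum_mapDomain_index]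
  · rfl
  · intro b; simp
  · intro b c c'; ring

/-- Comparison of first columns. -/
lemma first_le {a b : (Fin N → ℕ) →₀ ℝ} (ha : a ∈ body (srt h T)) (hb : b ∈ body (srt h T))
    (hab : lc ry a = lc ry b) (hm : a.mapDomain (grp h) = b.mapDomain (grp h))
    {Y1 Y1' : Fin N → ℕ} (hY : Y1 ∈ a.support) (hY' : Y1' ∈ b.support)
    (hf : ∀ Y ∈ a.support, before h Y1 Y) (hf' : ∀ Y ∈ b.support, before h Y1' Y)
    (hg : grp h Y1 = grp h Y1') (i : Fin N) : ps h Y1' i ≤ ps h Y1 i := by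
  by_contra hcon
  push Not at hcon
  set ℓ : ℤ := ps h Y1' i with hℓ
  have hℓg : ℓ ≤ grp h Y1 (h i) := by rw [hg]; exact ps_le_grp h Y1' i
  have h1 : ∀ Y ∈ a.support, ps h Y i ≤ min (grp h Y (h i)) (ℓ - 1) := by
    intro Y hYs
    refine le_min (ps_le_grp h Y i) ?_
    have h2 := (ha.2.2 Y1 hY Y hYs (hf Y hYs) i).1
    by_contra h3
    push Not at h3
    have h4 : ℓ ≤ min (grp h Y1 (h i)) (ps h Y i) := le_min hℓg (by omega)
    omega
  have h2 : ∀ Y ∈ b.support, min (grp h Y (h i)) (ℓ - 1) ≤ ps h Y i := fun Y hYs =>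
    (hb.2.2 Y1' hY' Y hYs (hf' Y hYs) i).2
  have h3 : min (grp h Y1' (h i)) (ℓ - 1) < ps h Y1' i :=
    (min_le_right _ _).trans_lt (by omega)
  have hpos : ∀ (c : (Fin N → ℕ) →₀ ℝ), (∀ x, 0 ≤ c x) → ∀ x ∈ c.support, 0 < c x :=
    fun c hc x hx => lt_of_le_of_ne (hc x) (Ne.symm (Finsupp.mem_support_iff.1 hx))
  have e1 : ∑ Y ∈ a.support, a Y * (ps h Y i : ℝ) ≤
      ∑ Y ∈ a.support, a Y * ((min (grp h Y (h i)) (ℓ - 1) : ℤ) : ℝ) := by
    refine Finset.sum_le_sum fun Y hYs => ?_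
    refine mul_le_mul_of_nonneg_left ?_ (ha.1 Y)
    exact_mod_cast h1 Y hYs
  have e2 : ∑ Y ∈ b.support, b Y * ((min (grp h Y (h i)) (ℓ - 1) : ℤ) : ℝ) <
      ∑ Y ∈ b.support, b Y * (ps h Y i : ℝ) := by
    refine Finset.sum_lt_sum (fun Y hYs => ?_) ⟨Y1', hY', ?_⟩
    · refine mul_le_mul_of_nonneg_left ?_ (hb.1 Y)
      exact_mod_cast h2 Y hYs
    · refine mul_lt_mul_of_pos_left ?_ (hpos b hb.1 _ hY')
      exact_mod_cast h3
  have e3 : ∑ Y ∈ a.support, a Y * ((min (grp h Y (h i)) (ℓ - 1) : ℤ) : ℝ) =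
      ∑ Y ∈ b.support, b Y * ((min (grp h Y (h i)) (ℓ - 1) : ℤ) : ℝ) := by
    rw [sum_mapDomain (h := h) a (fun z => ((min (z (h i)) (ℓ - 1) : ℤ) : ℝ)),
      sum_mapDomain (h := h) b (fun z => ((min (z (h i)) (ℓ - 1) : ℤ) : ℝ)), hm]
  have e4 : ∑ Y ∈ a.support, a Y * (ps h Y i : ℝ) = ∑ Y ∈ b.support, b Y * (ps h Y i : ℝ) := by
    rw [lc_ps, lc_ps, hab]
  linarith

lemma exists_first {a : (Fin N → ℕ) →₀ ℝ} (ha : ∀ x, 0 ≤ a x) {b0 : Fin g → ℤ}
    (hb0 : b0 ∈ (a.mapDomain (grp h)).support)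
    (hmin : ∀ b ∈ (a.mapDomain (grp h)).support, rk b0 ≤ rk b) :
    ∃ Y1 ∈ a.support, grp h Y1 = b0 ∧ ∀ Y ∈ a.support, before h Y1 Y := by
  classical
  have hne : (a.support.filter (fun Y => grp h Y = b0)).Nonempty := by
    have h1 := Finsupp.mapDomain_support hb0
    rw [Finset.mem_image] at h1
    obtain ⟨Y, hY, hYb⟩ := h1
    exact ⟨Y, Finset.mem_filter.2 ⟨hY, hYb⟩⟩
  obtain ⟨Y1, hY1, hmax⟩ := Finset.exists_max_image _ (tot h) hne
  rw [Finset.mem_filter] at hY1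
  refine ⟨Y1, hY1.1, hY1.2, fun Y hY => ?_⟩
  by_cases h2 : grp h Y = b0
  · right
    exact ⟨hY1.2.trans h2.symm, hmax Y (Finset.mem_filter.2 ⟨hY, h2⟩)⟩
  · left
    have h3 : grp h Y ∈ (a.mapDomain (grp h)).support :=
      Finsupp.mem_support_iff.2 (mapDomain_pos ha _ (Finsupp.mem_support_iff.1 hY))
    have h4 := hmin _ h3
    rw [hY1.2]
    refine lt_of_le_of_ne h4 fun h5 => h2 ?_
    exact (rk_inj h5).symm

/-- Uniqueness in the sorted complex. -/
lemma srt_inj (hT : IsCx id T) : Set.InjOn (lc ry) (body (srt h T)) := by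
  classical
  refine inj_of_disj (fun s hs t hts => srt_down hs hts) ?_
  intro a ha b hb hdisj hab
  by_contra hne
  have hbody : ∀ c ∈ body (srt h T), c.mapDomain (grp h) ∈ body T := by
    intro c hc
    obtain ⟨B, hB, hcB⟩ := hc.2.1
    refine ⟨body_map hc.1 _, hT.down B hB _ ?_⟩
    refine Finsupp.mapDomain_support.trans ?_
    intro z hz
    rw [Finset.mem_image] at hz
    obtain ⟨Y, hY, rfl⟩ := hz
    exact hcB Y hY
  have hm : a.mapDomain (grp h) = b.mapDomain (grp h) := by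
    refine hT.inj (hbody a ha) (hbody b hb) ?_
    funext j
    rw [lc_grp, lc_grp, hab]
  obtain ⟨Y0, hY0⟩ := Finsupp.support_nonempty_iff.2 hne
  have hne' : (a.mapDomain (grp h)).support.Nonempty :=
    ⟨grp h Y0, Finsupp.mem_support_iff.2 (mapDomain_pos ha.1 _ (Finsupp.mem_support_iff.1 hY0))⟩
  obtain ⟨b0, hb0, hmin⟩ := Finset.exists_min_image _ rk hne'
  obtain ⟨Y1, hY1, hg1, hf1⟩ := exists_first ha.1 hb0 hmin
  rw [hm] at hb0 hmin
  obtain ⟨Y2, hY2, hg2, hf2⟩ := exists_first hb.1 hb0 hmin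
  have hg : grp h Y1 = grp h Y2 := hg1.trans hg2.symm
  have h1 := first_le ha hb hab hm hY1 hY2 hf1 hf2 hg
  have h2 := first_le hb ha hab.symm hm.symm hY2 hY1 hf2 hf1 hg.symm
  have h3 : Y1 = Y2 := ps_inj h fun i => le_antisymm (h2 i) (h1 i)
  subst h3
  rcases hdisj Y1 with h4 | h4
  · exact Finsupp.mem_support_iff.1 hY1 h4
  · exact Finsupp.mem_support_iff.1 hY2 h4

lemma srt_fin {J : ℕ} (hT : Base J T) : (srt h T).Finite := by
  classical
  have hA : {Y : Fin N → ℕ | ∀ i, Y i ≤ J}.Finite := Set.finite_Iic (fun _ : Fin N => J)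
  have hsub : srt h T ⊆ ((hA.toFinset.powerset : Finset (Finset (Fin N → ℕ))) :
      Set (Finset (Fin N → ℕ))) := by
    intro F hF
    rw [Finset.mem_coe, Finset.mem_powerset]
    intro Y hY
    rw [Set.Finite.mem_toFinset]
    intro i
    obtain ⟨B, hB, hFB⟩ := hF.1
    have hb := hFB Y hY
    have h1 := hT.ht B hB _ hb
    have h2 : grp h Y (h i) ≤ J := by
      rw [← h1]
      have h3 : grp h Y (h i) ≤ (((h i : ℕ) : ℤ) + 1) * grp h Y (h i) := by
        have h0 := hT.nonneg B hB _ hb (h i)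
        have : (0:ℤ) ≤ ((h i : ℕ) : ℤ) := Int.natCast_nonneg _
        nlinarith
      refine h3.trans ?_
      refine Finset.single_le_sum (f := fun j : Fin g => (((j : ℕ) : ℤ) + 1) * grp h Y j) ?_
        (Finset.mem_univ (h i))
      intro j _
      have h0 := hT.nonneg B hB _ hb j
      have : (0:ℤ) ≤ ((j : ℕ) : ℤ) := Int.natCast_nonneg _
      show (0:ℤ) ≤ (((j : ℕ) : ℤ) + 1) * grp h Y j
      positivity
    have h4 := (le_grp h Y i).trans h2
    exact_mod_cast h4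
  exact (Finset.finite_toSet _).subset hsub

lemma srt_isCx {J : ℕ} (hT : Base J T) : IsCx ry (srt h T) :=
  ⟨srt_fin hT, fun _ hs _ hts => srt_down hs hts, srt_inj hT.cx⟩

end uniq

end H79KMW
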