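import Pool.Agent.Work.MP_6237c7_co.Exist

set_option autoImplicit false

namespace H79KMW

open Finsupp

section sd
variable {N g : ℕ} {h : Fin N → Fin g} {T : Set (Finset (Fin g → ℤ))}

lemma grp_ht (h : Fin N → Fin g) (y : Fin N → ℕ) :
    ∑ j : Fin g, (((j : ℕ) : ℤ) + 1) * grp h y j = ∑ i, (((h i : ℕ) : ℤ) + 1) * (y i : ℤ) := by
  unfold grp
  simp_rw [Finset.mul_sum]
  rw [Finset.sum_comm]
  refine Finset.sum_congr rfl fun i _ => ?_
  rw [Finset.sum_eq_single (h i)]
  · simp
  · intro j _ hj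
    rw [if_neg (Ne.symm hj), mul_zero]
  · intro hcon; exact absurd (Finset.mem_univ _) hcon

lemma grp_nonneg (h : Fin N → Fin g) (y : Fin N → ℕ) (j : Fin g) : 0 ≤ grp h y j := by
  unfold grp
  refine Finset.sum_nonneg fun i _ => ?_
  split_ifs
  · exact Int.natCast_nonneg _
  · exact le_rfl

/-- Natural vectors of height divisible by `J` are natural combinations of a face. -/
lemma srt_nat {J : ℕ} (hT : Base J T) (y : Fin N → ℕ)
    (hy : (J : ℤ) ∣ ∑ i, (((h i : ℕ) : ℤ) + 1) * (y i : ℤ)) :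
    ∃ w ∈ body (srt h T), (∀ Y, ∃ k : ℕ, w Y = k) ∧ lc ry w = rv (ry y) := by
  classical
  obtain ⟨β, hβ, hβl⟩ := hT.cover (rv (grp h y)) (fun j => by
    have := grp_nonneg h y j
    show (0:ℝ) ≤ ((grp h y j : ℤ) : ℝ)
    exact_mod_cast this)
  obtain ⟨B', hB', hsub, hsat⟩ := hT.sat _ hβ.2
  obtain ⟨c, hc⟩ := hsat (grp h y) (by rw [grp_ht]; exact hy)
  let c' : (Fin g → ℤ) →₀ ℝ := ∑ b ∈ B', single b (c b : ℝ)
  have hc'app : ∀ b ∈ B', c' b = c b := by
    intro b hb
    show (∑ b ∈ B', single b (c b : ℝ)) b = c b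
    rw [Finsupp.finsetSum_apply, Finset.sum_eq_single b]
    · rw [Finsupp.single_eq_same]
    · intro b' _ hb'
      rw [Finsupp.single_apply, if_neg hb']
    · intro hcon; exact absurd hb hcon
  have hc's : c'.support ⊆ B' := by
    refine Finsupp.support_finsetSum.trans ?_
    intro b hb
    rw [Finset.mem_biUnion] at hb
    obtain ⟨b', hb', hb''⟩ := hb
    have := Finsupp.support_single_subset hb''
    rw [Finset.mem_singleton] at this
    rw [this]; exact hb'
  have heq : β = c' := by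
    refine hT.cx.indep' hB' β c' hsub hc's ?_
    rw [hβl]
    funext j
    rw [lc_apply_of_subset c' B' hc's j]
    have h1 := hc j
    show ((grp h y j : ℤ) : ℝ) = _
    rw [h1]
    push_cast
    exact Finset.sum_congr rfl fun b hb => by rw [hc'app b hb]; rfl
  have hcn : ∀ b ∈ B', 0 ≤ c b := by
    intro b hb
    have h1 := hβ.1 b
    rw [heq, hc'app b hb] at h1
    exact_mod_cast h1
  refine srt_exists hT hB' (fun b => (c b).toNat) y fun j => ?_
  rw [hc j]
  exact Finset.sum_congr rfl fun b hb => by rw [Int.toNat_of_nonneg (hcn b hb)]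

/-- The sorted complex covers the orthant. -/
lemma srt_cover {J : ℕ} (hJ : 0 < J) (hT : Base J T) (y : Fin N → ℝ) (hy : ∀ i, 0 ≤ y i) :
    y ∈ supp ry (srt h T) := by
  have hcl := (srt_isCx (h := h) hT).isClosed_supp
  have hJR : (0:ℝ) < J := by exact_mod_cast hJ
  have hlim : Filter.Tendsto (fun q : ℕ => fun i => ((⌊y i * (q:ℝ)⌋₊ : ℕ) : ℝ) / (q:ℝ))
      Filter.atTop (nhds y) := by
    rw [tendsto_pi_nhds]
    intro i
    exact (tendsto_nat_floor_mul_div_atTop (hy i)).comp tendsto_natCast_atTop_atTop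
  refine hcl.mem_of_tendsto hlim (Filter.Eventually.of_forall fun q => ?_)
  have hdvd : (J : ℤ) ∣ ∑ i, (((h i : ℕ) : ℤ) + 1) * ((J * ⌊y i * (q:ℝ)⌋₊ : ℕ) : ℤ) := by
    refine Finset.dvd_sum fun i _ => ?_
    push_cast
    exact Dvd.dvd.mul_left (Dvd.intro _ rfl) _
  obtain ⟨w, hw, _, hwl⟩ := srt_nat hT (fun i => J * ⌊y i * (q:ℝ)⌋₊) hdvd
  have h1 : rv (ry fun i => J * ⌊y i * (q:ℝ)⌋₊) ∈ supp ry (srt h T) := ⟨w, hw, hwl⟩
  have h2 := supp_smul_mem (srt_isCx (h := h) hT) h1 (c := 1 / (J * (q:ℝ))) (by positivity)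
  convert h2 using 1
  funext i
  rw [Pi.smul_apply, smul_eq_mul]
  simp only [rv, ry]
  push_cast
  rcases Nat.eq_zero_or_pos q with hq | hq
  · subst hq; simp
  · have : (0:ℝ) < q := by exact_mod_cast hq
    field_simp

/-- Determinants inside the sorted complex. -/
lemma srt_det {J : ℕ} (hJ : 0 < J) (hT : Base J T) {F : Finset (Fin N → ℕ)} (hF : F ∈ srt h T)
    {n : ℕ} (Y : Fin n → Fin N → ℕ) (hY : ∀ k, Y k ∈ F) (e : Fin n → Fin N)
    (he : Function.Injective e) (hs : ∀ k i, Y k i ≠ 0 → ∃ l, e l = i) :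
    |Matrix.det (Matrix.of fun k l => (Y k (e l) : ℤ))| ≤ J := by
  classical
  set D : Matrix (Fin n) (Fin n) ℤ := Matrix.of fun k l => (Y k (e l) : ℤ) with hD
  by_cases hdet : D.det = 0
  · rw [hdet, abs_zero]; exact_mod_cast hJ.le
  have hYinj : Function.Injective Y := by
    intro k k' hkk
    by_contra hne
    apply hdet
    refine Matrix.det_zero_of_row_eq hne ?_
    rw [hD]
    funext l
    simp [Matrix.of_apply, hkk]
  have hli : LinearIndependent ℤ (fun k => D k) := Matrix.linearIndependent_rows_of_det_ne_zero hdet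
  let L : Submodule ℤ (Fin n → ℤ) := Submodule.span ℤ (Set.range fun k => D k)
  let bN : Module.Basis (Fin n) ℤ L := Module.Basis.span hli
  have hcard : D.det.natAbs = Nat.card ((Fin n → ℤ) ⧸ L) := by
    rw [← Submodule.natAbs_det_basis_change (Pi.basisFun ℤ (Fin n)) L bN]
    congr 1
    rw [Pi.basisFun_det]
    congr 1
    funext k
    exact (congrArg Subtype.val (Module.Basis.span_apply hli k)).symm
  -- heights of the rows
  have hht : ∀ k, ∑ l, (((h (e l) : ℕ) : ℤ) + 1) * (Y k (e l) : ℤ) = J := by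
    intro k
    obtain ⟨B, hB, hFB⟩ := hF.1
    have h1 := hT.ht B hB _ (hFB _ (hY k))
    rw [grp_ht] at h1
    rw [← h1]
    have h2 : ∑ l, (((h (e l) : ℕ) : ℤ) + 1) * (Y k (e l) : ℤ) =
        ∑ i ∈ Finset.univ.image e, (((h i : ℕ) : ℤ) + 1) * (Y k i : ℤ) := by
      rw [Finset.sum_image (fun x _ y _ hxy => he hxy)]
    rw [h2]
    refine Finset.sum_subset (Finset.subset_univ _) fun i _ hi => ?_
    have : Y k i = 0 := by
      by_contra hne
      obtain ⟨l, hl⟩ := hs k i hne
      exact hi (Finset.mem_image.2 ⟨l, Finset.mem_univ _, hl⟩)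
    rw [this]; simp
  -- the main inclusion
  have hmain : ∀ x : Fin n → ℤ, (J : ℤ) ∣ ∑ l, (((h (e l) : ℕ) : ℤ) + 1) * x l → x ∈ L := by
    intro x hx
    have hdetR : IsUnit (D.map (Int.castRingHom ℝ)).det := by
      rw [isUnit_iff_ne_zero]
      have h1 := RingHom.map_det (Int.castRingHom ℝ) D
      rw [RingHom.mapMatrix_apply] at h1
      rw [← h1]
      show ((D.det : ℤ) : ℝ) ≠ 0
      exact_mod_cast hdet
    let DR := D.map (Int.castRingHom ℝ)
    let c : Fin n → ℝ := Matrix.vecMul (rv x) DR⁻¹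
    have hc : ∀ l, ∑ k, c k * (Y k (e l) : ℝ) = x l := by
      have h1 : Matrix.vecMul c DR = rv x := by
        show Matrix.vecMul (Matrix.vecMul (rv x) DR⁻¹) DR = rv x
        rw [Matrix.vecMul_vecMul, Matrix.nonsing_inv_mul _ hdetR, Matrix.vecMul_one]
      intro l
      have h2 := congrFun h1 l
      rw [Matrix.vecMul, dotProduct] at h2
      have h3 : ∀ k, DR k l = (Y k (e l) : ℝ) := by
        intro k
        show ((Int.castRingHom ℝ) ((Y k (e l) : ℤ))) = _
        simp
      simp_rw [h3] at h2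
      exact h2
    obtain ⟨K, hK⟩ : ∃ K : ℕ, ∀ k, 0 ≤ c k + K := by
      obtain ⟨K, hK⟩ := exists_nat_ge (∑ k, |c k|)
      refine ⟨K, fun k => ?_⟩
      have h1 : |c k| ≤ ∑ k, |c k| :=
        Finset.single_le_sum (f := fun k => |c k|) (fun k _ => abs_nonneg _) (Finset.mem_univ k)
      have h2 := neg_abs_le (c k)
      linarith
    let yz : Fin n → ℤ := fun l => x l + K * ∑ k, (Y k (e l) : ℤ)
    have hyR : ∀ l, ((yz l : ℤ) : ℝ) = ∑ k, (c k + K) * (Y k (e l) : ℝ) := by
      intro l
      show ((x l + K * ∑ k, (Y k (e l) : ℤ) : ℤ) : ℝ) = _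
      push_cast
      rw [← hc l, Finset.mul_sum, ← Finset.sum_add_distrib]
      exact Finset.sum_congr rfl fun k _ => by ring
    have hy0 : ∀ l, 0 ≤ yz l := by
      intro l
      have : (0:ℝ) ≤ ((yz l : ℤ) : ℝ) := by
        rw [hyR l]
        exact Finset.sum_nonneg fun k _ => mul_nonneg (hK k) (Nat.cast_nonneg _)
      exact_mod_cast this
    let yN : Fin N → ℕ := Function.extend e (fun l => (yz l).toNat) 0
    have hyNe : ∀ l, ((yN (e l) : ℕ) : ℤ) = yz l := by
      intro l
      show ((Function.extend e (fun l => (yz l).toNat) 0 (e l) : ℕ) : ℤ) = yz l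
      rw [he.extend_apply]
      exact Int.toNat_of_nonneg (hy0 l)
    have hyN0 : ∀ i, (¬ ∃ l, e l = i) → yN i = 0 := by
      intro i hi
      show Function.extend e (fun l => (yz l).toNat) 0 i = 0
      rw [Function.extend_apply' _ _ _ hi]
      rfl
    have hdvd : (J : ℤ) ∣ ∑ i, (((h i : ℕ) : ℤ) + 1) * (yN i : ℤ) := by
      have h2 : ∑ i, (((h i : ℕ) : ℤ) + 1) * (yN i : ℤ) =
          ∑ l, (((h (e l) : ℕ) : ℤ) + 1) * yz l := by
        have h3 : ∑ l, (((h (e l) : ℕ) : ℤ) + 1) * yz l =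
            ∑ i ∈ Finset.univ.image e, (((h i : ℕ) : ℤ) + 1) * (yN i : ℤ) := by
          rw [Finset.sum_image (fun x _ y _ hxy => he hxy)]
          exact Finset.sum_congr rfl fun l _ => by rw [hyNe]
        rw [h3]
        symm
        refine Finset.sum_subset (Finset.subset_univ _) fun i _ hi => ?_
        rw [hyN0 i]
        · simp
        · rintro ⟨l, hl⟩
          exact hi (Finset.mem_image.2 ⟨l, Finset.mem_univ _, hl⟩)
      rw [h2]
      have h4 : ∑ l, (((h (e l) : ℕ) : ℤ) + 1) * yz l =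
          ∑ l, (((h (e l) : ℕ) : ℤ) + 1) * x l +
            K * ∑ k, ∑ l, (((h (e l) : ℕ) : ℤ) + 1) * (Y k (e l) : ℤ) := by
        rw [Finset.sum_comm, Finset.mul_sum, ← Finset.sum_add_distrib]
        refine Finset.sum_congr rfl fun l _ => ?_
        show _ * (x l + K * ∑ k, (Y k (e l) : ℤ)) = _
        rw [← Finset.mul_sum]
        ring
      rw [h4]
      simp_rw [hht]
      refine dvd_add hx ?_
      rw [Finset.sum_const, nsmul_eq_mul]
      exact Dvd.dvd.mul_left (Dvd.dvd.mul_left dvd_rfl _) _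
    obtain ⟨w, hw, hwn, hwl⟩ := srt_nat hT yN hdvd
    let w2 : (Fin N → ℕ) →₀ ℝ := ∑ k, single (Y k) (c k + K)
    have hw2 : w2 ∈ body (srt h T) := by
      refine ⟨?_, ?_⟩
      · intro z
        show 0 ≤ (∑ k, single (Y k) (c k + K)) z
        rw [Finsupp.finsetSum_apply]
        refine Finset.sum_nonneg fun k _ => ?_
        rw [Finsupp.single_apply]
        split_ifs
        · exact hK k
        · exact le_rfl
      · refine srt_down hF (Finsupp.support_finsetSum.trans ?_)
        intro z hz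
        rw [Finset.mem_biUnion] at hz
        obtain ⟨k, _, hz⟩ := hz
        have := Finsupp.support_single_subset hz
        rw [Finset.mem_singleton] at this
        rw [this]; exact hY k
    have hw2l : lc ry w2 = rv (ry yN) := by
      show lc ry (∑ k, single (Y k) (c k + K)) = _
      rw [map_sum]
      funext i
      rw [Finset.sum_apply]
      have h5 : ∀ k, (lc ry (single (Y k) (c k + K))) i = (c k + K) * (Y k i : ℝ) := by
        intro k
        rw [lc_single, Pi.smul_apply, smul_eq_mul]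
        simp [rv, ry]
      simp_rw [h5]
      by_cases hi : ∃ l, e l = i
      · obtain ⟨l, rfl⟩ := hi
        rw [← hyR l, ← hyNe l]
        simp [rv, ry]
      · have h6 : ∀ k, Y k i = 0 := by
          intro k
          by_contra hne
          exact hi (hs k i hne)
        simp_rw [h6]
        rw [show rv (ry yN) i = ((yN i : ℕ) : ℝ) by simp [rv, ry], hyN0 i hi]
        simp
    have hww : w = w2 := srt_inj hT.cx hw hw2 (by rw [hwl, hw2l])
    have hnat : ∀ k, ∃ m : ℕ, c k + K = m := by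
      intro k
      obtain ⟨m, hm⟩ := hwn (Y k)
      refine ⟨m, ?_⟩
      rw [← hm, hww]
      show c k + K = (∑ k, single (Y k) (c k + K)) (Y k)
      rw [Finsupp.finsetSum_apply, Finset.sum_eq_single k]
      · rw [Finsupp.single_eq_same]
      · intro k' _ hk'
        rw [Finsupp.single_apply, if_neg]
        exact fun hcon => hk' (hYinj hcon)
      · intro hcon; exact absurd (Finset.mem_univ _) hcon
    choose m hm using hnat
    have hxrep : x = ∑ k, ((m k : ℤ) - K) • D k := by
      funext l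
      rw [Finset.sum_apply]
      have h7 : ((x l : ℤ) : ℝ) = ((∑ k, ((m k : ℤ) - K) * (Y k (e l) : ℤ) : ℤ) : ℝ) := by
        rw [← hc l]
        push_cast
        refine Finset.sum_congr rfl fun k _ => ?_
        rw [← hm k]; ring
      have h8 : x l = ∑ k, ((m k : ℤ) - K) * (Y k (e l) : ℤ) := by exact_mod_cast h7
      rw [h8]
      rfl
    rw [hxrep]
    exact Submodule.sum_mem _ fun k _ => Submodule.smul_mem _ _
      (Submodule.subset_span ⟨k, rfl⟩)
  -- the index
  let φ : (Fin n → ℤ) →+ ZMod J :=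
    { toFun := fun x => ((∑ l, (((h (e l) : ℕ) : ℤ) + 1) * x l : ℤ) : ZMod J)
      map_zero' := by simp
      map_add' := by
        intro x y
        simp only [Pi.add_apply, mul_add, Finset.sum_add_distrib]
        push_cast
        rfl }
  have hker : φ.ker ≤ L.toAddSubgroup := by
    intro x hx
    rw [AddMonoidHom.mem_ker] at hx
    have h1 : ((∑ l, (((h (e l) : ℕ) : ℤ) + 1) * x l : ℤ) : ZMod J) = 0 := hx
    rw [ZMod.intCast_zmod_eq_zero_iff_dvd] at h1
    exact hmain x h1
  have : NeZero J := ⟨hJ.ne'⟩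
  have hidx : φ.ker.index ≤ J := by
    rw [AddSubgroup.index_ker]
    have h1 : Nat.card φ.range ≤ Nat.card (ZMod J) := Nat.card_le_card_of_injective
      (fun x : φ.range => (x : ZMod J)) Subtype.val_injective
    rwa [Nat.card_zmod] at h1
  have hidx0 : φ.ker.index ≠ 0 := by
    rw [AddSubgroup.index_ker]
    exact Nat.card_pos.ne'
  have hdv := AddSubgroup.index_dvd_of_le hker
  have h1 : L.toAddSubgroup.index ≤ φ.ker.index := Nat.le_of_dvd (Nat.pos_of_ne_zero hidx0) hdv
  have h2 : D.det.natAbs ≤ J := by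
    rw [hcard]
    exact h1.trans hidx
  rw [Int.abs_eq_natAbs]
  exact_mod_cast h2

end sd

end H79KMW
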