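import Pool.Agent.Work.MP_6237c7_co.Basic

set_option autoImplicit false

namespace H79KMW

open Finsupp

/-- Stellar subdivision of a fan at the vector `m` in the relative interior of `G`. -/
def star {n : ℕ} (C : Set (Finset (Fin n → ℤ))) (G : Finset (Fin n → ℤ)) (m : Fin n → ℤ) :
    Set (Finset (Fin n → ℤ)) :=
  {s | s ∈ C ∧ ¬ G ⊆ s} ∪
    {s | ∃ t ∈ C, ¬ G ⊆ t ∧ (∃ u ∈ C, t ⊆ u ∧ G ⊆ u) ∧ (s : Set (Fin n → ℤ)) = insert m (t : Set (Fin n → ℤ))}

section
variable {n : ℕ} {C : Set (Finset (Fin n → ℤ))} {l : (Fin n → ℤ) →₀ ℝ} {m : Fin n → ℤ}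

lemma star_notMem (hC : IsCx id C) (hl0 : ∀ x, 0 ≤ l x) (hl1 : ∀ x, l x < 1)
    (hm : lc id l = rv m) (hG : l.support ∈ C) {t : Finset (Fin n → ℤ)} (ht : t ∈ C) : m ∉ t := by
  classical
  intro hmt
  have h1 : single m (1:ℝ) ∈ body C := by
    refine ⟨?_, ?_⟩
    · intro z; rw [Finsupp.single_apply]; split_ifs <;> norm_num
    · rw [Finsupp.support_single _ one_ne_zero]; exact hC.down t ht _ (by simpa using hmt)
  have h2 : l = single m 1 := hC.inj ⟨hl0, hG⟩ h1 (by rw [hm, lc_single, one_smul]; rfl)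
  have := hl1 m
  rw [h2, Finsupp.single_eq_same] at this
  exact lt_irrefl _ this

lemma star_void (hC : IsCx id C) {G : Finset (Fin n → ℤ)} (hG : G ∉ C) : star C G m = C := by
  ext s
  constructor
  · rintro (⟨h, _⟩ | ⟨t, _, _, ⟨u, hu, _, hGu⟩, _⟩)
    · exact h
    · exact absurd (hC.down u hu _ hGu) hG
  · intro h
    exact Or.inl ⟨h, fun hGs => hG (hC.down s h _ hGs)⟩

/-- the comparison map -/
noncomputable def phi (l : (Fin n → ℤ) →₀ ℝ) (m : Fin n → ℤ) (a : (Fin n → ℤ) →₀ ℝ) :
    (Fin n → ℤ) →₀ ℝ := a.erase m + a m • l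

lemma lc_phi (hm : lc id l = rv m) (a : (Fin n → ℤ) →₀ ℝ) : lc id (phi l m a) = lc id a := by
  have h1 : a = single m (a m) + a.erase m := (Finsupp.single_add_erase m a).symm
  have h2 : lc id a = a m • rv m + lc id (a.erase m) := by
    conv_lhs => rw [h1]
    rw [map_add, lc_single]
    rfl
  rw [phi, map_add, map_smul, hm, h2, add_comm]

lemma phi_body (hC : IsCx id C) (hl0 : ∀ x, 0 ≤ l x) (hl1 : ∀ x, l x < 1)
    (hm : lc id l = rv m) (hG : l.support ∈ C) {a : (Fin n → ℤ) →₀ ℝ}
    (ha : a ∈ body (star C l.support m)) : phi l m a ∈ body C := by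
  classical
  refine ⟨?_, ?_⟩
  · intro x
    rw [phi, Finsupp.add_apply, Finsupp.smul_apply, smul_eq_mul]
    refine add_nonneg ?_ (mul_nonneg (ha.1 m) (hl0 x))
    rw [Finsupp.erase_apply]
    split_ifs
    · exact le_rfl
    · exact ha.1 x
  · rcases ha.2 with ⟨h, _⟩ | ⟨t, ht, _, ⟨u, hu, htu, hGu⟩, hs⟩
    · have hm0 : a m = 0 := by
        have := star_notMem hC hl0 hl1 hm hG h
        rwa [Finsupp.notMem_support_iff] at this
      refine hC.down _ h _ ?_
      rw [phi, hm0, zero_smul, add_zero, Finsupp.support_erase]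
      exact Finset.erase_subset _ _
    · refine hC.down u hu _ ?_
      rw [phi]
      refine supp_add_subset _ _ _ ?_ (supp_smul_subset _ _ _ hGu)
      rw [Finsupp.support_erase]
      intro x hx
      rw [Finset.mem_erase] at hx
      have : x ∈ (a.support : Set (Fin n → ℤ)) := Finset.mem_coe.2 hx.2
      rw [hs] at this
      rcases this with h | h
      · exact absurd h hx.1
      · exact htu h

lemma star_erase {a : (Fin n → ℤ) →₀ ℝ}
    (ha : a ∈ body (star C l.support m)) : ¬ l.support ⊆ (a.erase m).support := by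
  classical
  rcases ha.2 with ⟨_, h'⟩ | ⟨t, ht, h', ⟨u, hu, htu, hGu⟩, hs⟩
  · intro hsub
    refine h' (hsub.trans ?_)
    rw [Finsupp.support_erase]
    exact Finset.erase_subset _ _
  · intro hsub
    refine h' (hsub.trans ?_)
    rw [Finsupp.support_erase]
    intro x hx
    rw [Finset.mem_erase] at hx
    have : x ∈ (a.support : Set (Fin n → ℤ)) := Finset.mem_coe.2 hx.2
    rw [hs] at this
    rcases this with h | h
    · exact absurd h hx.1
    · exact h

lemma star_inj_aux (hl0 : ∀ x, 0 ≤ l x) {a b : (Fin n → ℤ) →₀ ℝ}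
    (ha : a ∈ body (star C l.support m)) (hb : b ∈ body (star C l.support m))
    (h : phi l m a = phi l m b) (hle : a m ≤ b m) : a = b := by
  classical
  rcases hle.lt_or_eq with hlt | heq
  · exfalso
    apply star_erase ha
    intro x hx
    rw [Finsupp.mem_support_iff] at hx ⊢
    have h1 := DFunLike.congr_fun h x
    rw [phi, phi, Finsupp.add_apply, Finsupp.add_apply, Finsupp.smul_apply, Finsupp.smul_apply,
      smul_eq_mul, smul_eq_mul] at h1
    have h2 : 0 ≤ (b.erase m) x := by
      rw [Finsupp.erase_apply]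
      split_ifs
      · exact le_rfl
      · exact hb.1 x
    have h3 : 0 < l x := lt_of_le_of_ne (hl0 x) (Ne.symm hx)
    have h4 : 0 < (b m - a m) * l x := mul_pos (by linarith) h3
    have h5 : (a.erase m) x = (b.erase m) x + (b m - a m) * l x := by linarith
    rw [h5]
    positivity
  · have h1 : a.erase m = b.erase m := by
      have := h
      rw [phi, phi, heq] at this
      exact add_right_cancel this
    rw [← Finsupp.single_add_erase m a, ← Finsupp.single_add_erase m b, h1, heq]

lemma star_isCx (hC : IsCx id C) (hl0 : ∀ x, 0 ≤ l x) (hl1 : ∀ x, l x < 1)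
    (hm : lc id l = rv m) : IsCx id (star C l.support m) := by
  classical
  by_cases hG : l.support ∈ C
  swap
  · rw [star_void hC hG]; exact hC
  refine ⟨?_, ?_, ?_⟩
  · refine (hC.fin.union (hC.fin.image (fun t => insert m t))).subset ?_
    rintro s (⟨h, _⟩ | ⟨t, ht, _, _, hs⟩)
    · exact Or.inl h
    · refine Or.inr ⟨t, ht, ?_⟩
      apply Finset.coe_injective
      simp only [Finset.coe_insert]
      exact hs.symm
  · rintro s (⟨h, h'⟩ | ⟨t, ht, h', ⟨u, hu, htu, hGu⟩, hs⟩) s' hs'
    · exact Or.inl ⟨hC.down s h _ hs', fun hh => h' (hh.trans hs')⟩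
    · by_cases hms : m ∈ s'
      · have hsub : s'.erase m ⊆ t := by
          intro x hx
          rw [Finset.mem_erase] at hx
          have : x ∈ (s : Set (Fin n → ℤ)) := Finset.mem_coe.2 (hs' hx.2)
          rw [hs] at this
          rcases this with h | h
          · exact absurd h hx.1
          · exact h
        refine Or.inr ⟨s'.erase m, ?_, ?_, ⟨u, hu, ?_, hGu⟩, ?_⟩
        · exact hC.down t ht _ hsub
        · exact fun hh => h' (hh.trans hsub)
        · exact hsub.trans htu
        · rw [← Finset.coe_insert, Finset.insert_erase hms]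
      · have hsub : s' ⊆ t := by
          intro x hx
          have : x ∈ (s : Set (Fin n → ℤ)) := Finset.mem_coe.2 (hs' hx)
          rw [hs] at this
          rcases this with h | h
          · exact absurd (h ▸ hx) hms
          · exact h
        exact Or.inl ⟨hC.down t ht _ hsub, fun hh => h' (hh.trans hsub)⟩
  · intro a ha b hb hab
    have h : phi l m a = phi l m b := by
      refine hC.inj (phi_body hC hl0 hl1 hm hG ha) (phi_body hC hl0 hl1 hm hG hb) ?_
      rw [lc_phi hm, lc_phi hm]; exact hab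
    rcases le_total (a m) (b m) with hle | hle
    · exact star_inj_aux hl0 ha hb h hle
    · exact (star_inj_aux hl0 hb ha h.symm hle).symm

lemma star_supp (hC : IsCx id C) (hl0 : ∀ x, 0 ≤ l x) (hl1 : ∀ x, l x < 1) (hlne : l ≠ 0)
    (hm : lc id l = rv m) : supp id (star C l.support m) = supp id C := by
  classical
  by_cases hG : l.support ∈ C
  swap
  · rw [star_void hC hG]
  have hstar := star_isCx hC hl0 hl1 hm
  ext y
  constructor
  · rintro ⟨a, ha, rfl⟩
    exact ⟨phi l m a, phi_body hC hl0 hl1 hm hG ha, lc_phi hm a⟩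
  · rintro ⟨c, hc, rfl⟩
    by_cases hGc : l.support ⊆ c.support
    swap
    · exact ⟨c, ⟨hc.1, Or.inl ⟨hc.2, hGc⟩⟩, rfl⟩
    have hne : l.support.Nonempty := by
      rw [Finsupp.support_nonempty_iff]; exact hlne
    obtain ⟨g0, hg0, hmin⟩ := Finset.exists_min_image l.support (fun g => c g / l g) hne
    have hlpos : ∀ g ∈ l.support, 0 < l g := fun g hg =>
      lt_of_le_of_ne (hl0 g) (Ne.symm (Finsupp.mem_support_iff.1 hg))
    set τ : ℝ := c g0 / l g0 with hτ
    have hτ0 : 0 ≤ τ := div_nonneg (hc.1 _) (hl0 _)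
    have hle : ∀ x, τ * l x ≤ c x := by
      intro x
      by_cases hx : x ∈ l.support
      · have := hmin x hx
        rw [le_div_iff₀ (hlpos x hx)] at this
        exact this
      · rw [Finsupp.notMem_support_iff] at hx
        rw [hx, mul_zero]; exact hc.1 x
    refine ⟨(c - τ • l) + single m τ, ⟨?_, ?_⟩, ?_⟩
    · intro x
      rw [Finsupp.add_apply, Finsupp.sub_apply, Finsupp.smul_apply, smul_eq_mul]
      have h1 := hle x
      have h2 : 0 ≤ (single m τ) x := by
        rw [Finsupp.single_apply]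
        split_ifs
        · exact hτ0
        · exact le_rfl
      linarith
    · have hsub : (c - τ • l).support ⊆ c.support :=
        supp_sub_subset _ _ _ (Finset.Subset.refl _) (supp_smul_subset _ _ _ hGc)
      have hmem : insert m (c - τ • l).support ∈ star C l.support m := by
        refine Or.inr ⟨(c - τ • l).support, hC.down _ hc.2 _ hsub, ?_,
          ⟨c.support, hc.2, hsub, hGc⟩, by rw [Finset.coe_insert]⟩
        intro hh
        have := hh hg0
        rw [Finsupp.mem_support_iff] at this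
        apply this
        rw [Finsupp.sub_apply, Finsupp.smul_apply, smul_eq_mul, hτ,
          div_mul_cancel₀ _ (hlpos g0 hg0).ne', sub_self]
      refine hstar.down _ hmem _ ?_
      refine supp_add_subset _ _ _ (Finset.subset_insert _ _) ?_
      refine Finsupp.support_single_subset.trans ?_
      intro x hx
      rw [Finset.mem_singleton] at hx
      rw [hx]; exact Finset.mem_insert_self _ _
    · rw [map_add, map_sub, map_smul, hm, lc_single]
      change lc id c - τ • rv m + τ • rv m = lc id c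
      abel

end

/-- integer determinant of a family of rays -/
def dt {n : ℕ} (f : Fin n → Fin n → ℤ) : ℤ := Matrix.det (Matrix.of f)

lemma dt_cast {n : ℕ} (f : Fin n → Fin n → ℤ) :
    ((dt f : ℤ) : ℝ) = Matrix.detRowAlternating (fun i => rv (f i)) := by
  rw [dt]
  have := (RingHom.map_det (Int.castRingHom ℝ) (Matrix.of f))
  rw [show ((Matrix.det (Matrix.of f) : ℤ) : ℝ) = (Int.castRingHom ℝ) (Matrix.of f).det from rfl,
    this]
  rfl

lemma dt_eq_zero {n : ℕ} {f : Fin n → Fin n → ℤ} (hf : ¬ Function.Injective f) : dt f = 0 := by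
  rw [Function.Injective] at hf
  push Not at hf
  obtain ⟨i, j, hij, hne⟩ := hf
  exact Matrix.det_zero_of_row_eq hne hij

lemma star_dt {n : ℕ} {C : Set (Finset (Fin n → ℤ))} {l : (Fin n → ℤ) →₀ ℝ} {m : Fin n → ℤ}
    (hC : IsCx id C) (hl0 : ∀ x, 0 ≤ l x) (hm : lc id l = rv m)
    {t u : Finset (Fin n → ℤ)} (hu : u ∈ C) (htu : t ⊆ u) (hGu : l.support ⊆ u)
    (hGt : ¬ l.support ⊆ t) {θ B : ℝ} (hθ : ∀ x, l x ≤ θ)
    (hB : ∀ f : Fin n → Fin n → ℤ, (∀ i, f i ∈ u) → |(dt f : ℝ)| ≤ B)
    (f : Fin n → Fin n → ℤ) (hf : ∀ i, f i = m ∨ f i ∈ t) : |(dt f : ℝ)| ≤ θ * B := by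
  classical
  have hθ0 : 0 ≤ θ := (hl0 m).trans (hθ m)
  have hne : l.support.Nonempty := by
    by_contra h
    rw [Finset.not_nonempty_iff_eq_empty] at h
    exact hGt (by rw [h]; exact Finset.empty_subset _)
  have hB0 : 0 ≤ B := by
    obtain ⟨g, hg⟩ := hne
    exact (abs_nonneg _).trans (hB (fun _ => g) (fun _ => hGu hg))
  by_cases hinj : Function.Injective f
  swap
  · rw [dt_eq_zero hinj, Int.cast_zero, abs_zero]; positivity
  by_cases hex : ∃ i0, f i0 = m
  swap
  · exfalso
    push Not at hex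
    have h1 : Finset.univ.image f ⊆ t := by
      intro x hx
      rw [Finset.mem_image] at hx
      obtain ⟨i, _, rfl⟩ := hx
      exact (hf i).resolve_left (hex i)
    have h2 : n ≤ t.card := by
      have := Finset.card_le_card h1
      rwa [Finset.card_image_of_injective _ hinj, Finset.card_univ, Fintype.card_fin] at this
    have h3 : t ⊂ u := by
      refine ⟨htu, fun h => hGt (hGu.trans h)⟩
    have h4 := Finset.card_lt_card h3
    have h5 := hC.card_le hu
    omega
  obtain ⟨i0, hi0⟩ := hex
  -- the other rows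
  let T0 : Finset (Fin n → ℤ) := (Finset.univ.erase i0).image f
  have hT0 : T0 ⊆ t := by
    intro x hx
    rw [Finset.mem_image] at hx
    obtain ⟨i, hi, rfl⟩ := hx
    rw [Finset.mem_erase] at hi
    refine (hf i).resolve_left ?_
    intro h
    exact hi.1 (hinj (h.trans hi0.symm))
  have hT0card : T0.card = n - 1 := by
    rw [Finset.card_image_of_injective _ hinj, Finset.card_erase_of_mem (Finset.mem_univ _),
      Finset.card_univ, Fintype.card_fin]
  have hnpos : 0 < n := Fin.pos i0
  have hcard : (l.support \ T0).card ≤ 1 := by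
    have h1 : l.support \ T0 ⊆ u \ T0 := Finset.sdiff_subset_sdiff hGu (Finset.Subset.refl _)
    have h2 := Finset.card_le_card h1
    rw [Finset.card_sdiff_of_subset (hT0.trans htu), hT0card] at h2
    have h5 := hC.card_le hu
    omega
  -- expansion
  have hrow : rv m = ∑ g ∈ l.support, l g • rv g := by
    rw [← hm, lc, Finsupp.linearCombination_apply, Finsupp.sum]
    rfl
  have hexp : ((dt f : ℤ) : ℝ) = ∑ g ∈ l.support, l g * (dt (Function.update f i0 g) : ℝ) := by
    have h1 : (fun i => rv (f i)) = Function.update (fun i => rv (f i)) i0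
        (∑ g ∈ l.support, l g • rv g) := by
      rw [← hrow, ← hi0]
      exact (Function.update_eq_self i0 (fun i => rv (f i))).symm
    rw [dt_cast, h1, AlternatingMap.map_update_sum]
    refine Finset.sum_congr rfl fun g _ => ?_
    rw [AlternatingMap.map_update_smul, dt_cast, smul_eq_mul]
    congr 2
    funext i
    by_cases hi : i = i0
    · subst hi; simp
    · simp [Function.update_of_ne hi]
  have hzero : ∀ g ∈ l.support, g ∉ l.support \ T0 →
      |l g * (dt (Function.update f i0 g) : ℝ)| = 0 := by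
    intro g hg hg'
    have hgT : g ∈ T0 := by
      by_contra h
      exact hg' (Finset.mem_sdiff.2 ⟨hg, h⟩)
    rw [Finset.mem_image] at hgT
    obtain ⟨i, hi, hig⟩ := hgT
    rw [Finset.mem_erase] at hi
    have : dt (Function.update f i0 g) = 0 := by
      apply dt_eq_zero
      intro h
      apply hi.1
      apply h
      rw [Function.update_of_ne hi.1, Function.update_self, hig]
    rw [this, Int.cast_zero, mul_zero, abs_zero]
  rw [hexp]
  calc |∑ g ∈ l.support, l g * (dt (Function.update f i0 g) : ℝ)|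
      ≤ ∑ g ∈ l.support, |l g * (dt (Function.update f i0 g) : ℝ)| :=
        Finset.abs_sum_le_sum_abs _ _
    _ = ∑ g ∈ l.support \ T0, |l g * (dt (Function.update f i0 g) : ℝ)| :=
        (Finset.sum_subset Finset.sdiff_subset hzero).symm
    _ ≤ ∑ g ∈ l.support \ T0, θ * B := by
        refine Finset.sum_le_sum fun g hg => ?_
        rw [abs_mul, abs_of_nonneg (hl0 g)]
        refine mul_le_mul (hθ g) ?_ (abs_nonneg _) hθ0
        refine hB _ fun i => ?_
        by_cases hi : i = i0
        · subst hi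
          rw [Function.update_self]
          exact hGu (Finset.mem_sdiff.1 hg).1
        · rw [Function.update_of_ne hi]
          refine htu ((hf i).resolve_left ?_)
          intro h
          exact hi (hinj (h.trans hi0.symm))
    _ = ((l.support \ T0).card : ℝ) * (θ * B) := by
        rw [Finset.sum_const, nsmul_eq_mul]
    _ ≤ 1 * (θ * B) := by
        refine mul_le_mul_of_nonneg_right ?_ (by positivity)
        exact_mod_cast hcard
    _ = θ * B := one_mul _

/-- multiplicity bound -/
def MB {n : ℕ} (C : Set (Finset (Fin n → ℤ))) (B : ℝ) : Prop :=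
  ∀ s ∈ C, ∀ f : Fin n → Fin n → ℤ, (∀ i, f i ∈ s) → |(dt f : ℝ)| ≤ B

/-- Iterated stellar subdivisions. -/
lemma star_phase {n : ℕ} {K : Set (Finset (Fin n → ℤ))} (hK : IsCx id K) {V θ : ℝ}
    (hV : 0 ≤ V) (hθ1 : θ < 1) (hMB : MB K V)
    (L : Finset ((Fin n → ℤ) →₀ ℝ))
    (hL : ∀ l ∈ L, (∀ x, 0 ≤ l x) ∧ (∀ x, l x ≤ θ) ∧ l ≠ 0 ∧ ∃ m, lc id l = rv m) :
    ∃ C : Set (Finset (Fin n → ℤ)), IsCx id C ∧ supp id C = supp id K ∧
      (∀ s ∈ C, (s ∈ K ∧ ∀ l ∈ L, ¬ l.support ⊆ s) ∨
        (∀ f : Fin n → Fin n → ℤ, (∀ i, f i ∈ s) → |(dt f : ℝ)| ≤ θ * V)) ∧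
      (∀ s ∈ C, ∀ x ∈ s, (∃ s' ∈ K, x ∈ s') ∨ ∃ l ∈ L, lc id l = rv x) := by
  classical
  induction L using Finset.induction_on with
  | empty =>
    refine ⟨K, hK, rfl, fun s hs => Or.inl ⟨hs, by simp⟩, fun s hs x hx => Or.inl ⟨s, hs, hx⟩⟩
  | insert l L hlL ih =>
    obtain ⟨C, hC, hsupp, hI, hR⟩ := ih (fun l' hl' => hL l' (Finset.mem_insert_of_mem hl'))
    obtain ⟨hl0, hlθ, hlne, m, hm⟩ := hL l (Finset.mem_insert_self _ _)
    have hl1 : ∀ x, l x < 1 := fun x => (hlθ x).trans_lt hθ1
    refine ⟨star C l.support m, star_isCx hC hl0 hl1 hm,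
      (star_supp hC hl0 hl1 hlne hm).trans hsupp, ?_, ?_⟩
    · rintro s (⟨hs, hGs⟩ | ⟨t, ht, hGt, ⟨u, hu, htu, hGu⟩, hst⟩)
      · rcases hI s hs with ⟨h1, h2⟩ | h
        · left
          refine ⟨h1, fun l' hl' => ?_⟩
          rw [Finset.mem_insert] at hl'
          rcases hl' with rfl | hl'
          · exact hGs
          · exact h2 l' hl'
        · exact Or.inr h
      · right
        intro f hf
        have hBu : ∀ f : Fin n → Fin n → ℤ, (∀ i, f i ∈ u) → |(dt f : ℝ)| ≤ V := by
          intro f hf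
          rcases hI u hu with ⟨h1, _⟩ | h
          · exact hMB u h1 f hf
          · exact (h f hf).trans (by nlinarith)
        refine star_dt hC hl0 hm hu htu hGu hGt hlθ hBu f (fun i => ?_)
        have : f i ∈ (s : Set (Fin n → ℤ)) := Finset.mem_coe.2 (hf i)
        rw [hst] at this
        rcases this with h | h
        · exact Or.inl h
        · exact Or.inr h
    · rintro s (⟨hs, _⟩ | ⟨t, ht, _, _, hst⟩) x hx
      · rcases hR s hs x hx with h | ⟨l', hl', h⟩
        · exact Or.inl h
        · exact Or.inr ⟨l', Finset.mem_insert_of_mem hl', h⟩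
      · have : x ∈ (s : Set (Fin n → ℤ)) := Finset.mem_coe.2 hx
        rw [hst] at this
        rcases this with h | h
        · right
          refine ⟨l, Finset.mem_insert_self _ _, ?_⟩
          rw [h]; exact hm
        · rcases hR t ht x h with h | ⟨l', hl', h⟩
          · exact Or.inl h
          · exact Or.inr ⟨l', Finset.mem_insert_of_mem hl', h⟩

end H79KMW
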